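import Mathlib

/-!
The cover of a normal variety given by a finite extension of its function field.
-/

set_option autoImplicit false

open AlgebraicGeometry CategoryTheory CategoryTheory.Limits

namespace Pool.Agent.LibK3G

section

variable {S : Scheme} [IsIntegral S] (M : Type) [Field M] [Algebra S.functionField M]

/-- The generic point of a finite extension of the function field. -/
noncomputable def genPt : Spec (CommRingCat.of M) ⟶ S :=
  Spec.map (CommRingCat.ofHom (algebraMap S.functionField M)) ≫
    S.fromSpecStalk (genericPoint S)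

theorem genPt_preimage (U : S.Opens) (hU : genericPoint S ∈ U) :
    genPt (S := S) M ⁻¹ᵁ U = ⊤ := by
  ext x
  refine ⟨fun _ => trivial, fun _ => ?_⟩
  have h1 : (Spec.map (CommRingCat.ofHom (algebraMap S.functionField M))) x =
      IsLocalRing.closedPoint S.functionField := Subsingleton.elim _ _
  change S.fromSpecStalk (genericPoint S)
    ((Spec.map (CommRingCat.ofHom (algebraMap S.functionField M))) x) ∈ U
  rw [h1, Scheme.fromSpecStalk_closedPoint]
  exact hU

/-- `Γ(Spec M, genPt⁻¹ U) = M`. -/
noncomputable def genIso (U : S.Opens) (hU : genericPoint S ∈ U) :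
    Γ(Spec (CommRingCat.of M), genPt (S := S) M ⁻¹ᵁ U) ≅ CommRingCat.of M :=
  (Spec (CommRingCat.of M)).presheaf.mapIso (eqToIso (genPt_preimage M U hU).symm).op ≪≫
    Scheme.ΓSpecIso (CommRingCat.of M)

theorem genPt_appLE (U : S.Opens) (hU : genericPoint S ∈ U) :
    (genPt (S := S) M).appLE U ⊤ (genPt_preimage M U hU).ge ≫
      (Scheme.ΓSpecIso (CommRingCat.of M)).hom =
      S.presheaf.germ U (genericPoint S) hU ≫
        CommRingCat.ofHom (algebraMap S.functionField M) := by
  change (Spec.map (CommRingCat.ofHom (algebraMap S.functionField M)) ≫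
      S.fromSpecStalk (genericPoint S)).appLE U ⊤ _ ≫ _ = _
  rw [Scheme.Hom.comp_appLE, Scheme.fromSpecStalk_app hU, Category.assoc, Category.assoc,
    Category.assoc, Scheme.Hom.map_appLE_assoc]
  refine congrArg (fun q => S.presheaf.germ U (genericPoint S) hU ≫ q) ?_
  rw [Iso.inv_comp_eq, ← Scheme.ΓSpecIso_naturality]
  exact congrArg (fun q => q ≫ (Scheme.ΓSpecIso (CommRingCat.of M)).hom)
    (Scheme.Hom.appLE_eq_app (Spec.map (CommRingCat.ofHom (algebraMap S.functionField M))))

theorem genPt_app (U : S.Opens) (hU : genericPoint S ∈ U) (a : Γ(S, U)) :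
    (genIso M U hU).hom ((genPt (S := S) M).app U a) =
      algebraMap S.functionField M (S.presheaf.germ U (genericPoint S) hU a) :=
  congrArg (fun q => q a) (genPt_appLE M U hU)

end

end Pool.Agent.LibK3G
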