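import Pool.Agent.LibK3G.CV1

/-!
The cover of a normal variety given by a finite extension of its function field.
-/

set_option autoImplicit false

open AlgebraicGeometry CategoryTheory CategoryTheory.Limits

namespace Pool.Agent.LibK3G

theorem finite_integralClosure {A K M L : Type} [CommRing A] [IsDomain A] [IsNoetherianRing A]
    [IsIntegrallyClosed A] [Field K] [CharZero K] [Algebra A K] [IsFractionRing A K] [Field M]
    [Algebra K M] [FiniteDimensional K M] [CommRing L] [Algebra A L] (ε : L ≃+* M)
    (hε : ∀ a : A, ε (algebraMap A L a) = algebraMap K M (algebraMap A K a)) :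
    Module.Finite A (integralClosure A L) := by
  let _ : Algebra A M := ((algebraMap K M).comp (algebraMap A K)).toAlgebra
  have : IsScalarTower A K M := IsScalarTower.of_algebraMap_eq fun _ => rfl
  have h1 : Module.Finite A (integralClosure A M) :=
    IsIntegralClosure.finite A K M (integralClosure A M)
  let ε' : L ≃ₐ[A] M := AlgEquiv.ofRingEquiv (f := ε) hε
  exact Module.Finite.equiv (ε'.symm.mapIntegralClosure).toLinearEquiv

theorem exists_cover {S : Scheme.{0}} [IsIntegral S] [IsLocallyNoetherian S]
    [CharZero S.functionField]
    (hn : ∀ U : S.Opens, IsAffineOpen U → genericPoint S ∈ U → IsIntegrallyClosed Γ(S, U))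
    (M : Type) [Field M] [Algebra S.functionField M] [FiniteDimensional S.functionField M] :
    ∃ (Y : Scheme.{0}) (π : Y ⟶ S), IsIntegral Y ∧ IsFinite π ∧ Surjective π ∧
      ∀ (U : S.Opens) (_ : IsAffineOpen U) (hg : genericPoint S ∈ U),
        ∃ e : Γ(Y, π ⁻¹ᵁ U) →+* M, Function.Injective e ∧
          (∀ a, e (π.app U a) = algebraMap S.functionField M
            (S.presheaf.germ U (genericPoint S) hg a)) ∧
          ∀ z : M, ((algebraMap S.functionField M).comp
            (S.presheaf.germ U (genericPoint S) hg).hom).IsIntegralElem z → z ∈ Set.range e := by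
  have hqc : QuasiCompact (genPt (S := S) M) := inferInstance
  have hqs : QuasiSeparated (genPt (S := S) M) := inferInstance
  have hfin : ∀ (U : S.Opens) (_ : IsAffineOpen U) (_ : genericPoint S ∈ U),
      ((genPt (S := S) M).fromNormalization.app U).hom.Finite := by
    intro U hU hg
    let _ := ((genPt (S := S) M).app U).hom.toAlgebra
    have := hn U hU hg
    have hne : Nonempty U := ⟨⟨_, hg⟩⟩
    have hfr := functionField_isFractionRing_of_isAffineOpen S U hU
    have hnoeth : IsNoetherianRing Γ(S, U) := IsLocallyNoetherian.component_noetherian ⟨U, hU⟩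
    have h1 : Module.Finite Γ(S, U) (integralClosure Γ(S, U)
        Γ(Spec (CommRingCat.of M), genPt (S := S) M ⁻¹ᵁ U)) :=
      finite_integralClosure (K := S.functionField) (M := M)
        (genIso M U hg).commRingCatIsoToRingEquiv (fun a => genPt_app M U hg a)
    rw [(genPt (S := S) M).fromNormalization_app hU]
    refine RingHom.Finite.comp (g := ((genPt (S := S) M).normalizationObjIso hU).inv.hom)
      (f := algebraMap _ _) ?_ ?_
    · exact RingHom.Finite.of_surjective _ ((ConcreteCategory.isIso_iff_bijective _).1
        inferInstance).2
    · exact h1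
  refine ⟨(genPt (S := S) M).normalization, (genPt (S := S) M).fromNormalization, inferInstance,
    ?_, ?_, ?_⟩
  · refine { finite_app := fun U hU => ?_ }
    by_cases hg : genericPoint S ∈ U
    · exact hfin U hU hg
    · have hU0 : U = ⊥ := by
        ext x
        refine ⟨fun hx => hg ?_, fun hx => hx.elim⟩
        exact ((genericPoint_spec S).mem_open_set_iff U.2).2 ⟨x, trivial, hx⟩
      subst hU0
      have : Subsingleton Γ((genPt (S := S) M).normalization,
          (genPt (S := S) M).fromNormalization ⁻¹ᵁ ⊥) :=
        inferInstanceAs (Subsingleton Γ((genPt (S := S) M).normalization, ⊥))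
      exact RingHom.Finite.of_surjective _ fun y => ⟨0, Subsingleton.elim _ _⟩
  · have hcl : IsClosed (Set.range (genPt (S := S) M).fromNormalization) :=
      (genPt (S := S) M).fromNormalization.isClosedMap.isClosed_range
    have hgen : genericPoint S ∈ Set.range (genPt (S := S) M).fromNormalization := by
      refine ⟨(genPt (S := S) M).toNormalization (IsLocalRing.closedPoint M), ?_⟩
      rw [← Scheme.Hom.comp_apply, Scheme.Hom.toNormalization_fromNormalization]
      change S.fromSpecStalk (genericPoint S)
        ((Spec.map (CommRingCat.ofHom (algebraMap S.functionField M))) _) = _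
      have h1 : (Spec.map (CommRingCat.ofHom (algebraMap S.functionField M)))
          (IsLocalRing.closedPoint M) = IsLocalRing.closedPoint S.functionField :=
        Subsingleton.elim _ _
      rw [h1, Scheme.fromSpecStalk_closedPoint]
    refine ⟨fun x => ?_⟩
    have h2 : (Set.univ : Set S) ⊆ Set.range (genPt (S := S) M).fromNormalization := by
      rw [← (genericPoint_spec S), IsClosed.closure_subset_iff hcl, Set.singleton_subset_iff]
      exact hgen
    exact h2 trivial
  · intro U hU hg
    let _ := ((genPt (S := S) M).app U).hom.toAlgebra
    let N := ((genPt (S := S) M).normalizationObjIso hU).commRingCatIsoToRingEquiv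
    let G : Γ(Spec (CommRingCat.of M), genPt (S := S) M ⁻¹ᵁ U) ≃+* M :=
      (genIso M U hg).commRingCatIsoToRingEquiv
    refine ⟨G.toRingHom.comp ((algebraMap (integralClosure Γ(S, U)
      Γ(Spec (CommRingCat.of M), genPt (S := S) M ⁻¹ᵁ U)) _).comp N.toRingHom), ?_, ?_, ?_⟩
    · exact G.injective.comp (Subtype.val_injective.comp N.injective)
    · intro a
      have h1 : N ((genPt (S := S) M).fromNormalization.app U a) = algebraMap _ _ a := by
        rw [(genPt (S := S) M).fromNormalization_app hU]
        exact N.apply_symm_apply _
      change G (algebraMap _ _ (N ((genPt (S := S) M).fromNormalization.app U a))) = _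
      rw [h1]
      exact genPt_app M U hg a
    · rintro z ⟨p, hp, hpz⟩
      have h1 : IsIntegral Γ(S, U) (G.symm z) := by
        refine ⟨p, hp, ?_⟩
        apply G.injective
        rw [map_zero]
        change G.toRingHom _ = 0
        rw [Polynomial.hom_eval₂]
        rw [← hpz]
        congr 1
        · ext a
          exact genPt_app M U hg a
        · exact G.apply_symm_apply z
      refine ⟨N.symm ⟨G.symm z, h1⟩, ?_⟩
      change G (algebraMap _ _ (N (N.symm ⟨G.symm z, h1⟩))) = z
      rw [N.apply_symm_apply]
      exact G.apply_symm_apply z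

end Pool.Agent.LibK3G
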