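import Mathlib

/-!
Lifting a specialization to a finite extension of domains.
-/

set_option autoImplicit false

open Polynomial

namespace Pool.Agent.LibK3G

/-- The map `R[θ] → κ[θ]`. -/
theorem injective_adjoinRoot_map {R K : Type} [CommRing R] [Field K] [Algebra R K]
    (hinj : Function.Injective (algebraMap R K)) (G : R[X]) (hG : G.Monic) :
    ∃ ι : AdjoinRoot G →+* AdjoinRoot (G.map (algebraMap R K)), Function.Injective ι ∧
      (∀ q : R[X], ι (AdjoinRoot.mk G q) = AdjoinRoot.mk _ (q.map (algebraMap R K))) := by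
  let ι : AdjoinRoot G →+* AdjoinRoot (G.map (algebraMap R K)) :=
    Ideal.Quotient.lift _ ((AdjoinRoot.mk (G.map (algebraMap R K))).comp
      (mapRingHom (algebraMap R K))) (by
        intro a ha
        obtain ⟨b, rfl⟩ := Ideal.mem_span_singleton.1 ha
        change AdjoinRoot.mk _ ((G * b).map (algebraMap R K)) = 0
        rw [AdjoinRoot.mk_eq_zero, Polynomial.map_mul]
        exact dvd_mul_right _ _)
  have hι : ∀ q : R[X], ι (AdjoinRoot.mk G q) = AdjoinRoot.mk _ (q.map (algebraMap R K)) :=
    fun q => rfl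
  refine ⟨ι, ?_, hι⟩
  rw [injective_iff_map_eq_zero]
  intro z hz
  obtain ⟨q, rfl⟩ := AdjoinRoot.mk_surjective z
  rw [hι, AdjoinRoot.mk_eq_zero, Polynomial.map_dvd_map _ hinj hG] at hz
  rw [AdjoinRoot.mk_eq_zero]
  exact hz

/-- A finite extension `B` of `R` in the field `κ[θ]`: outside the zeros of `d` each root of the
specialization of the minimal polynomial of `θ` gives a lift of the specialization to `B`. -/
theorem exists_lift_of_root {R K B : Type} [CommRing R] [IsDomain R] [Field K] [Algebra R K]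
    [IsFractionRing R K] [CommRing B] (G : R[X]) (hG : G.Monic)
    (hirr : Irreducible (G.map (algebraMap R K))) (α : R →+* B) (hα : α.Finite)
    (e : B →+* AdjoinRoot (G.map (algebraMap R K)))
    (heα : ∀ a, e (α a) = AdjoinRoot.of _ (algebraMap R K a)) :
    ∃ d : R, d ≠ 0 ∧ ∀ (k : Type) [Field k] (χ : R →+* k), χ d ≠ 0 → ∀ x : k,
      (G.map χ).IsRoot x → ∃ τ : B →+* k, τ.comp α = χ := by
  classical
  have hfact : Fact (Irreducible (G.map (algebraMap R K))) := ⟨hirr⟩
  have hinj : Function.Injective (algebraMap R K) := IsFractionRing.injective R K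
  obtain ⟨ι, hι, hιmk⟩ := injective_adjoinRoot_map hinj G hG
  -- denominators
  have h1 : ∀ z : AdjoinRoot (G.map (algebraMap R K)), ∃ d : R, d ≠ 0 ∧
      ∃ w : AdjoinRoot G, ι w = AdjoinRoot.of _ (algebraMap R K d) * z := by
    intro z
    obtain ⟨p, rfl⟩ := AdjoinRoot.mk_surjective z
    obtain ⟨b, hb, hbp⟩ := IsLocalization.integerNormalization_spec (nonZeroDivisors R) p
    refine ⟨b, nonZeroDivisors.ne_zero hb, AdjoinRoot.mk G
      (IsLocalization.integerNormalization (nonZeroDivisors R) p), ?_⟩
    rw [hιmk, hbp]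
    have h2 : b • p = C (algebraMap R K b) * p := by
      ext n
      rw [coeff_smul, coeff_C_mul, Algebra.smul_def]
    rw [h2, map_mul, AdjoinRoot.mk_C]
  choose dd hdd w hw using h1
  let _ : Algebra R B := α.toAlgebra
  have hfin : Module.Finite R B := hα
  obtain ⟨T, hT⟩ := Module.finite_def.1 hfin
  set d : R := ∏ b ∈ T, dd (e b) with hd
  have hd0 : d ≠ 0 := Finset.prod_ne_zero_iff.2 fun b _ => hdd _
  have h2 : ∀ b : B, ∃ q : AdjoinRoot G, ι q = AdjoinRoot.of _ (algebraMap R K d) * e b := by
    intro b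
    have hb : b ∈ Submodule.span R (T : Set B) := by
      rw [hT]
      exact Submodule.mem_top
    induction hb using Submodule.span_induction with
    | mem x hx =>
      refine ⟨AdjoinRoot.of G (∏ b ∈ T.erase x, dd (e b)) * w (e x), ?_⟩
      have h3 : d = (∏ b ∈ T.erase x, dd (e b)) * dd (e x) := by
        rw [hd, Finset.prod_erase_mul _ _ hx]
      rw [map_mul, hw, h3, map_mul, map_mul, ← mul_assoc]
      congr 1
      congr 1
      have h4 := hιmk (C (∏ b ∈ T.erase x, dd (e b)))
      rw [AdjoinRoot.mk_C, Polynomial.map_C, AdjoinRoot.mk_C] at h4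
      exact h4
    | zero => exact ⟨0, by rw [map_zero, map_zero, mul_zero]⟩
    | add x y _ _ hx hy =>
      obtain ⟨q1, h3⟩ := hx
      obtain ⟨q2, h4⟩ := hy
      exact ⟨q1 + q2, by rw [map_add, map_add, h3, h4, mul_add]⟩
    | smul r x _ hx =>
      obtain ⟨q1, h3⟩ := hx
      refine ⟨AdjoinRoot.of G r * q1, ?_⟩
      have h4 := hιmk (C r)
      rw [AdjoinRoot.mk_C, Polynomial.map_C, AdjoinRoot.mk_C] at h4
      have h5 : e (r • x) = AdjoinRoot.of _ (algebraMap R K r) * e x := by
        rw [Algebra.smul_def, map_mul]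
        congr 1
        exact heα r
      rw [map_mul, h3, h4, h5]
      ring
  choose q hq using h2
  have hofd : ι (AdjoinRoot.of G d) = AdjoinRoot.of _ (algebraMap R K d) := by
    have h4 := hιmk (C d)
    rw [AdjoinRoot.mk_C, Polynomial.map_C, AdjoinRoot.mk_C] at h4
    exact h4
  refine ⟨d, hd0, fun k _ χ hχ x hx => ?_⟩
  let ev : AdjoinRoot G →+* k := AdjoinRoot.lift χ x (by rw [← eval_map]; exact hx)
  have hev : ∀ r, ev (AdjoinRoot.of G r) = χ r := fun r => AdjoinRoot.lift_of _
  have hadd : ∀ a b, q (a + b) = q a + q b := by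
    intro a b
    apply hι
    rw [hq, map_add, map_add, hq, hq, mul_add]
  have hmul : ∀ a b, AdjoinRoot.of G d * q (a * b) = q a * q b := by
    intro a b
    apply hι
    rw [map_mul, hq, map_mul, map_mul, hq, hq, hofd]
    ring
  have hof : ∀ r, q (α r) = AdjoinRoot.of G d * AdjoinRoot.of G r := by
    intro r
    apply hι
    have h4 := hιmk (C r)
    rw [AdjoinRoot.mk_C, Polynomial.map_C, AdjoinRoot.mk_C] at h4
    rw [hq, map_mul, hofd, heα, h4]
  have hone : ev (q 1) / χ d = 1 := by
    have h3 := hof 1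
    rw [map_one, map_one, mul_one] at h3
    rw [h3, hev, div_self hχ]
  have hzero : q 0 = 0 := by
    apply hι
    rw [hq, map_zero, map_zero, mul_zero]
  refine ⟨{
    toFun := fun b => ev (q b) / χ d
    map_one' := hone
    map_mul' := fun a b => by
      have h3 := congrArg ev (hmul a b)
      rw [map_mul, map_mul, hev] at h3
      rw [div_mul_div_comm, ← h3]
      field_simp
    map_zero' := by rw [hzero, map_zero, zero_div]
    map_add' := fun a b => by rw [hadd, map_add, add_div] }, ?_⟩
  ext r
  change ev (q (α r)) / χ d = χ r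
  rw [hof, map_mul, hev, hev]
  field_simp

/-- The cover is not an isomorphism. -/
theorem exists_root_of_surjective {R K M B : Type} [CommRing R] [IsDomain R] [Field K]
    [Algebra R K] [IsFractionRing R K] [Field M] [Algebra K M] [CommRing B] (g : K[X])
    (hg : g ≠ 0) (θ : M) (hθ : aeval θ g = 0) (α : R →+* B) (hα : Function.Surjective α)
    (e : B →+* M) (heα : ∀ a, e (α a) = algebraMap K M (algebraMap R K a))
    (hint : ∀ z : M, ((algebraMap K M).comp (algebraMap R K)).IsIntegralElem z →
      z ∈ Set.range e) : ∃ c : K, g.IsRoot c := by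
  have hinj : Function.Injective (algebraMap R K) := IsFractionRing.injective R K
  let _ : Algebra R M := ((algebraMap K M).comp (algebraMap R K)).toAlgebra
  have htow : IsScalarTower R K M := IsScalarTower.of_algebraMap_eq fun _ => rfl
  have halg : IsAlgebraic R θ := (IsFractionRing.isAlgebraic_iff R K M).2 ⟨g, hg, hθ⟩
  obtain ⟨y, hy, hz⟩ := halg.exists_integral_multiple
  obtain ⟨b, hb⟩ := hint _ hz
  obtain ⟨a, rfl⟩ := hα b
  rw [heα] at hb
  have hy0 : algebraMap R K y ≠ 0 := by
    rw [Ne, map_eq_zero_iff _ hinj]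
    exact hy
  have h2 : θ = algebraMap K M (algebraMap R K a / algebraMap R K y) := by
    rw [map_div₀, eq_div_iff ((_root_.map_ne_zero _).2 hy0), hb, Algebra.smul_def, mul_comm]
    rfl
  refine ⟨algebraMap R K a / algebraMap R K y, ?_⟩
  rw [h2, aeval_algebraMap_apply, map_eq_zero, coe_aeval_eq_eval] at hθ
  exact hθ

end Pool.Agent.LibK3G
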