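import Pool.Agent.LibK3G.HL1
import Pool.Agent.LibK3G.CV2
import Pool.Agent.LibK3G.CV3
import Pool.Agent.LibHP.SDefs
import Pool.Agent.LibHP.S1b

/-!
The function field of a normal variety with the Hilbert property.
-/

set_option autoImplicit false

open AlgebraicGeometry CategoryTheory CategoryTheory.Limits Polynomial
open Pool.Agent.LibHP

namespace Pool.Agent.LibK3G

/-- A section through a point of an affine open. -/
theorem exists_hom_of_section {k : Type} [Field k] {X : Scheme.{0}}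
    (f : X ⟶ Spec (CommRingCat.of k)) (U : X.Opens) (hU : IsAffineOpen U)
    (s : Spec (CommRingCat.of k) ⟶ X) (hs : s ≫ f = 𝟙 _)
    (hx : s (IsLocalRing.closedPoint k) ∈ U) :
    ∃ χ : Γ(X, U) →+* k, (∀ c, χ (toSec f U c) = c) ∧
      s = Spec.map (CommRingCat.ofHom χ) ≫ hU.fromSpec ∧
      ∀ d : Γ(X, U), s (IsLocalRing.closedPoint k) ∈ X.basicOpen d → χ d ≠ 0 := by
  have h1 : ⊤ ≤ s ⁻¹ᵁ U := by
    intro x _
    have h2 : x = IsLocalRing.closedPoint k := Subsingleton.elim _ _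
    rw [h2]
    exact hx
  let χ : Γ(X, U) →+* k := (s.appLE U ⊤ h1 ≫ (Scheme.ΓSpecIso (CommRingCat.of k)).hom).hom
  have hχ : CommRingCat.ofHom χ = s.appLE U ⊤ h1 ≫ (Scheme.ΓSpecIso (CommRingCat.of k)).hom := rfl
  have h3 : s = Spec.map (CommRingCat.ofHom χ) ≫ hU.fromSpec := by
    rw [hχ, Spec.map_comp, Category.assoc,
      IsAffineOpen.SpecMap_appLE_fromSpec s hU (isAffineOpen_top _) h1]
    rw [IsAffineOpen.fromSpec_top, Scheme.isoSpec_Spec_inv, ← Category.assoc, ← Spec.map_comp]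
    simp
  have hid : ∀ (g : Spec (CommRingCat.of k) ⟶ Spec (CommRingCat.of k)) (_ : g = 𝟙 _)
      (e : ⊤ ≤ g ⁻¹ᵁ ⊤), g.appLE ⊤ ⊤ e = 𝟙 _ := by
    rintro _ rfl e
    simp [Scheme.Hom.appLE]
  refine ⟨χ, ?_, h3, ?_⟩
  · intro c
    have h4 : f.appLE ⊤ U le_top ≫ s.appLE U ⊤ h1 = 𝟙 _ := by
      rw [Scheme.Hom.appLE_comp_appLE]
      exact hid _ hs _
    have h5 : ((Scheme.ΓSpecIso (CommRingCat.of k)).inv ≫ f.appLE ⊤ U le_top) ≫
        s.appLE U ⊤ h1 ≫ (Scheme.ΓSpecIso (CommRingCat.of k)).hom = 𝟙 _ := by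
      rw [Category.assoc, reassoc_of% h4, Iso.inv_hom_id]
    exact congrArg (fun q => q c) h5
  · intro d hd h0
    have h4 : (Spec.map (CommRingCat.ofHom χ)) (IsLocalRing.closedPoint k) ∈
        hU.fromSpec ⁻¹ᵁ X.basicOpen d := by
      have h5 : (Spec.map (CommRingCat.ofHom χ) ≫ hU.fromSpec :
          Spec (CommRingCat.of k) ⟶ X) (IsLocalRing.closedPoint k) ∈ X.basicOpen d := by
        rw [← h3]
        exact hd
      exact h5
    rw [hU.fromSpec_preimage_basicOpen] at h4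
    apply h4
    change χ d ∈ (IsLocalRing.closedPoint k).asIdeal
    rw [h0]
    exact zero_mem _

/-- The cover of an irreducible polynomial. -/
theorem cover_of_poly {S : Scheme.{0}} [IsIntegral S] [IsLocallyNoetherian S]
    [CharZero S.functionField]
    (hn : ∀ U : S.Opens, IsAffineOpen U → genericPoint S ∈ U → IsIntegrallyClosed Γ(S, U))
    (U : S.Opens) (hU : IsAffineOpen U) (hg : genericPoint S ∈ U) (hne : Nonempty U)
    (G : Γ(S, U)[X]) (hG : G.Monic)
    (hirr : Irreducible (G.map (algebraMap Γ(S, U) S.functionField)))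
    (hroot : ∀ c, ¬ (G.map (algebraMap Γ(S, U) S.functionField)).IsRoot c) :
    ∃ (Y : Scheme.{0}) (π : Y ⟶ S), IsIntegral Y ∧ IsFinite π ∧ Surjective π ∧ ¬ IsIso π ∧
      ∃ d : Γ(S, U), d ≠ 0 ∧ ∀ (k : Type) [Field k] (χ : Γ(S, U) →+* k), χ d ≠ 0 → ∀ x : k,
        (G.map χ).IsRoot x → ∃ τ : Γ(Y, π ⁻¹ᵁ U) →+* k, τ.comp (π.app U).hom = χ := by
  have hfact : Fact (Irreducible (G.map (algebraMap Γ(S, U) S.functionField))) := ⟨hirr⟩
  have hfr := functionField_isFractionRing_of_isAffineOpen S U hU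
  have hfd : FiniteDimensional S.functionField
      (AdjoinRoot (G.map (algebraMap Γ(S, U) S.functionField))) :=
    (hG.map _).finite_adjoinRoot
  obtain ⟨Y, π, hY, hfin, hsurj, he⟩ := exists_cover hn
    (AdjoinRoot (G.map (algebraMap Γ(S, U) S.functionField)))
  obtain ⟨e, hei, hea, her⟩ := he U hU hg
  refine ⟨Y, π, hY, hfin, hsurj, ?_, ?_⟩
  · intro hiso
    obtain ⟨c, hc⟩ := exists_root_of_surjective (R := Γ(S, U)) (K := S.functionField)
      (M := AdjoinRoot (G.map (algebraMap Γ(S, U) S.functionField)))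
      (G.map (algebraMap Γ(S, U) S.functionField)) hirr.ne_zero
      (AdjoinRoot.root _) (by rw [aeval_def]; exact AdjoinRoot.eval₂_root _)
      (π.app U).hom ((ConcreteCategory.isIso_iff_bijective _).1 inferInstance).2 e hea her
    exact hroot c hc
  · exact exists_lift_of_root G hG hirr (π.app U).hom (IsFinite.finite_app (π) U hU) e hea

end Pool.Agent.LibK3G
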