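import Pool.Agent.LibK3G.CV4

/-!
The function field of a normal variety with the Hilbert property.
-/

set_option autoImplicit false

open AlgebraicGeometry CategoryTheory CategoryTheory.Limits Polynomial
open Pool.Agent.LibHP

namespace Pool.Agent.LibK3G

/-- The irreducible factors of a monic polynomial over a normal domain. -/
theorem exists_factors {R K : Type} [CommRing R] [IsDomain R] [IsIntegrallyClosed R] [Field K]
    [Algebra R K] [IsFractionRing R K] (P : R[X]) (hP : P.Monic) :
    ∃ (n : ℕ) (G : Fin n → R[X]) (e : Fin n → ℕ), (∀ i, (G i).Monic) ∧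
      (∀ i, Irreducible ((G i).map (algebraMap R K))) ∧
      (∀ i, (G i).map (algebraMap R K) ∣ P.map (algebraMap R K)) ∧ P = ∏ i, G i ^ e i := by
  classical
  have hinj : Function.Injective (algebraMap R K) := IsFractionRing.injective R K
  set Q : K[X] := P.map (algebraMap R K) with hQ
  have hQm : Q.Monic := hP.map _
  have hQ0 : Q ≠ 0 := hQm.ne_zero
  set T : Finset K[X] := (UniqueFactorizationMonoid.normalizedFactors Q).toFinset with hT
  have hTi : ∀ g ∈ T, Irreducible g := fun g hg =>
    UniqueFactorizationMonoid.irreducible_of_normalized_factor g (Multiset.mem_toFinset.1 hg)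
  have hTm : ∀ g ∈ T, g.Monic := by
    intro g hg
    have h1 := UniqueFactorizationMonoid.normalize_normalized_factor g
      (Multiset.mem_toFinset.1 hg)
    rw [← h1]
    exact monic_normalize (hTi g hg).ne_zero
  have hTd : ∀ g ∈ T, g ∣ Q := fun g hg =>
    UniqueFactorizationMonoid.dvd_of_mem_normalizedFactors (Multiset.mem_toFinset.1 hg)
  have hlift : ∀ g ∈ T, ∃ g' : R[X], g'.map (algebraMap R K) = g ∧ g'.Monic := by
    intro g hg
    obtain ⟨g', hg'⟩ := IsIntegrallyClosed.eq_map_mul_C_of_dvd K hP (hTd g hg)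
    rw [(hTm g hg).leadingCoeff, C_1, mul_one] at hg'
    refine ⟨g', hg', ?_⟩
    have h1 := hTm g hg
    rw [← hg'] at h1
    exact monic_of_injective hinj h1
  choose! L hL1 hL2 using hlift
  refine ⟨T.card, fun i => L (T.equivFin.symm i), fun i =>
    (UniqueFactorizationMonoid.normalizedFactors Q).count (T.equivFin.symm i : K[X]),
    fun i => hL2 _ (T.equivFin.symm i).2, fun i => ?_, fun i => ?_, ?_⟩
  · rw [hL1 _ (T.equivFin.symm i).2]
    exact hTi _ (T.equivFin.symm i).2
  · rw [hL1 _ (T.equivFin.symm i).2]
    exact hTd _ (T.equivFin.symm i).2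
  · apply Polynomial.map_injective _ hinj
    rw [Polynomial.map_prod]
    have h1 : ∀ i : Fin T.card, ((L (T.equivFin.symm i) ^
        (UniqueFactorizationMonoid.normalizedFactors Q).count (T.equivFin.symm i : K[X])).map
          (algebraMap R K)) = (T.equivFin.symm i : K[X]) ^
        (UniqueFactorizationMonoid.normalizedFactors Q).count (T.equivFin.symm i : K[X]) := by
      intro i
      rw [Polynomial.map_pow, hL1 _ (T.equivFin.symm i).2]
    rw [Finset.prod_congr rfl fun i _ => h1 i]
    have h2 := Equiv.prod_comp T.equivFin.symm (fun g : T => (g : K[X]) ^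
      (UniqueFactorizationMonoid.normalizedFactors Q).count (g : K[X]))
    rw [h2, Finset.prod_coe_sort T (fun g => g ^
      (UniqueFactorizationMonoid.normalizedFactors Q).count g), hT,
      ← Finset.prod_multiset_count, UniqueFactorizationMonoid.prod_normalizedFactors_eq,
      hQm.normalize_eq_self]
    exact hQ0

/-- A homomorphism to the function field is a homomorphism to the functions on an affine open. -/
theorem exists_factor_open {k : Type} [Field k] {S : Scheme.{0}} [IsIntegral S]
    (s : S ⟶ Spec (CommRingCat.of k)) [Algebra k S.functionField]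
    (hk : ∀ a : k, algebraMap k S.functionField a = toStalk s (genericPoint S) a)
    (A : Type) [CommRing A] [Algebra k A] [Algebra.FiniteType k A]
    (F : A →ₐ[k] S.functionField) :
    ∃ (U : S.Opens) (_ : IsAffineOpen U) (hg : genericPoint S ∈ U) (G : A →+* Γ(S, U)),
      (∀ a, S.presheaf.germ U (genericPoint S) hg (G a) = F a) ∧
      ∀ c : k, G (algebraMap k A c) = toSec s U c := by
  classical
  obtain ⟨V, hV, hgV, -⟩ := S.isBasis_affineOpens.exists_subset_of_mem_open
    (Set.mem_univ (genericPoint S)) isOpen_univ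
  obtain ⟨V, hV, rfl⟩ := hV
  have hneV : Nonempty V := ⟨⟨_, hgV⟩⟩
  have hfr := functionField_isFractionRing_of_isAffineOpen S V hV
  obtain ⟨T, hT⟩ := Algebra.FiniteType.out (R := k) (A := A)
  obtain ⟨⟨b, hb⟩, hbT⟩ := IsLocalization.exist_integer_multiples_of_finset
    (nonZeroDivisors Γ(S, V)) (T.image F)
  have hb0 : b ≠ 0 := nonZeroDivisors.ne_zero hb
  have hU : IsAffineOpen (S.basicOpen b) := hV.basicOpen b
  have hg : genericPoint S ∈ S.basicOpen b := by
    rw [S.mem_basicOpen b (genericPoint S) hgV]
    refine IsUnit.mk0 _ fun h3 => hb0 ?_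
    apply germ_injective_of_isIntegral S _ hgV
    rw [h3, map_zero]
  have hbu : IsUnit (S.presheaf.map (homOfLE (S.basicOpen_le b)).op b) :=
    RingedSpace.isUnit_res_basicOpen _ b
  have hgr : ∀ a : Γ(S, V), S.presheaf.germ (S.basicOpen b) (genericPoint S) hg
      (S.presheaf.map (homOfLE (S.basicOpen_le b)).op a) =
      S.presheaf.germ V (genericPoint S) hgV a := by
    intro a
    exact TopCat.Presheaf.germ_res_apply _ _ _ _ _
  have hker : Function.Injective (S.presheaf.germ (S.basicOpen b) (genericPoint S) hg) :=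
    germ_injective_of_isIntegral S _ hg
  have hsec : ∀ c : k, S.presheaf.germ (S.basicOpen b) (genericPoint S) hg
      (toSec s (S.basicOpen b) c) = algebraMap k S.functionField c := by
    intro c
    rw [hk]
    have h3 : s.appLE ⊤ (S.basicOpen b) le_top ≫
        S.presheaf.germ (S.basicOpen b) (genericPoint S) hg =
        s.appTop ≫ S.presheaf.germ ⊤ (genericPoint S) trivial := by
      rw [Scheme.Hom.appLE, Category.assoc, TopCat.Presheaf.germ_res]
      rfl
    exact congrArg (fun q => q ((Scheme.ΓSpecIso (CommRingCat.of k)).inv c)) h3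
  have hmem : ∀ a : A, ∃ z : Γ(S, S.basicOpen b),
      S.presheaf.germ (S.basicOpen b) (genericPoint S) hg z = F a := by
    intro a
    have ha : a ∈ Algebra.adjoin k (T : Set A) := by rw [hT]; trivial
    induction ha using Algebra.adjoin_induction with
    | mem x hx =>
      obtain ⟨r, hr⟩ := hbT (F x) (Finset.mem_image_of_mem _ hx)
      obtain ⟨u, hu⟩ := hbu
      refine ⟨((u⁻¹ : (Γ(S, S.basicOpen b))ˣ) : Γ(S, S.basicOpen b)) *
        S.presheaf.map (homOfLE (S.basicOpen_le b)).op r, ?_⟩
      have h4 : S.presheaf.germ (S.basicOpen b) (genericPoint S) hg (u : Γ(S, S.basicOpen b)) ≠ 0 :=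
        (u.isUnit.map (S.presheaf.germ (S.basicOpen b) (genericPoint S) hg).hom).ne_zero
      apply mul_left_cancel₀ h4
      rw [← map_mul, ← mul_assoc, Units.mul_inv, one_mul, hgr, hu, hgr]
      rw [Algebra.smul_def] at hr
      exact hr
    | algebraMap c => exact ⟨toSec s (S.basicOpen b) c, by rw [hsec, F.commutes]⟩
    | add x y _ _ hx hy =>
      obtain ⟨z1, h1⟩ := hx
      obtain ⟨z2, h2⟩ := hy
      exact ⟨z1 + z2, by rw [map_add, map_add, h1, h2]⟩
    | mul x y _ _ hx hy =>
      obtain ⟨z1, h1⟩ := hx
      obtain ⟨z2, h2⟩ := hy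
      exact ⟨z1 * z2, by rw [map_mul, map_mul, h1, h2]⟩
  choose G hG using hmem
  refine ⟨S.basicOpen b, hU, hg, {
    toFun := G
    map_one' := hker (by rw [hG, map_one, map_one])
    map_mul' := fun x y => hker (by rw [hG, map_mul, map_mul, hG, hG])
    map_zero' := hker (by rw [hG, map_zero, map_zero])
    map_add' := fun x y => hker (by rw [hG, map_add, map_add, hG, hG]) }, hG, fun c => ?_⟩
  apply hker
  change S.presheaf.germ (S.basicOpen b) (genericPoint S) hg (G (algebraMap k A c)) = _
  rw [hG, F.commutes, hsec]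

end Pool.Agent.LibK3G
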