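import Pool.Agent.LibK3G.CV5

/-!
The function field of a normal variety with the Hilbert property.
-/

set_option autoImplicit false

open AlgebraicGeometry CategoryTheory CategoryTheory.Limits Polynomial
open Pool.Agent.LibHP

namespace Pool.Agent.LibK3G

/-- The sections of a normal scheme. -/
theorem isIntegrallyClosed_sections {S : Scheme.{0}} [IsIntegral S]
    (hn : ∀ x : S, IsIntegrallyClosed (S.presheaf.stalk x)) (U : S.Opens) (hU : IsAffineOpen U)
    (hg : genericPoint S ∈ U) : IsIntegrallyClosed Γ(S, U) := by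
  have hne : Nonempty U := ⟨⟨_, hg⟩⟩
  refine IsIntegrallyClosed.of_localization_maximal fun P hP0 hP => ?_
  let y : PrimeSpectrum Γ(S, U) := ⟨P, hP.isPrime⟩
  have hy : hU.fromSpec y ∈ U := (hU.isoSpec.inv y).2
  let _ := TopCat.Presheaf.algebra_section_stalk S.presheaf (⟨hU.fromSpec y, hy⟩ : U)
  have hloc : IsLocalization.AtPrime (S.presheaf.stalk (hU.fromSpec y)) P :=
    hU.isLocalization_stalk' y hy
  exact (hn (hU.fromSpec y)).of_equiv (IsLocalization.algEquiv P.primeCompl
    (S.presheaf.stalk (hU.fromSpec y)) (Localization.AtPrime P)).toRingEquiv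

theorem hil_of_hilbertProp {k : Type} [Field k] [CharZero k] {S : Scheme.{0}} [IsIntegral S]
    (s : S ⟶ Spec (CommRingCat.of k)) [LocallyOfFiniteType s] [Algebra k S.functionField]
    (hk : ∀ a : k, algebraMap k S.functionField a = toStalk s (genericPoint S) a)
    (hn : ∀ x : S, IsIntegrallyClosed (S.presheaf.stalk x)) (h : HilbertProp s) :
    Hil k S.functionField := by
  classical
  intro A _ _ _ F m P hP hroot
  have hnoeth : IsLocallyNoetherian S := LocallyOfFiniteType.isLocallyNoetherian s
  have hcz : CharZero S.functionField :=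
    charZero_of_injective_algebraMap (algebraMap k S.functionField).injective
  obtain ⟨U, hU, hg, G, hG, hGk⟩ := exists_factor_open s hk A F
  have hne : Nonempty U := ⟨⟨_, hg⟩⟩
  have hfr := functionField_isFractionRing_of_isAffineOpen S U hU
  have hcl := isIntegrallyClosed_sections hn U hU hg
  have hG' : (algebraMap Γ(S, U) S.functionField).comp G = (F : A →+* S.functionField) :=
    RingHom.ext hG
  -- the product of the polynomials
  set Q : Γ(S, U)[X] := ∏ i, (P i).map G with hQ
  have hQm : Q.Monic := monic_prod_of_monic _ _ fun i _ => (hP i).map _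
  obtain ⟨n, g, e, hgm, hgi, hgd, hprod⟩ := exists_factors (K := S.functionField) Q hQm
  have hgr : ∀ i c, ¬ ((g i).map (algebraMap Γ(S, U) S.functionField)).IsRoot c := by
    intro i c hc
    have h1 : (Q.map (algebraMap Γ(S, U) S.functionField)).IsRoot c := hc.dvd (hgd i)
    rw [hQ, Polynomial.map_prod, IsRoot.def, eval_prod, Finset.prod_eq_zero_iff] at h1
    obtain ⟨j, -, hj⟩ := h1
    rw [Polynomial.map_map, hG'] at hj
    exact hroot j c hj
  choose Y π hY hfin hsurj hiso d hd hlift using fun i => cover_of_poly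
    (fun V hV hgV => isIntegrallyClosed_sections hn V hV hgV) U hU hg hne (g i) (hgm i) (hgi i)
    (hgr i)
  have hdense := h n Y π hY hfin hsurj hiso
  have hD0 : (∏ i, d i) ≠ 0 := Finset.prod_ne_zero_iff.2 fun i _ => hd i
  have hgD : genericPoint S ∈ S.basicOpen (∏ i, d i) := by
    rw [S.mem_basicOpen _ (genericPoint S) hg]
    refine IsUnit.mk0 _ fun h3 => hD0 ?_
    apply germ_injective_of_isIntegral S _ hg
    rw [h3, map_zero]
  obtain ⟨x, hxD, σ, hσ, ⟨y, hy⟩, hno⟩ := hdense.inter_open_nonempty _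
    (S.basicOpen (∏ i, d i)).isOpen ⟨_, hgD⟩
  have hy0 : y = IsLocalRing.closedPoint k := Subsingleton.elim _ _
  have hσx : σ (IsLocalRing.closedPoint k) = x := by
    rw [← hy0]
    exact hy
  obtain ⟨χ, hχ, hσχ, hχd⟩ := exists_hom_of_section s U hU σ hσ (by
    rw [hσx]
    exact S.basicOpen_le _ hxD)
  have hχ0 : ∀ i, χ (d i) ≠ 0 := by
    intro i h0
    apply hχd (∏ i, d i) (by rw [hσx]; exact hxD)
    rw [map_prod]
    exact Finset.prod_eq_zero (Finset.mem_univ i) h0
  refine ⟨{ χ.comp G with commutes' := fun c => ?_ }, fun i x hx => ?_⟩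
  · change χ (G (algebraMap k A c)) = c
    rw [hGk, hχ]
  · have h1 : ((P i).map (χ.comp G)).IsRoot x := hx
    have h2 : (Q.map χ).IsRoot x := by
      rw [hQ, Polynomial.map_prod, IsRoot.def, eval_prod]
      refine Finset.prod_eq_zero (Finset.mem_univ i) ?_
      rw [Polynomial.map_map]
      exact h1
    rw [hprod, Polynomial.map_prod, IsRoot.def, eval_prod, Finset.prod_eq_zero_iff] at h2
    obtain ⟨j, -, hj⟩ := h2
    rw [Polynomial.map_pow, eval_pow] at hj
    have hj' : ((g j).map χ).IsRoot x := (pow_eq_zero_iff (by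
      intro h0
      rw [h0, pow_zero] at hj
      exact one_ne_zero hj)).1 hj
    obtain ⟨τ, hτ⟩ := hlift j k χ (hχ0 j) x hj'
    have := hfin j
    apply hno j (Spec.map (CommRingCat.ofHom τ) ≫ (hU.preimage (π j)).fromSpec)
    have h3 := IsAffineOpen.SpecMap_appLE_fromSpec (π j) hU (hU.preimage (π j)) le_rfl
    rw [Category.assoc, ← h3, ← Category.assoc, ← Spec.map_comp, hσχ, ← hτ]
    rw [Scheme.Hom.appLE_eq_app]
    rfl

end Pool.Agent.LibK3G
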