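import Pool.Agent.LibHP.H8

/-!
Hilbert irreducibility over finitely generated fields: fraction fields.
-/

set_option autoImplicit false
open Polynomial
open Pool.Agent.LibHP

namespace Pool.Agent.LibK3G

attribute [local instance] Polynomial.algebra Polynomial.isLocalization in
theorem exists_denom {R K : Type} [CommRing R] [IsDomain R] [Field K] [Algebra R K]
    [IsFractionRing R K] (P : K[X][X]) (hP : P.Monic) :
    ∃ b : R, b ≠ 0 ∧ ∃ Q : R[X][X], Q.Monic ∧
      Q.map (mapRingHom (algebraMap R K)) = P.scaleRoots (C (algebraMap R K b)) := by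
  have hloc : IsLocalization (Submonoid.map (C : R →+* R[X]) (nonZeroDivisors R)) K[X] :=
    inferInstance
  have h := IsLocalization.scaleRoots_commonDenom_mem_lifts
    (Submonoid.map (C : R →+* R[X]) (nonZeroDivisors R)) P
    (by rw [hP.leadingCoeff]; exact one_mem _)
  obtain ⟨Q, hQ, -, hQm⟩ := Polynomial.lifts_and_natDegree_eq_and_monic h
    ((monic_scaleRoots_iff _).2 hP)
  obtain ⟨b, hb, hbc⟩ := (IsLocalization.commonDenom
    (Submonoid.map (C : R →+* R[X]) (nonZeroDivisors R)) P.support P.coeff).2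
  refine ⟨b, nonZeroDivisors.ne_zero hb, Q, hQm, ?_⟩
  have h1 : (algebraMap R[X] K[X]) = mapRingHom (algebraMap R K) := rfl
  rw [← h1, hQ]
  congr 1
  rw [← hbc, h1]
  simp

/-- The fraction field of a normal domain. -/
theorem hasSpec_fraction {R K : Type} [CommRing R] [IsDomain R] [IsIntegrallyClosed R] [Field K]
    [Algebra R K] [IsFractionRing R K] (h : HasSpec R) : HasSpec K := by
  intro P hP
  obtain ⟨b, hb, Q, hQ, hQP⟩ := exists_denom (R := R) P hP
  obtain ⟨Z, hZ, h1⟩ := h Q hQ
  have hinj : Function.Injective (algebraMap R K) := IsFractionRing.injective R K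
  have hb' : algebraMap R K b ≠ 0 := by
    rw [Ne, map_eq_zero_iff _ hinj]
    exact hb
  refine ⟨Z, hZ, fun τ hτ x hx => ?_⟩
  have hcomm : (evalRingHom ((τ : ℕ) : K)).comp (mapRingHom (algebraMap R K)) =
      (algebraMap R K).comp (evalRingHom ((τ : ℕ) : R)) := by
    apply Polynomial.ringHom_ext
    · intro a; simp
    · simp
  have h2 : ((Q.map (evalRingHom ((τ : ℕ) : R))).map (algebraMap R K)).eval
      (algebraMap R K b * x) = 0 := by
    rw [Polynomial.map_map, ← hcomm, ← Polynomial.map_map, hQP, eval_map]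
    have h3 := scaleRoots_eval₂_mul (p := P) (evalRingHom ((τ : ℕ) : K)) x
      (C (algebraMap R K b))
    have h4 : evalRingHom ((τ : ℕ) : K) (C (algebraMap R K b)) = algebraMap R K b := by simp
    rw [h4] at h3
    rw [h3]
    have h5 : P.eval₂ (evalRingHom ((τ : ℕ) : K)) x = 0 := by
      have := hx
      rw [IsRoot.def, eval_map] at this
      exact this
    rw [h5, mul_zero]
  have h3 : IsIntegral R (algebraMap R K b * x) :=
    ⟨_, hQ.map _, by rw [← eval_map]; exact h2⟩
  obtain ⟨y, hy⟩ := (IsIntegrallyClosed.isIntegral_iff (R := R) (K := K)).1 h3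
  have h4 : (Q.map (evalRingHom ((τ : ℕ) : R))).IsRoot y := by
    apply hinj
    rw [← hy] at h2
    have h5 := Polynomial.eval_map_apply (f := algebraMap R K)
      (p := Q.map (evalRingHom ((τ : ℕ) : R))) y
    rw [map_zero, ← h5]
    exact h2
  obtain ⟨r, hr, hry⟩ := h1 τ hτ y h4
  refine ⟨C (algebraMap R K b)⁻¹ * r.map (algebraMap R K), ?_, ?_⟩
  · have h5 := scaleRoots_eval₂_mul (p := P) (RingHom.id K[X])
      (C (algebraMap R K b)⁻¹ * r.map (algebraMap R K)) (C (algebraMap R K b))
    have h6 : RingHom.id K[X] (C (algebraMap R K b)) *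
        (C (algebraMap R K b)⁻¹ * r.map (algebraMap R K)) = r.map (algebraMap R K) := by
      rw [RingHom.id_apply, ← mul_assoc, ← C_mul, mul_inv_cancel₀ hb', C_1, one_mul]
    rw [h6, ← hQP, eval₂_id] at h5
    have h7 := Polynomial.eval_map_apply (f := mapRingHom (algebraMap R K)) (p := Q) r
    have h8 : Q.eval r = 0 := hr
    rw [coe_mapRingHom, h8, Polynomial.map_zero] at h7
    rw [h7, eq_comm, mul_eq_zero, eval₂_id] at h5
    refine h5.resolve_left (pow_ne_zero _ ?_)
    rw [RingHom.id_apply]
    exact C_ne_zero.2 hb'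
  · rw [eval_mul, eval_C, Polynomial.eval_natCast_map]
    have h5 : (algebraMap R K) (r.eval ((τ : ℕ) : R)) = algebraMap R K b * x := by
      rw [hry, hy]
    rw [h5, inv_mul_cancel_left₀ hb']

end Pool.Agent.LibK3G
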