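import Pool.Agent.LibHP.H8

/-!
Hilbert irreducibility over finitely generated fields: finite extensions.
-/

set_option autoImplicit false
open Polynomial
open Pool.Agent.LibHP

namespace Pool.Agent.LibK3G

/-- For a monic polynomial `P` over `L[t]` and a `κ`-linear form `Tr (θ x)` there is a monic
polynomial over `κ[t]` such that `Tr (θ x)` is a root of its specialization if `x` is a root of the
specialization of `P`. -/
theorem exists_coord {κ L : Type} [Field κ] [Field L] [CharZero κ] [Algebra κ L]
    [FiniteDimensional κ L] (P : L[X][X]) (hP : P.Monic) (θ : L) :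
    ∃ Q : κ[X][X], Q.Monic ∧ ∀ (τ : ℕ) (x : L), (P.map (evalRingHom (τ : L))).IsRoot x →
      (Q.map (evalRingHom (τ : κ))).IsRoot (Algebra.trace κ L (x * θ)) := by
  classical
  let E := AlgebraicClosure κ
  let Λ := {p : ℕ × L // (P.map (evalRingHom (p.1 : L))).IsRoot p.2}
  let ρ : E[X] →+* (Λ → E) := RingHom.pi fun p : Λ => evalRingHom (p.1.1 : E)
  let _ : Algebra E[X] (Λ → E) := ρ.toAlgebra
  let _ : Algebra κ[X] E[X] := (mapRingHom (algebraMap κ E)).toAlgebra
  let _ : Algebra κ[X] (Λ → E) := (ρ.comp (mapRingHom (algebraMap κ E))).toAlgebra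
  have htow : IsScalarTower κ[X] E[X] (Λ → E) := IsScalarTower.of_algebraMap_eq fun _ => rfl
  -- `E[t]` is integral over `κ[t]`
  have hint : Algebra.IsIntegral κ[X] E[X] := by
    refine ⟨fun f => ?_⟩
    induction f using Polynomial.induction_on' with
    | add f g hf hg => exact hf.add hg
    | monomial n a =>
      rw [← C_mul_X_pow_eq_monomial]
      refine IsIntegral.mul ?_ (IsIntegral.pow ?_ n)
      · have h1 : IsIntegral κ a := Algebra.IsIntegral.isIntegral a
        obtain ⟨p, hp, hpa⟩ := h1
        refine ⟨p.map (C : κ →+* κ[X]), hp.map _, ?_⟩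
        rw [eval₂_map]
        have h2 : (algebraMap κ[X] E[X]).comp (C : κ →+* κ[X]) =
            (C : E →+* E[X]).comp (algebraMap κ E) := by
          refine RingHom.ext fun c => ?_
          change Polynomial.map (algebraMap κ E) (C c) = _
          rw [Polynomial.map_C]
          rfl
        rw [h2, ← Polynomial.hom_eval₂, hpa, map_zero]
      · have h3 : (X : E[X]) = algebraMap κ[X] E[X] X := by
          change _ = Polynomial.map (algebraMap κ E) X
          rw [Polynomial.map_X]
        rw [h3]
        exact isIntegral_algebraMap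
  have hconst : ∀ c : E, IsIntegral κ[X] (fun _ : Λ => c) := by
    intro c
    have h1 : (fun _ : Λ => c) = algebraMap E[X] (Λ → E) (C c) := by
      funext p
      change c = evalRingHom (p.1.1 : E) (C c)
      simp
    rw [h1]
    exact isIntegral_trans (A := E[X]) _ isIntegral_algebraMap
  -- the functions `σ x`
  have hσ : ∀ σ : L →ₐ[κ] E, IsIntegral κ[X] (fun p : Λ => σ p.1.2) := by
    intro σ
    refine isIntegral_trans (R := κ[X]) (A := E[X]) _ ?_
    refine ⟨P.map (mapRingHom (σ : L →+* E)), hP.map _, ?_⟩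
    funext p
    have h1 : (Pi.evalRingHom (fun _ : Λ => E) p)
        (eval₂ (algebraMap E[X] (Λ → E)) (fun p : Λ => σ p.1.2)
          (P.map (mapRingHom (σ : L →+* E)))) = 0 := by
      rw [Polynomial.hom_eval₂, eval₂_map]
      have h2 : ((Pi.evalRingHom (fun _ : Λ => E) p).comp (algebraMap E[X] (Λ → E))).comp
          (mapRingHom (σ : L →+* E)) = (σ : L →+* E).comp (evalRingHom (p.1.1 : L)) := by
        apply Polynomial.ringHom_ext
        · intro a
          change evalRingHom (p.1.1 : E) (Polynomial.map (σ : L →+* E) (C a)) = _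
          simp
        · change evalRingHom (p.1.1 : E) (Polynomial.map (σ : L →+* E) X) = _
          simp
      rw [h2]
      change eval₂ _ ((σ : L →+* E) p.1.2) P = 0
      have h3 : P.eval₂ (evalRingHom (p.1.1 : L)) p.1.2 = 0 := by
        rw [← eval_map]
        exact p.2
      rw [← Polynomial.hom_eval₂, h3, map_zero]
    exact h1
  have hT : IsIntegral κ[X] (fun p : Λ => ∑ σ : L →ₐ[κ] E, σ (p.1.2 * θ)) := by
    have h1 : (fun p : Λ => ∑ σ : L →ₐ[κ] E, σ (p.1.2 * θ)) =
        ∑ σ : L →ₐ[κ] E, (fun p : Λ => σ p.1.2) * (fun _ : Λ => σ θ) := by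
      funext p
      rw [Finset.sum_apply]
      refine Finset.sum_congr rfl fun σ _ => ?_
      rw [map_mul]
      rfl
    rw [h1]
    exact IsIntegral.sum _ fun σ _ => (hσ σ).mul (hconst _)
  obtain ⟨Q, hQ, hQT⟩ := hT
  refine ⟨Q, hQ, fun τ x hx => ?_⟩
  have h1 := congrArg (Pi.evalRingHom (fun _ : Λ => E) ⟨(τ, x), hx⟩) hQT
  rw [Polynomial.hom_eval₂, map_zero] at h1
  have h2 : (Pi.evalRingHom (fun _ : Λ => E) ⟨(τ, x), hx⟩).comp (algebraMap κ[X] (Λ → E)) =
      (algebraMap κ E).comp (evalRingHom (τ : κ)) := by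
    apply Polynomial.ringHom_ext
    · intro a
      change evalRingHom (τ : E) (Polynomial.map (algebraMap κ E) (C a)) = _
      simp
    · change evalRingHom (τ : E) (Polynomial.map (algebraMap κ E) X) = _
      simp
  rw [h2] at h1
  have h3 : (Pi.evalRingHom (fun _ : Λ => E) ⟨(τ, x), hx⟩)
      (fun p : Λ => ∑ σ : L →ₐ[κ] E, σ (p.1.2 * θ)) =
      algebraMap κ E (Algebra.trace κ L (x * θ)) := by
    rw [trace_eq_sum_embeddings (E := E)]
    rfl
  rw [h3, ← Polynomial.hom_eval₂, map_eq_zero] at h1
  rw [IsRoot.def, eval_map]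
  exact h1

/-- Finite extensions. -/
theorem hasSpec_finite {κ L : Type} [Field κ] [Field L] [CharZero κ] [Algebra κ L]
    [FiniteDimensional κ L] (h : HasSpec κ) : HasSpec L := by
  classical
  intro P hP
  have hcharL : CharZero L := charZero_of_injective_algebraMap (algebraMap κ L).injective
  let b := Module.finBasis κ L
  let B := (Algebra.traceForm κ L)
  have hB : B.Nondegenerate := traceForm_nondegenerate κ L
  let b' := B.dualBasis hB b
  have hrepr : ∀ x : L, x = ∑ i, Algebra.trace κ L (x * b i) • b' i := by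
    intro x
    conv_lhs => rw [← b'.sum_repr x]
    refine Finset.sum_congr rfl fun i _ => ?_
    rw [LinearMap.BilinForm.dualBasis_repr_apply]
    rfl
  choose Q hQ hQr using fun i => exists_coord (κ := κ) P hP (b i)
  choose Z hZ h1 using fun i => h (Q i) (hQ i)
  set S : Finset (Fin (Module.finrank κ L) → κ[X]) :=
    Fintype.piFinset (fun i => (Q i).roots.toFinset) with hS
  set ρ : (Fin (Module.finrank κ L) → κ[X]) → L[X] := fun f =>
    ∑ i, (f i).map (algebraMap κ L) * C (b' i) with hρ
  set Zf : (Fin (Module.finrank κ L) → κ[X]) → Set ℕ := fun f =>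
    {τ : ℕ | ¬ P.IsRoot (ρ f) ∧ (P.eval (ρ f)).eval (τ : L) = 0} with hZf
  refine ⟨(⋃ i ∈ (Finset.univ : Finset (Fin (Module.finrank κ L))), Z i) ∪ ⋃ f ∈ S, Zf f,
    ?_, ?_⟩
  · apply DZ.union
    · exact DZ.biUnion _ _ (fun c _ => hZ c)
    · apply DZ.biUnion
      intro f _
      apply DZ.of_finite
      by_cases hf : P.IsRoot (ρ f)
      · have : Zf f = ∅ := by
          ext τ
          constructor
          · intro hτ
            exact absurd hf hτ.1
          · intro hτ
            exact absurd hτ (Set.notMem_empty τ)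
        rw [this]
        exact Set.finite_empty
      · exact (finite_nat_roots _ hf).subset (fun τ hτ => hτ.2)
  · intro τ hτ x hx
    simp only [Set.mem_union, Set.mem_iUnion, not_or, not_exists, exists_prop, not_and] at hτ
    obtain ⟨hτ1, hτ2⟩ := hτ
    choose f hf1 hf2 using fun i => h1 i τ (hτ1 i (Finset.mem_univ i)) _ (hQr i τ x hx)
    have hfS : f ∈ S := by
      rw [hS, Fintype.mem_piFinset]
      intro c
      rw [Multiset.mem_toFinset, mem_roots (hQ c).ne_zero]
      exact hf1 c
    have hρτ : (ρ f).eval (τ : L) = x := by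
      rw [hρ]
      simp only [eval_finsetSum, eval_mul, eval_C, eval_natCast_map]
      conv_rhs => rw [hrepr x]
      refine Finset.sum_congr rfl (fun c _ => ?_)
      rw [hf2 c, Algebra.smul_def]
    have h3 : (P.eval (ρ f)).eval (τ : L) = 0 := by
      have h4 := Polynomial.eval_map_apply (f := evalRingHom ((τ : ℕ) : L)) (p := P) (ρ f)
      rw [coe_evalRingHom] at h4
      rw [← h4, hρτ]
      exact hx
    refine ⟨ρ f, ?_, hρτ⟩
    by_contra hcon
    exact hτ2 f hfS ⟨hcon, h3⟩

end Pool.Agent.LibK3G
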