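import Pool.Agent.LibK3G.FG1
import Pool.Agent.LibK3G.FG2
import Pool.Agent.LibHP.H7

/-!
Hilbert irreducibility over finitely generated fields of characteristic zero.
-/

set_option autoImplicit false
open Polynomial
open Pool.Agent.LibHP

namespace Pool.Agent.LibK3G

theorem hasSpec_fg (k K : Type) [Field k] [CharZero k] [Field K] [Algebra k K]
    [hess : Algebra.EssFiniteType k K] (hk : HasSpec k) : HasSpec K := by
  classical
  obtain ⟨A, M, hA, hM⟩ := (Algebra.essFiniteType_iff_exists_subalgebra (R := k) (S := K)).1 hess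
  obtain ⟨s, g, hg, hgf⟩ := exists_finite_inj_algHom_of_fg k A
  let φ : MvPolynomial (Fin s) k →ₐ[k] K := (A.val).comp g
  have hφ : Function.Injective φ := Subtype.val_injective.comp hg
  let ι : FractionRing (MvPolynomial (Fin s) k) →ₐ[k] K :=
    IsFractionRing.liftAlgHom (A := MvPolynomial (Fin s) k) (g := φ) hφ
  let _ : Algebra (FractionRing (MvPolynomial (Fin s) k)) K := (ι : _ →+* K).toAlgebra
  have htow : IsScalarTower k (FractionRing (MvPolynomial (Fin s) k)) K :=
    IsScalarTower.of_algebraMap_eq fun x => (ι.commutes x).symm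
  have hess2 : Algebra.EssFiniteType (FractionRing (MvPolynomial (Fin s) k)) K :=
    Algebra.EssFiniteType.of_comp k _ K
  -- integral elements are algebraic
  have hAalg : ∀ a : A, IsIntegral (FractionRing (MvPolynomial (Fin s) k)) (a : K) := by
    intro a
    obtain ⟨p, hp, hpa⟩ := hgf.to_isIntegral a
    refine ⟨p.map (algebraMap _ _), hp.map _, ?_⟩
    rw [eval₂_map]
    have h1 : (algebraMap (FractionRing (MvPolynomial (Fin s) k)) K).comp
        (algebraMap (MvPolynomial (Fin s) k) (FractionRing (MvPolynomial (Fin s) k))) =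
        (A.val : A →+* K).comp (g : _ →+* A) := by
      refine RingHom.ext fun x => ?_
      change ι (algebraMap _ _ x) = _
      exact IsFractionRing.lift_algebraMap hφ x
    rw [h1]
    have h2 := congrArg (A.val : A →+* K) hpa
    rw [Polynomial.hom_eval₂, map_zero] at h2
    exact h2
  have halg : Algebra.IsAlgebraic (FractionRing (MvPolynomial (Fin s) k)) K := by
    refine ⟨fun x => ?_⟩
    obtain ⟨⟨a, b⟩, hab⟩ := IsLocalization.surj M x
    have hb : IsUnit (algebraMap A K (b : A)) := IsLocalization.map_units K b
    have hb0 : ((b : A) : K) ≠ 0 := hb.ne_zero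
    have h1 : x = (a : K) * (((b : A) : K))⁻¹ := (eq_mul_inv_iff_mul_eq₀ hb0).2 hab
    rw [h1]
    exact ((hAalg a).isAlgebraic).mul ((hAalg b).isAlgebraic.inv)
  have hfin := Algebra.finite_of_essFiniteType_of_isAlgebraic
    (F := FractionRing (MvPolynomial (Fin s) k)) (E := K)
  have hchar : CharZero (FractionRing (MvPolynomial (Fin s) k)) :=
    charZero_of_injective_algebraMap
      (algebraMap k (FractionRing (MvPolynomial (Fin s) k))).injective
  exact hasSpec_finite (κ := FractionRing (MvPolynomial (Fin s) k))
    (hasSpec_fraction (R := MvPolynomial (Fin s) k) (hk.mvPolynomial s))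

/-- Finitely generated fields of characteristic zero. -/
theorem hasSpec_of_fg (K : Type) [Field K] [CharZero K] [Algebra.EssFiniteType ℚ K] :
    HasSpec K :=
  hasSpec_fg ℚ K (hasSpec_numberField ℚ)

end Pool.Agent.LibK3G
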