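import Pool.Agent.LibHPF.P10
import Pool.Agent.LibZ96.G0

/-!
Theorem Z for dominant maps, the Gauss trick (row G3): over all but finitely many points of
codimension one of `X` the function field of `Z` is unramified over the Gauss extension of the local
ring with respect to a transcendence basis. The algebra.
-/

set_option autoImplicit false

open AlgebraicGeometry CategoryTheory
open Pool.Agent.LibHP Pool.Agent.LibZ96

namespace Pool.Agent.LibK3G

theorem isIntegrallyClosed_mvPolynomial (R : Type) [CommRing R] [IsDomain R]
    [IsIntegrallyClosed R] (n : ℕ) : IsIntegrallyClosed (MvPolynomial (Fin n) R) := by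
  induction n with
  | zero =>
    exact IsIntegrallyClosed.of_equiv (MvPolynomial.isEmptyAlgEquiv R (Fin 0)).symm.toRingEquiv
  | succ n ih =>
    exact IsIntegrallyClosed.of_equiv (MvPolynomial.finSuccEquiv R n).symm.toRingEquiv

/-- The field `K(s)` is the field of fractions of `R[s]`. -/
theorem isFractionRing_adjoin {R K L : Type} [CommRing R] [IsDomain R] [Field K] [Algebra R K]
    [IsFractionRing R K] [Field L] [Algebra K L] {r : ℕ} (s : Fin r → L)
    (hs : AlgebraicIndependent K s)
    [Algebra (MvPolynomial (Fin r) R) (IntermediateField.adjoin K (Set.range s))]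
    (hE : ∀ p : MvPolynomial (Fin r) R,
      ((algebraMap (MvPolynomial (Fin r) R) (IntermediateField.adjoin K (Set.range s)) p :
        IntermediateField.adjoin K (Set.range s)) : L) =
        MvPolynomial.eval₂ ((algebraMap K L).comp (algebraMap R K)) s p) :
    IsFractionRing (MvPolynomial (Fin r) R) (IntermediateField.adjoin K (Set.range s)) := by
  have hmap : ∀ p : MvPolynomial (Fin r) R,
      MvPolynomial.eval₂ ((algebraMap K L).comp (algebraMap R K)) s p =
        MvPolynomial.aeval s (MvPolynomial.map (algebraMap R K) p) := by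
    intro p
    rw [MvPolynomial.aeval_def, MvPolynomial.eval₂_map]
  have hinj : Function.Injective (algebraMap (MvPolynomial (Fin r) R)
      (IntermediateField.adjoin K (Set.range s))) := by
    intro p q hpq
    have h1 := congrArg (fun z : IntermediateField.adjoin K (Set.range s) => (z : L)) hpq
    change ((algebraMap (MvPolynomial (Fin r) R) (IntermediateField.adjoin K (Set.range s)) p :
      IntermediateField.adjoin K (Set.range s)) : L) = ((algebraMap (MvPolynomial (Fin r) R)
        (IntermediateField.adjoin K (Set.range s)) q : IntermediateField.adjoin K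
          (Set.range s)) : L) at h1
    rw [hE, hE, hmap, hmap] at h1
    have h2 := (algebraicIndependent_iff_injective_aeval.1 hs) h1
    exact MvPolynomial.map_injective _ (IsFractionRing.injective R K) h2
  have hfaith : FaithfulSMul (MvPolynomial (Fin r) R)
      (IntermediateField.adjoin K (Set.range s)) := (faithfulSMul_iff_algebraMap_injective _ _).2 hinj
  have hclear : ∀ p : MvPolynomial (Fin r) K, ∃ (d : R) (q : MvPolynomial (Fin r) R), d ≠ 0 ∧
      MvPolynomial.map (algebraMap R K) q = MvPolynomial.C (algebraMap R K d) * p := by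
    intro p
    let _ : Algebra (MvPolynomial (Fin r) R) (MvPolynomial (Fin r) K) :=
      (MvPolynomial.map (algebraMap R K)).toAlgebra
    induction p using MvPolynomial.induction_on' with
    | monomial m c =>
      obtain ⟨x, y, hy, hxy⟩ := IsFractionRing.div_surjective (A := R) c
      refine ⟨y, MvPolynomial.monomial m x, nonZeroDivisors.ne_zero hy, ?_⟩
      rw [MvPolynomial.map_monomial, MvPolynomial.C_mul_monomial, ← hxy, mul_div_cancel₀]
      intro h0
      exact nonZeroDivisors.ne_zero hy ((map_eq_zero_iff _ (IsFractionRing.injective R K)).1 h0)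
    | add p q hp hq =>
      obtain ⟨d, u, hd, hu⟩ := hp
      obtain ⟨e, v, he, hv⟩ := hq
      refine ⟨d * e, MvPolynomial.C e * u + MvPolynomial.C d * v, mul_ne_zero hd he, ?_⟩
      rw [map_add, map_mul, map_mul, hu, hv, MvPolynomial.map_C, MvPolynomial.map_C, map_mul,
        map_mul]
      ring
  refine IsFractionRing.of_field _ _ ?_
  rintro ⟨z, hz⟩
  obtain ⟨p, q, hpq⟩ := (IntermediateField.mem_adjoin_range_iff K s z).1 hz
  obtain ⟨d, u, hd, hu⟩ := hclear p
  obtain ⟨e, v, he, hv⟩ := hclear q
  refine ⟨MvPolynomial.C e * u, MvPolynomial.C d * v, ?_⟩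
  apply Subtype.ext
  have hd' : algebraMap K L (algebraMap R K d) ≠ 0 := by
    rw [Ne, map_eq_zero, map_eq_zero_iff _ (IsFractionRing.injective R K)]
    exact hd
  have he' : algebraMap K L (algebraMap R K e) ≠ 0 := by
    rw [Ne, map_eq_zero, map_eq_zero_iff _ (IsFractionRing.injective R K)]
    exact he
  change z = ((algebraMap (MvPolynomial (Fin r) R) (IntermediateField.adjoin K (Set.range s))
    (MvPolynomial.C e * u) : IntermediateField.adjoin K (Set.range s)) : L) /
      ((algebraMap (MvPolynomial (Fin r) R) (IntermediateField.adjoin K (Set.range s))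
        (MvPolynomial.C d * v) : IntermediateField.adjoin K (Set.range s)) : L)
  have e1 : MvPolynomial.aeval s (MvPolynomial.map (algebraMap R K) (MvPolynomial.C e * u)) =
      (algebraMap K L (algebraMap R K e) * algebraMap K L (algebraMap R K d)) *
        MvPolynomial.aeval s p := by
    rw [map_mul, map_mul, hu, MvPolynomial.map_C, map_mul, MvPolynomial.aeval_C,
      MvPolynomial.aeval_C, mul_assoc]
  have e2 : MvPolynomial.aeval s (MvPolynomial.map (algebraMap R K) (MvPolynomial.C d * v)) =
      (algebraMap K L (algebraMap R K e) * algebraMap K L (algebraMap R K d)) *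
        MvPolynomial.aeval s q := by
    rw [map_mul, map_mul, hv, MvPolynomial.map_C, map_mul, MvPolynomial.aeval_C,
      MvPolynomial.aeval_C]
    ring
  rw [hE, hE, hmap, hmap, e1, e2, mul_div_mul_left _ _ (mul_ne_zero he' hd'), hpq]

/-- **The Gauss trick**, algebraic part. -/
theorem gauss_core (A K L : Type) [CommRing A] [IsDomain A] [IsIntegrallyClosed A] [Field K]
    [CharZero K] [Algebra A K] [IsFractionRing A K] [Field L] [Algebra K L] {r : ℕ}
    (s : Fin r → L) (hs : AlgebraicIndependent K s)
    (hfin : FiniteDimensional (IntermediateField.adjoin K (Set.range s)) L) :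
    ∃ a : A, a ≠ 0 ∧ ∀ (O : Type) [CommRing O] [IsDomain O] [IsIntegrallyClosed O] [Algebra A O]
      [Algebra O K] [IsFractionRing O K] [IsScalarTower A O K], IsUnit (algebraMap A O a) →
      ∀ (M : Submonoid (MvPolynomial (Fin r) O)),
        (∀ p : MvPolynomial (Fin r) O, (∃ m, IsUnit (p.coeff m)) → p ∈ M) → 0 ∉ M →
        ∀ (O' : Type) [CommRing O'] [Algebra (MvPolynomial (Fin r) O) O'] [IsLocalization M O']
          (i : O' →+* L), (∀ p : MvPolynomial (Fin r) O,
            i (algebraMap (MvPolynomial (Fin r) O) O' p) =
              MvPolynomial.eval₂ ((algebraMap K L).comp (algebraMap O K)) s p) → Pres i := by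
  classical
  let E := IntermediateField.adjoin K (Set.range s)
  have hcE : CharZero E := charZero_of_injective_algebraMap (algebraMap K E).injective
  have hA := isIntegrallyClosed_mvPolynomial A r
  -- evaluations lie in `E`
  have hev : ∀ {R : Type} [CommRing R] (g : R →+* K) (p : MvPolynomial (Fin r) R),
      MvPolynomial.eval₂ ((algebraMap K L).comp g) s p ∈ E := by
    intro R _ g p
    induction p using MvPolynomial.induction_on with
    | C a =>
      rw [MvPolynomial.eval₂_C]
      exact E.algebraMap_mem _
    | add p q hp hq =>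
      rw [MvPolynomial.eval₂_add]
      exact E.add_mem hp hq
    | mul_X p i hp =>
      rw [MvPolynomial.eval₂_mul, MvPolynomial.eval₂_X]
      exact E.mul_mem hp (IntermediateField.subset_adjoin K _ ⟨i, rfl⟩)
  let _ : Algebra (MvPolynomial (Fin r) A) E :=
    ((MvPolynomial.eval₂Hom ((algebraMap K L).comp (algebraMap A K)) s).codRestrict E
      (fun p => hev (algebraMap A K) p)).toAlgebra
  let _ : Algebra (MvPolynomial (Fin r) A) L :=
    (MvPolynomial.eval₂Hom ((algebraMap K L).comp (algebraMap A K)) s).toAlgebra
  have htA : IsScalarTower (MvPolynomial (Fin r) A) E L :=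
    IsScalarTower.of_algebraMap_eq fun p => rfl
  have hfrA : IsFractionRing (MvPolynomial (Fin r) A) E := isFractionRing_adjoin s hs fun p => rfl
  obtain ⟨δ, hδ, hcore⟩ := p10_core (MvPolynomial (Fin r) A) E L
  obtain ⟨m, hm⟩ : ∃ m, δ.coeff m ≠ 0 := by
    by_contra hcon
    push Not at hcon
    apply hδ
    ext m
    rw [hcon m, MvPolynomial.coeff_zero]
  refine ⟨δ.coeff m, hm, ?_⟩
  intro O _ _ _ _ _ _ _ hu M hM hM0 O' _ _ _ i hi
  have hO := isIntegrallyClosed_mvPolynomial O r
  have hMle : M ≤ nonZeroDivisors (MvPolynomial (Fin r) O) := by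
    intro p hp
    exact mem_nonZeroDivisors_of_ne_zero fun h0 => hM0 (h0 ▸ hp)
  have hdom : IsDomain O' := IsLocalization.isDomain_of_le_nonZeroDivisors O' hMle
  have hic : IsIntegrallyClosed O' := isIntegrallyClosed_of_isLocalization
    (R := MvPolynomial (Fin r) O) O' M hMle
  have hiE : ∀ z : O', i z ∈ E := by
    intro z
    obtain ⟨p, q, rfl⟩ := IsLocalization.exists_mk'_eq M z
    have h1 : IsLocalization.mk' O' p q * algebraMap (MvPolynomial (Fin r) O) O' q =
      algebraMap _ O' p := IsLocalization.mk'_spec O' p q
    have h2 := congrArg i h1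
    rw [map_mul, hi, hi] at h2
    have h3 : MvPolynomial.eval₂ ((algebraMap K L).comp (algebraMap O K)) s
        (q : MvPolynomial (Fin r) O) ≠ 0 := by
      rw [← hi]
      exact ((IsLocalization.map_units O' q).map i).ne_zero
    rw [← eq_div_iff h3] at h2
    rw [h2]
    exact E.div_mem (hev (algebraMap O K) p) (hev (algebraMap O K) q)
  let _ : Algebra (MvPolynomial (Fin r) O) E :=
    ((MvPolynomial.eval₂Hom ((algebraMap K L).comp (algebraMap O K)) s).codRestrict E
      (fun p => hev (algebraMap O K) p)).toAlgebra
  have hfrO : IsFractionRing (MvPolynomial (Fin r) O) E := isFractionRing_adjoin s hs fun p => rfl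
  let _ : Algebra O' E := (i.codRestrict E hiE).toAlgebra
  let _ : Algebra O' L := i.toAlgebra
  have ht1 : IsScalarTower (MvPolynomial (Fin r) O) O' E :=
    IsScalarTower.of_algebraMap_eq fun p => Subtype.ext (hi p).symm
  have ht2 : IsScalarTower O' E L := IsScalarTower.of_algebraMap_eq fun p => rfl
  have hfrO' : IsFractionRing O' E :=
    IsFractionRing.isFractionRing_of_isDomain_of_isLocalization M O' E
  let _ : Algebra (MvPolynomial (Fin r) A) O' :=
    ((algebraMap (MvPolynomial (Fin r) O) O').comp (MvPolynomial.map (algebraMap A O))).toAlgebra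
  have ht3 : IsScalarTower (MvPolynomial (Fin r) A) O' E := by
    refine IsScalarTower.of_algebraMap_eq fun p => Subtype.ext ?_
    change MvPolynomial.eval₂ ((algebraMap K L).comp (algebraMap A K)) s p =
      i (algebraMap (MvPolynomial (Fin r) O) O' (MvPolynomial.map (algebraMap A O) p))
    rw [hi, MvPolynomial.eval₂_map, RingHom.comp_assoc, ← IsScalarTower.algebraMap_eq A O K]
  have hunit : IsUnit (algebraMap (MvPolynomial (Fin r) A) O' δ) := by
    refine IsLocalization.map_units (M := M) O' ⟨MvPolynomial.map (algebraMap A O) δ, hM _ ⟨m, ?_⟩⟩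
    rw [MvPolynomial.coeff_map]
    exact hu
  intro D hD b hb
  exact hcore O' hunit D hD b hb

end Pool.Agent.LibK3G
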