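import Pool.Agent.LibK3G.GT1

/-!
Theorem Z for dominant maps, the Gauss trick (row G3): the points of `X`.
-/

set_option autoImplicit false

open AlgebraicGeometry CategoryTheory
open Pool.Agent.LibHP Pool.Agent.LibZ96

namespace Pool.Agent.LibK3G

/-- `L` is unramified over the Gauss extensions of the local ring of `X` at `y` with respect to the
family `s` of elements of `L`. -/
def GaussPres {X : Scheme.{0}} [IsIntegral X] {L : Type} [Field L] (φ : X.functionField →+* L)
    {r : ℕ} (s : Fin r → L) (y : X) : Prop :=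
  ∀ (M : Submonoid (MvPolynomial (Fin r) (X.presheaf.stalk y))),
    (∀ p : MvPolynomial (Fin r) (X.presheaf.stalk y), (∃ m, IsUnit (p.coeff m)) → p ∈ M) →
    0 ∉ M → ∀ (O' : Type) [CommRing O'] [Algebra (MvPolynomial (Fin r) (X.presheaf.stalk y)) O']
      [IsLocalization M O'] (i : O' →+* L),
      (∀ p : MvPolynomial (Fin r) (X.presheaf.stalk y),
        i (algebraMap (MvPolynomial (Fin r) (X.presheaf.stalk y)) O' p) =
          MvPolynomial.eval₂ (stalkTo φ y) s p) → Pres i

/-- **The Gauss trick** (row G3). -/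
theorem finite_not_gaussPres {k : Type} [Field k] [CharZero k] {X : Scheme.{0}}
    (f : X ⟶ Spec (CommRingCat.of k)) [IsIntegral X] [Smooth f] [QuasiCompact f]
    (L : Type) [Field L] [Algebra X.functionField L] {r : ℕ} (s : Fin r → L)
    (hs : AlgebraicIndependent X.functionField s)
    (hfin : FiniteDimensional (IntermediateField.adjoin X.functionField (Set.range s)) L) :
    {y : X | ringKrullDim (X.presheaf.stalk y) = 1 ∧
      ¬ GaussPres (algebraMap X.functionField L) s y}.Finite := by
  classical
  have hcz : CharZero X.functionField :=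
    charZero_of_injective_ringHom (toStalk f (genericPoint X)).injective
  have hcomp : CompactSpace X := QuasiCompact.compactSpace_of_compactSpace f
  -- local finiteness
  have hloc : ∀ x : X, ∃ U : X.Opens, x ∈ U ∧
      {y : X | y ∈ U ∧ ringKrullDim (X.presheaf.stalk y) = 1 ∧
        ¬ GaussPres (algebraMap X.functionField L) s y}.Finite := by
    intro x0
    obtain ⟨U, hU, hxU, n, ψ, hψ⟩ := exists_etale_chart f x0
    refine ⟨U, hxU, ?_⟩
    have hne : Nonempty U := ⟨⟨x0, hxU⟩⟩
    let _ : Algebra (MvPolynomial (Fin n) k) Γ(X, U) := ψ.toAlgebra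
    have hAet : Algebra.Etale (MvPolynomial (Fin n) k) Γ(X, U) := hψ
    have hnoeth : IsNoetherianRing Γ(X, U) :=
      Algebra.FiniteType.isNoetherianRing (MvPolynomial (Fin n) k) Γ(X, U)
    have hic : IsIntegrallyClosed Γ(X, U) := isIntegrallyClosed_of_etale k n Γ(X, U)
    have hfr : IsFractionRing Γ(X, U) X.functionField :=
      functionField_isFractionRing_of_isAffineOpen X U hU
    obtain ⟨a, ha, hcore⟩ := gauss_core Γ(X, U) X.functionField L s hs hfin
    have hfin : ((Ideal.span {a} : Ideal Γ(X, U)).minimalPrimes).Finite :=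
      Ideal.finite_minimalPrimes_of_isNoetherianRing _ _
    have hfin2 : {P : PrimeSpectrum Γ(X, U) |
        P.asIdeal ∈ (Ideal.span {a} : Ideal Γ(X, U)).minimalPrimes}.Finite := by
      refine Set.Finite.preimage ?_ hfin
      intro P _ Q _ h
      exact PrimeSpectrum.ext h
    refine (hfin2.image (fun P => hU.fromSpec P)).subset ?_
    rintro y ⟨hyU, hdim, hpres⟩
    refine ⟨hU.primeIdealOf ⟨y, hyU⟩, ?_, hU.fromSpec_primeIdealOf ⟨y, hyU⟩⟩
    let P : Ideal Γ(X, U) := (hU.primeIdealOf ⟨y, hyU⟩).asIdeal
    have hPp : P.IsPrime := (hU.primeIdealOf ⟨y, hyU⟩).isPrime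
    let _i1 : Algebra Γ(X, U) (X.presheaf.stalk y) :=
      TopCat.Presheaf.algebra_section_stalk X.presheaf (⟨y, hyU⟩ : U)
    have hlocal : IsLocalization.AtPrime (X.presheaf.stalk y) P :=
      hU.isLocalization_stalk ⟨y, hyU⟩
    have hht : P.height = 1 := by
      have h1 := IsLocalization.AtPrime.ringKrullDim_eq_height P (X.presheaf.stalk y)
      rw [hdim] at h1
      exact_mod_cast h1.symm
    change P ∈ (Ideal.span {a} : Ideal Γ(X, U)).minimalPrimes
    refine p10_minimal Γ(X, U) a ha P hht ?_
    by_contra hmem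
    apply hpres
    have hunit : IsUnit (algebraMap Γ(X, U) (X.presheaf.stalk y) a) :=
      IsLocalization.map_units (M := P.primeCompl) (X.presheaf.stalk y) ⟨a, hmem⟩
    have htow : IsScalarTower Γ(X, U) (X.presheaf.stalk y) X.functionField :=
      functionField_isScalarTower X U ⟨y, hyU⟩
    have hi : IsIntegrallyClosed (X.presheaf.stalk y) :=
      isIntegrallyClosed_of_isLocalization (R := Γ(X, U)) _ P.primeCompl
        (Ideal.primeCompl_le_nonZeroDivisors _)
    intro M hM hM0 O' _ _ _ i hi'
    exact hcore (X.presheaf.stalk y) hunit M hM hM0 O' i hi'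
  choose U hxU hUfin using hloc
  obtain ⟨t, ht⟩ := isCompact_univ.elim_finite_subcover (fun x : X => (U x : Set X))
    (fun x => (U x).isOpen) (fun x _ => Set.mem_iUnion.mpr ⟨x, hxU x⟩)
  refine (Set.Finite.biUnion t.finite_toSet (fun x _ => hUfin x)).subset ?_
  rintro y ⟨h1, h2⟩
  obtain ⟨x, hx⟩ := Set.mem_iUnion.mp (ht (Set.mem_univ y))
  obtain ⟨hxt, hyx⟩ := Set.mem_iUnion.mp hx
  exact Set.mem_biUnion hxt ⟨hyx, h1, h2⟩

/-- The localization at the extension of the maximal ideal. -/
theorem GaussPres.atPrime {X : Scheme.{0}} [IsIntegral X] {L : Type} [Field L]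
    {φ : X.functionField →+* L} {r : ℕ} {s : Fin r → L} {y : X} (h : GaussPres φ s y)
    (O' : Type) [CommRing O'] [Algebra (MvPolynomial (Fin r) (X.presheaf.stalk y)) O']
    [IsLocalization.AtPrime O' (gaussIdeal (X.presheaf.stalk y) r)] (i : O' →+* L)
    (hi : ∀ p : MvPolynomial (Fin r) (X.presheaf.stalk y),
      i (algebraMap (MvPolynomial (Fin r) (X.presheaf.stalk y)) O' p) =
        MvPolynomial.eval₂ (stalkTo φ y) s p) : Pres i := by
  refine h (gaussIdeal (X.presheaf.stalk y) r).primeCompl ?_
    (fun h0 => h0 (gaussIdeal (X.presheaf.stalk y) r).zero_mem) O' i hi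
  rintro p ⟨m, hm⟩ hp
  exact (IsLocalRing.mem_maximalIdeal _).1 ((mem_gaussIdeal _ r p).1 hp m) hm

/-- **Row G3**: over all but finitely many points of codimension one of `X` the field `L` is
unramified over the Gauss extension of the local ring. -/
theorem finite_not_pres_gaussHom {k : Type} [Field k] [CharZero k] {X : Scheme.{0}} [IsIntegral X]
    (f : X ⟶ Spec (CommRingCat.of k)) [Smooth f] [QuasiCompact f]
    (L : Type) [Field L] [Algebra X.functionField L] (r : ℕ) (s : Fin r → L)
    (hs : AlgebraicIndependent X.functionField s)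
    (hfin : Module.Finite (IntermediateField.adjoin X.functionField (Set.range s)) L)
    (hinj : ∀ y : X, Function.Injective (MvPolynomial.eval₂Hom
      (stalkTo (algebraMap X.functionField L) y) s)) :
    {y : X | ringKrullDim (X.presheaf.stalk y) = 1 ∧
      ¬ Pres (gaussHom (stalkTo (algebraMap X.functionField L) y) s (hinj y))}.Finite := by
  refine (finite_not_gaussPres f L s hs hfin).subset ?_
  rintro y ⟨hy, hbad⟩
  refine ⟨hy, fun h => hbad ?_⟩
  exact h.atPrime (GaussRing (X.presheaf.stalk y) r) _ (gaussHom_algebraMap _ s (hinj y))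

/-- A transcendence basis of an essentially finite extension, and the finiteness over it. -/
theorem exists_transcendenceBasis (K L : Type) [Field K] [Field L] [Algebra K L]
    [Algebra.EssFiniteType K L] : ∃ (r : ℕ) (s : Fin r → L), IsTranscendenceBasis K s ∧
      FiniteDimensional (IntermediateField.adjoin K (Set.range s)) L := by
  obtain ⟨T, hT⟩ := exists_finset_isTranscendenceBasis K L
  let e : Fin T.card ≃ T := T.equivFin.symm
  let s : Fin T.card → L := fun i => (e i : L)
  have hs : IsTranscendenceBasis K s := hT.comp_equiv e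
  refine ⟨T.card, s, hs, ?_⟩
  have halg : Algebra.IsAlgebraic (IntermediateField.adjoin K (Set.range s)) L :=
    hs.isAlgebraic_field
  have hess : Algebra.EssFiniteType (IntermediateField.adjoin K (Set.range s)) L :=
    Algebra.EssFiniteType.of_comp K _ L
  exact Algebra.finite_of_essFiniteType_of_isAlgebraic

end Pool.Agent.LibK3G
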