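import Pool.Agent.LibK3G.FG3

/-!
The Hilbert property of a field `κ` over `k`, and its rational function field.
-/

set_option autoImplicit false
open Polynomial
open Pool.Agent.LibHP

namespace Pool.Agent.LibK3G

/-- The Hilbert property of (the models over `k` of) a field `κ`: finitely many monic polynomials
over a finitely generated `k`-algebra with a map to `κ`, without roots in `κ`, have a common
specialization at a `k`-point without roots in `k`. -/
def Hil (k κ : Type) [Field k] [Field κ] [Algebra k κ] : Prop :=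
  ∀ (A : Type) [CommRing A] [Algebra k A] [Algebra.FiniteType k A] (F : A →ₐ[k] κ) (m : ℕ)
    (P : Fin m → A[X]), (∀ i, (P i).Monic) →
    (∀ i, ∀ r, ¬ ((P i).map (F : A →+* κ)).IsRoot r) →
    ∃ φ : A →ₐ[k] k, ∀ i, ∀ x : k, ¬ ((P i).map (φ : A →+* k)).IsRoot x

theorem hil_self (k : Type) [Field k] : Hil k k := by
  intro A _ _ _ F m P _ h
  exact ⟨F, h⟩

/-- An algebra map into the rational function field factors through the localization at one
polynomial. -/
theorem factor (k κ : Type) [Field k] [Field κ] [Algebra k κ] (A : Type) [CommRing A]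
    [Algebra k A] [Algebra.FiniteType k A] (F : A →ₐ[k] RatFunc κ) :
    ∃ g : κ[X], g ≠ 0 ∧ ∃ (G : A →ₐ[k] Localization.Away g)
      (j : Localization.Away g →ₐ[k] RatFunc κ),
      (∀ p : κ[X], j (algebraMap _ _ p) = algebraMap _ _ p) ∧ j.comp G = F := by
  classical
  obtain ⟨S, hS⟩ := Algebra.FiniteType.out (R := k) (A := A)
  obtain ⟨⟨g, hg⟩, hb⟩ := IsLocalization.exist_integer_multiples_of_finset
    (nonZeroDivisors κ[X]) (S.image F)
  have hg0 : g ≠ 0 := nonZeroDivisors.ne_zero hg
  have hinj : Function.Injective (algebraMap κ[X] (RatFunc κ)) := IsFractionRing.injective _ _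
  have hgF : algebraMap κ[X] (RatFunc κ) g ≠ 0 := by
    intro h
    exact hg0 (hinj (by rw [h, map_zero]))
  have hunit : ∀ y : Submonoid.powers g, IsUnit (IsScalarTower.toAlgHom k κ[X] (RatFunc κ) y) := by
    rintro ⟨y, m, rfl⟩
    simp only [IsScalarTower.coe_toAlgHom', map_pow]
    exact (isUnit_iff_ne_zero.2 hgF).pow m
  have hle : Submonoid.powers g ≤ nonZeroDivisors κ[X] :=
    powers_le_nonZeroDivisors_of_noZeroDivisors hg0
  set j : Localization.Away g →ₐ[k] RatFunc κ :=
    IsLocalization.liftAlgHom (M := Submonoid.powers g) hunit with hj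
  have hjalg : ∀ p : κ[X], j (algebraMap _ _ p) = algebraMap _ _ p := by
    intro p
    rw [hj, IsLocalization.liftAlgHom_apply, IsLocalization.lift_eq]
    rfl
  have hjinj : Function.Injective j := by
    rw [hj, IsLocalization.coe_liftAlgHom, IsLocalization.lift_injective_iff]
    intro x y
    constructor
    · intro h
      rw [IsLocalization.injective (Localization.Away g) hle h]
    · intro h
      rw [hinj h]
  have hrange : ∀ a : A, F a ∈ j.range := by
    have h1 : Algebra.adjoin k (S : Set A) ≤ (j.range).comap F := by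
      apply Algebra.adjoin_le
      intro s hs
      obtain ⟨p, hp⟩ := hb (F s) (Finset.mem_image_of_mem _ hs)
      show F s ∈ j.range
      refine ⟨IsLocalization.mk' (Localization.Away g) p ⟨g, Submonoid.mem_powers g⟩, ?_⟩
      have h2 := IsLocalization.mk'_spec (Localization.Away g) p
        (⟨g, Submonoid.mem_powers g⟩ : Submonoid.powers g)
      have h3 := congrArg j h2
      rw [map_mul, hjalg, hjalg] at h3
      rw [Algebra.smul_def] at hp
      have h4 : j (IsLocalization.mk' (Localization.Away g) p ⟨g, Submonoid.mem_powers g⟩) *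
          algebraMap _ _ g = F s * algebraMap _ _ g := by
        rw [mul_comm (F s)]
        exact h3.trans hp
      exact mul_right_cancel₀ hgF h4
    intro a
    have : a ∈ Algebra.adjoin k (S : Set A) := by rw [hS]; trivial
    exact h1 this
  refine ⟨g, hg0, ((AlgEquiv.ofInjective j hjinj).symm : j.range →ₐ[k] Localization.Away g).comp
    (F.codRestrict j.range hrange), j, hjalg, ?_⟩
  ext a
  simp only [AlgHom.comp_apply]
  have : AlgEquiv.ofInjective j hjinj ((AlgEquiv.ofInjective j hjinj).symm
      (F.codRestrict j.range hrange a)) = F.codRestrict j.range hrange a :=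
    AlgEquiv.apply_symm_apply _ _
  have h2 := congrArg Subtype.val this
  exact h2

/-- The rational function field of a field with the Hilbert property over `k`. -/
theorem hil_ratFunc (k κ : Type) [Field k] [Field κ] [CharZero κ] [Algebra k κ] (hs : HasSpec κ)
    (hH : Hil k κ) : Hil k (RatFunc κ) := by
  classical
  intro A _ _ _ F m P hP hroot
  obtain ⟨g, hg0, G, j, hj, rfl⟩ := factor k κ A F
  have hinj : Function.Injective (algebraMap κ[X] (RatFunc κ)) := IsFractionRing.injective _ _
  -- clear denominators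
  have h1 : ∀ i, ∃ (b : κ[X]) (Q : κ[X][X]), b ∈ Submonoid.powers g ∧ Q.Monic ∧
      Q.map (algebraMap κ[X] (Localization.Away g)) =
        ((P i).map (G : A →+* Localization.Away g)).scaleRoots (algebraMap _ _ b) := by
    intro i
    have hm : ((P i).map (G : A →+* Localization.Away g)).Monic := (hP i).map _
    have h := IsLocalization.scaleRoots_commonDenom_mem_lifts (Submonoid.powers g)
      ((P i).map (G : A →+* Localization.Away g)) (by rw [hm.leadingCoeff]; exact one_mem _)
    obtain ⟨Q, hQ, _, hQm⟩ := Polynomial.lifts_and_natDegree_eq_and_monic h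
      ((monic_scaleRoots_iff _).2 hm)
    exact ⟨_, Q, (IsLocalization.commonDenom (Submonoid.powers g) _ _).2, hQm, hQ⟩
  choose b Q hb hQm hQ using h1
  have hnr : ∀ i, ∀ r, ¬ (Q i).IsRoot r := by
    intro i r hr
    have hb0 : algebraMap κ[X] (RatFunc κ) (b i) ≠ 0 := by
      intro h
      have h0 : b i = 0 := hinj (by rw [h, map_zero])
      obtain ⟨m, hm⟩ := hb i
      exact pow_ne_zero m hg0 (hm.trans h0)
    apply hroot i (algebraMap _ _ r / algebraMap _ _ (b i))
    have h3 := scaleRoots_eval₂_mul (p := (P i).map (G : A →+* Localization.Away g))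
      (j : Localization.Away g →+* RatFunc κ)
      (algebraMap _ _ r / algebraMap _ _ (b i)) (algebraMap _ _ (b i))
    have h4 : (j : Localization.Away g →+* RatFunc κ)
        (algebraMap _ _ (b i)) = algebraMap _ _ (b i) := hj _
    have h5 : (j : Localization.Away g →+* RatFunc κ).comp
        (algebraMap κ[X] (Localization.Away g)) = algebraMap κ[X] (RatFunc κ) :=
      RingHom.ext hj
    rw [h4, mul_div_cancel₀ _ hb0, ← hQ, eval₂_map, h5, eval₂_at_apply,
      show eval r (Q i) = 0 from hr, map_zero, eq_comm, mul_eq_zero] at h3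
    have h6 := h3.resolve_left (pow_ne_zero _ hb0)
    rw [IsRoot, eval_map]
    rw [eval₂_map] at h6
    exact h6
  choose Z hZ h1 using fun i => hs (Q i) (hQm i)
  have hDZ : DZ ((⋃ i ∈ (Finset.univ : Finset (Fin m)), Z i) ∪
      {τ : ℕ | g.eval ((τ : ℕ) : κ) = 0}) :=
    DZ.union (DZ.biUnion _ _ (fun i _ => hZ i)) (DZ.of_finite (finite_nat_roots _ hg0))
  obtain ⟨τ, hτ⟩ := DZ.exists_notMem hDZ
  simp only [Set.mem_union, Set.mem_iUnion, not_or, not_exists, Finset.mem_univ,
    exists_prop, true_and, Set.mem_ofPred_eq] at hτ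
  obtain ⟨hτ1, hτ2⟩ := hτ
  have hunit : ∀ y : Submonoid.powers g, IsUnit (((aeval (R := κ) ((τ : ℕ) : κ)).restrictScalars k :
      κ[X] →ₐ[k] κ) y) := by
    rintro ⟨y, m, rfl⟩
    simp only [map_pow]
    refine (isUnit_iff_ne_zero.2 ?_).pow m
    change aeval ((τ : ℕ) : κ) g ≠ 0
    rw [coe_aeval_eq_eval]
    exact hτ2
  set ψ : Localization.Away g →ₐ[k] κ :=
    IsLocalization.liftAlgHom (M := Submonoid.powers g) hunit with hψ
  have hψalg : ∀ p : κ[X], ψ (algebraMap _ _ p) = p.eval ((τ : ℕ) : κ) := by
    intro p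
    rw [hψ, IsLocalization.liftAlgHom_apply, IsLocalization.lift_eq]
    change aeval ((τ : ℕ) : κ) p = _
    rw [coe_aeval_eq_eval]
  refine hH A (ψ.comp G) m P hP ?_
  intro i x hx
  have h3 := scaleRoots_eval₂_mul (p := (P i).map (G : A →+* Localization.Away g))
    (ψ : Localization.Away g →+* κ) x (algebraMap _ _ (b i))
  have h5 : (ψ : Localization.Away g →+* κ).comp
      (algebraMap κ[X] (Localization.Away g)) = evalRingHom ((τ : ℕ) : κ) :=
    RingHom.ext hψalg
  have h6 : eval₂ (ψ : Localization.Away g →+* κ) x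
      ((P i).map (G : A →+* Localization.Away g)) = 0 := by
    rw [IsRoot, eval_map] at hx
    rw [eval₂_map]
    exact hx
  rw [h6, mul_zero, ← hQ, eval₂_map, h5] at h3
  obtain ⟨r, hr, -⟩ := h1 i τ (hτ1 i) (ψ (algebraMap _ _ (b i)) * x) (by
    rw [IsRoot, eval_map]
    exact h3)
  exact hnr i r hr

end Pool.Agent.LibK3G
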