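import Pool.Agent.LibK3F.HN1
import Pool.Agent.LibK3G.HL1

/-!
Lifts of homomorphisms to a field with the Hilbert property over `k`.
-/

set_option autoImplicit false
open Polynomial TensorProduct
open Pool.Agent.LibHP Pool.Agent.LibK3F

namespace Pool.Agent.LibK3G

/-- Lifting a homomorphism to a field with the Hilbert property over `k` from lifts of the rational
points. -/
theorem exists_lift_hom_of_hil {k κ : Type} [Field k] [Infinite k] [Field κ] [Algebra k κ]
    (hH : Hil k κ) (A : Type) [CommRing A] [Algebra k A] [Algebra.FiniteType k A]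
    (φ : A →ₐ[k] κ) {n : ℕ} (B : Fin n → Type)
    [∀ i, CommRing (B i)] (α : ∀ i, A →+* B i) (hα : ∀ i, (α i).Finite)
    (h : ∀ χ : A →ₐ[k] k, ∃ i, ∃ τ : B i →+* k, τ.comp (α i) = (χ : A →+* k)) :
    ∃ i, ∃ ψ : B i →+* κ,
      ψ.comp (α i) = (φ : A →+* κ) := by
  classical
  by_contra hcon
  push Not at hcon
  have h0 : ∀ i, ¬ ∃ ψ : B i →+* κ,
      ψ.comp (α i) = (φ : A →+* κ) := by
    intro i hi
    obtain ⟨ψ, hψ⟩ := hi
    exact hcon i ψ hψ
  have h1 := fun i => exists_elt φ (α i) (hα i) (h0 i)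
  choose b μ hμm hμr T hT using h1
  obtain ⟨S, hS⟩ := Algebra.FiniteType.out (R := k) (A := A)
  -- the finitely generated subalgebra
  let G : Finset (κ) :=
    S.image φ ∪ Finset.univ.biUnion fun i => T i ∪ (μ i).coeffs
  let C : Subalgebra k (κ) := Algebra.adjoin k (G : Set _)
  have hGC : ∀ g ∈ G, g ∈ C := fun g hg => Algebra.subset_adjoin hg
  have hφC : ∀ a, φ a ∈ C := by
    intro a
    have h2 : a ∈ Algebra.adjoin k (S : Set A) := by rw [hS]; trivial
    have h3 : Algebra.adjoin k (S : Set A) ≤ C.comap φ := by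
      apply Algebra.adjoin_le
      intro s hs
      exact hGC _ (Finset.mem_union_left _ (Finset.mem_image_of_mem _ hs))
    exact h3 h2
  have hTC : ∀ i, ∀ t ∈ T i, t ∈ C := fun i t ht =>
    hGC _ (Finset.mem_union_right _ (Finset.mem_biUnion.2 ⟨i, Finset.mem_univ i,
      Finset.mem_union_left _ ht⟩))
  have hμC : ∀ i, ∀ l, (μ i).coeff l ∈ C := by
    intro i l
    by_cases hl : (μ i).coeff l = 0
    · rw [hl]
      exact C.zero_mem
    · exact hGC _ (Finset.mem_union_right _ (Finset.mem_biUnion.2 ⟨i, Finset.mem_univ i,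
        Finset.mem_union_right _ (Polynomial.coeff_mem_coeffs hl)⟩))
  have hCft : Algebra.FiniteType k C :=
    Subalgebra.fg_iff_finiteType C |>.1 ⟨G, rfl⟩
  have h2 : ∀ i, ∃ μ' : C[X], μ'.map (algebraMap C _) = μ i ∧ μ'.Monic := by
    intro i
    have h3 : μ i ∈ Polynomial.lifts (algebraMap C (κ)) := by
      rw [Polynomial.lifts_iff_coeff_lifts]
      intro l
      exact ⟨⟨_, hμC i l⟩, rfl⟩
    obtain ⟨q, hq, -, hqm⟩ := Polynomial.lifts_and_natDegree_eq_and_monic h3 (hμm i)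
    exact ⟨q, hq, hqm⟩
  choose μ' hμ' hμ'm using h2
  obtain ⟨χ, hχ⟩ := hH C C.val n μ' hμ'm (by
    intro i x
    have h3 : (μ' i).map (C.val : C →+* κ) = μ i := hμ' i
    rw [h3]
    exact hμr i x)
  obtain ⟨i, τ, hτ⟩ := h (χ.comp (φ.codRestrict C hφC))
  refine hχ i (τ (b i)) (hT i C hφC (hTC i) (μ' i) (hμ' i) (χ : C →+* k) τ ?_)
  intro a c hc
  have h3 : τ (α i a) = χ (φ.codRestrict C hφC a) := congrArg (fun q : A →+* k => q a) hτ
  rw [h3]
  change χ _ = χ c
  congr 1
  exact Subtype.ext hc.symm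

end Pool.Agent.LibK3G
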