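import Pool.Agent.LibK3.H7
import Pool.Agent.LibK3.H9
import Pool.Agent.LibK3.H10
import Pool.Agent.LibK3G.HL2

/-!
THEOREM K3F (families). If the Hilbert property fails then almost all codimension one points whose residue
field has the Hilbert property over `k` lift to one of finitely many extensions of the function field.
-/

set_option autoImplicit false

open Pool.Agent.LibGMM Pool.Agent.LibHP Pool.Agent.LibK3
open AlgebraicGeometry CategoryTheory

namespace Pool.Agent.LibK3G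

/-- `x` is a codimension one point with residue field `κ`. -/
def IsPtOf {k : Type} [Field k] {X : Scheme} (f : X ⟶ Spec (CommRingCat.of k)) (κ : Type)
    [Field κ] [Algebra k κ] (x : X) : Prop :=
  ringKrullDim (X.presheaf.stalk x) = 1 ∧
    ∃ φ : X.residueField x ≃+* κ, ∀ c : k, φ (X.residue x (toStalk f x c)) = algebraMap k κ c

private theorem HL3_germ {k : Type} [Field k] {X : Scheme} (f : X ⟶ Spec (CommRingCat.of k))
    (W : X.Opens) (x : X) (hx : x ∈ W) (c : k) :
    X.presheaf.germ W x hx (toSec f W c) = toStalk f x c := by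
  have h3 : f.appLE ⊤ W le_top ≫ X.presheaf.germ W x hx =
      f.appTop ≫ X.presheaf.germ ⊤ x trivial := by
    rw [Scheme.Hom.appLE, Category.assoc, TopCat.Presheaf.germ_res]
    rfl
  exact congrArg (fun q => q ((Scheme.ΓSpecIso (CommRingCat.of k)).inv c)) h3

private theorem HL3_ft {k : Type} [Field k] {X : Scheme} (f : X ⟶ Spec (CommRingCat.of k))
    [Smooth f] (W : X.Opens) (hW : IsAffineOpen W) : (toSec f W).FiniteType := by
  refine RingHom.FiniteType.comp (g := (f.appLE ⊤ W le_top).hom)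
    (f.finiteType_appLE (isAffineOpen_top _) hW le_top) ?_
  exact RingHom.FiniteType.of_surjective _
    ((ConcreteCategory.isIso_iff_bijective
      (Scheme.ΓSpecIso (CommRingCat.of k)).inv).mp inferInstance).2

private theorem HL3_loc {X : Scheme} (W : X.Opens) (hW : IsAffineOpen W) (x : X) (hx : x ∈ W)
    (z : X.presheaf.stalk x) : ∃ a s : Γ(X, W), IsUnit (X.presheaf.germ W x hx s) ∧
      z * X.presheaf.germ W x hx s = X.presheaf.germ W x hx a := by
  let _ := TopCat.Presheaf.algebra_section_stalk X.presheaf (⟨x, hx⟩ : W)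
  have hloc := hW.isLocalization_stalk ⟨x, hx⟩
  obtain ⟨⟨a, s⟩, h1⟩ := IsLocalization.surj
    (hW.primeIdealOf ⟨x, hx⟩).asIdeal.primeCompl (S := X.presheaf.stalk x) z
  exact ⟨a, s, IsLocalization.map_units (M := (hW.primeIdealOf ⟨x, hx⟩).asIdeal.primeCompl)
    (X.presheaf.stalk x) s, h1⟩

private theorem HL3_res {X : Scheme} (x : X) (z : X.presheaf.stalk x) :
    X.residue x z ≠ 0 ↔ IsUnit z :=
  IsLocalRing.residue_ne_zero_iff_isUnit z

/-- The statement for one point. -/
theorem resLift_of_mem_of_hil {k : Type} [Field k] [CharZero k] {X : Scheme} [IsIntegral X]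
    (f : X ⟶ Spec (CommRingCat.of k)) [Smooth f] [Algebra k X.functionField]
    (hk : ∀ a : k, algebraMap k X.functionField a = toStalk f (genericPoint X) a)
    {n : ℕ} (Y : Fin n → Scheme) (π : ∀ i, Y i ⟶ X) [∀ i, IsIntegral (Y i)]
    [∀ i, IsFinite (π i)] [∀ i, Surjective (π i)] (W : X.Opens) (hW : IsAffineOpen W)
    (hn : ∀ i, IsIntegrallyClosed Γ(Y i, π i ⁻¹ᵁ W))
    (hχ : ∀ χ : Γ(X, W) →+* k, (∀ c, χ (toSec f W c) = c) →
        ∃ i, ∃ τ : Γ(Y i, π i ⁻¹ᵁ W) →+* k, τ.comp ((π i).app W).hom = χ)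
    {κ : Type} [Field κ] [Algebra k κ] (hH : Hil k κ) (x : X) (hx : IsPtOf f κ x) (hxW : x ∈ W) (v : KVal k X.functionField)
    (hv : ∀ z, 0 ≤ v.ord z ↔ z ∈ stk X x) : ∃ i, ResLift (kap (π i)) v := by
  obtain ⟨-, Φ, hΦ⟩ := hx
  have h1 : genericPoint X ∈ W := genericPoint_mem W x hxW
  have hneW : Nonempty W := ⟨⟨_, h1⟩⟩
  let _ : Algebra k Γ(X, W) := (toSec f W).toAlgebra
  have hft : Algebra.FiniteType k Γ(X, W) := HL3_ft f W hW
  have hnoeth : IsNoetherianRing Γ(X, W) := Algebra.FiniteType.isNoetherianRing k Γ(X, W)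
  have hfr := functionField_isFractionRing_of_isAffineOpen X W hW
  let φ0 : Γ(X, W) →+* κ :=
    (Φ : X.residueField x →+* κ).comp
      ((X.residue x).hom.comp (X.presheaf.germ W x hxW).hom)
  have hφ0 : ∀ a, φ0 a = Φ (X.residue x (X.presheaf.germ W x hxW a)) := fun a => rfl
  let φ : Γ(X, W) →ₐ[k] κ :=
    { φ0 with
      commutes' := by
        intro c
        change φ0 (toSec f W c) = _
        rw [hφ0, HL3_germ f W x hxW c, hΦ] }
  have hfc : ∀ i, ((π i).app W).hom.Finite := fun i => IsFinite.finite_app (π i) W hW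
  obtain ⟨i, ψ, hψ⟩ := exists_lift_hom_of_hil hH Γ(X, W) φ (fun i => Γ(Y i, π i ⁻¹ᵁ W))
    (fun i => ((π i).app W).hom) hfc
    (fun χ => hχ (χ : Γ(X, W) →+* k) (fun c => χ.commutes c))
  refine ⟨i, ?_⟩
  have h2 : genericPoint (Y i) ∈ π i ⁻¹ᵁ W := genericPoint_mem_preimage (π i) W h1
  have hneY : Nonempty (π i ⁻¹ᵁ W : (Y i).Opens) := ⟨⟨_, h2⟩⟩
  have hfrY := functionField_isFractionRing_of_isAffineOpen (Y i) (π i ⁻¹ᵁ W) (hW.preimage (π i))
  have hni := hn i
  have htow : ∀ a : Γ(X, W), algebraMap (X.presheaf.stalk x) X.functionField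
      (X.presheaf.germ W x hxW a) = algebraMap Γ(X, W) X.functionField a := by
    intro a
    let _ := TopCat.Presheaf.algebra_section_stalk X.presheaf (⟨x, hxW⟩ : W)
    have ht := functionField_isScalarTower X W ⟨x, hxW⟩
    exact (IsScalarTower.algebraMap_apply Γ(X, W) (X.presheaf.stalk x) X.functionField a).symm
  have hker : ∀ a : Γ(X, W), φ0 a ≠ 0 ↔ IsUnit (X.presheaf.germ W x hxW a) := by
    intro a
    rw [← HL3_res, hφ0]
    exact (map_ne_zero_iff Φ Φ.injective)
  refine resLift_of_hom (A := Γ(X, W)) (B := Γ(Y i, π i ⁻¹ᵁ W)) ((π i).app W).hom (hfc i)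
    (kap (π i)) ?_ ?_ v φ0 (RingHom.ker φ0) (fun a => RingHom.mem_ker) ?_ ?_ ψ hψ
  · intro a
    exact kap_germ (π i) W h1 h2 a
  · intro c
    refine ⟨toSec f W c, ?_⟩
    rw [hk c]
    exact HL3_germ f W (genericPoint X) h1 c
  · intro z
    rw [hv z]
    constructor
    · rintro ⟨y, rfl⟩
      obtain ⟨a, s, hs, has⟩ := HL3_loc W hW x hxW y
      refine ⟨a, s, fun h0 => (hker s).mpr hs (RingHom.mem_ker.mp h0), ?_⟩
      rw [← htow, ← htow, eq_div_iff, ← map_mul, has]
      exact (hs.map (algebraMap (X.presheaf.stalk x) X.functionField)).ne_zero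
    · rintro ⟨a, b, hb, rfl⟩
      have hb' : IsUnit (X.presheaf.germ W x hxW b) :=
        (hker b).mp fun h0 => hb (RingHom.mem_ker.mpr h0)
      obtain ⟨u, hu⟩ := hb'
      refine ⟨X.presheaf.germ W x hxW a * ((u⁻¹ : (X.presheaf.stalk x)ˣ) : X.presheaf.stalk x), ?_⟩
      have hbne : algebraMap Γ(X, W) X.functionField b ≠ 0 := by
        rw [← htow, ← hu]
        exact (u.isUnit.map (algebraMap (X.presheaf.stalk x) X.functionField)).ne_zero
      rw [eq_div_iff hbne, map_mul, htow, ← htow b, mul_assoc, ← map_mul, ← hu, Units.inv_mul,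
        map_one, mul_one]
  · intro y
    obtain ⟨z, hz⟩ := X.residue_surjective x (Φ.symm y)
    obtain ⟨a, s, hs, has⟩ := HL3_loc W hW x hxW z
    have hs' := (hker s).mpr hs
    refine ⟨a, s, fun h0 => hs' (RingHom.mem_ker.mp h0), ?_⟩
    rw [eq_div_iff hs', hφ0, hφ0, ← has, map_mul, map_mul, hz, Φ.apply_symm_apply]

theorem finite_not_resLift_of_hil {k : Type} [Field k] [CharZero k] {κ : Type} [Field κ]
    [Algebra k κ] (hH : Hil k κ) {X : Scheme} [IsIntegral X] (f : X ⟶ Spec (CommRingCat.of k)) [Smooth f] [QuasiCompact f] [Algebra k X.functionField]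
    (hk : ∀ a : k, algebraMap k X.functionField a = toStalk f (genericPoint X) a)
    (h : ¬ HilbertProp f) :
    ∃ (n : ℕ) (M : Fin n → Type) (_ : ∀ i, Field (M i)) (j : ∀ i, X.functionField →+* M i),
      (∀ i, (j i).Finite ∧ ¬ Function.Surjective (j i)) ∧
      {x : X | IsPtOf f κ x ∧ ∃ v : KVal k X.functionField, (∀ z, 0 ≤ v.ord z ↔ z ∈ stk X x) ∧
        ∀ i, ¬ ResLift (j i) v}.Finite := by
  obtain ⟨n, Y, π, hY, hfin, hsurj, W, hW, hgW, hf, hs, hn, hχ⟩ := exists_good_open f h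
  refine ⟨n, fun i => (Y i).functionField, fun i => inferInstance, fun i => kap (π i),
    fun i => ⟨hf i, hs i⟩, ?_⟩
  refine (finite_codim_one_notMem f W hgW).subset ?_
  rintro x ⟨hx, v, hv, hl⟩
  refine ⟨hx.1, fun hxW => ?_⟩
  obtain ⟨i, hi⟩ := resLift_of_mem_of_hil f hk Y π W hW hn hχ hH x hx hxW v hv
  exact hl i hi

end Pool.Agent.LibK3G
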