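import Pool.Agent.LibK3F.GF2
import Pool.Agent.LibK3G.HL3

/-!
THEOREM K3F (families): the rational curves of the generic fibre over the function field of a base
with the Hilbert property.
-/

set_option autoImplicit false

open AlgebraicGeometry CategoryTheory CategoryTheory.Limits
open Pool.Agent.LibHP Pool.Agent.LibK3 Pool.Agent.LibK3F

namespace Pool.Agent.LibK3G

theorem algebraMap_ratFunc {k K0 : Type} [Field k] [Field K0] [Algebra k K0] (c : k) :
    RatFunc.C (algebraMap k K0 c) = algebraMap k (RatFunc K0) c := by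
  have h3 : algebraMap k (RatFunc K0) c =
      algebraMap (Polynomial K0) (RatFunc K0) (algebraMap k (Polynomial K0) c) := by
    rw [RatFunc.algebraMap_apply]
    simp
  rw [h3, ← RatFunc.algebraMap_C]
  rfl

/-- Transport of lifts. -/
theorem resLift_transport {k K0 K K' M : Type} [Field k] [Field K0] [Field K] [Field K'] [Field M]
    [Algebra k K] [Algebra K0 K'] [Algebra k K0] (e : K ≃+* K')
    (he : ∀ c : k, e (algebraMap k K c) = algebraMap K0 K' (algebraMap k K0 c)) (j : K →+* M)
    (v' : KVal K0 K') : ∃ v : KVal k K, (∀ z, v.ord z = v'.ord (e z)) ∧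
      (ResLift j v → ResLift (j.comp (e.symm : K' →+* K)) v') := by
  refine ⟨{
    ord := fun z => v'.ord (e z)
    ord_zero := by rw [map_zero, v'.ord_zero]
    ord_mul := fun a b ha hb => by
      rw [map_mul]
      exact v'.ord_mul _ _ ((map_ne_zero e).2 ha) ((map_ne_zero e).2 hb)
    ord_add := fun a b ha hb hab => by
      rw [map_add]
      refine v'.ord_add _ _ ((map_ne_zero e).2 ha) ((map_ne_zero e).2 hb) ?_
      rw [← map_add]
      exact (map_ne_zero e).2 hab
    ord_const := fun c => by
      rw [he]
      exact v'.ord_const _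
    exists_ord_one := by
      obtain ⟨t, ht⟩ := v'.exists_ord_one
      exact ⟨e.symm t, by rw [e.apply_symm_apply]; exact ht⟩ }, fun z => rfl, ?_⟩
  intro h
  unfold ResLift at h ⊢
  let _ : Algebra k M := (j.comp (algebraMap k K)).toAlgebra
  obtain ⟨w, e0, he0, hw, hres⟩ := h
  have hsymm : ∀ z : K', j.comp (e.symm : K' →+* K) z = j (e.symm z) := fun z => rfl
  refine ⟨@KVal.mk K0 M _ _ ((j.comp (e.symm : K' →+* K)).comp (algebraMap K0 K')).toAlgebra
    w.ord w.ord_zero w.ord_mul w.ord_add ?_ w.exists_ord_one, e0, he0, ?_, ?_⟩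
  · intro c
    change w.ord (j (e.symm (algebraMap K0 K' c))) = 0
    rw [hw]
    change (e0 : ℤ) * v'.ord (e (e.symm (algebraMap K0 K' c))) = 0
    rw [e.apply_symm_apply, v'.ord_const, mul_zero]
  · intro z
    change w.ord (j (e.symm z)) = e0 * v'.ord z
    rw [hw]
    change (e0 : ℤ) * v'.ord (e (e.symm z)) = _
    rw [e.apply_symm_apply]
  · intro z hz
    obtain ⟨x, hx, hx'⟩ := hres z hz
    refine ⟨e x, hx, ?_⟩
    rw [hsymm, e.symm_apply_apply]
    exact hx'

/-- Block H for families: if the Hilbert property fails for the total space then almost all the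
rational curves of the generic fibre lift to one of finitely many extensions of its function field. -/
theorem exists_resLift_of_hil {k : Type} [Field k] [CharZero k] {X Y : Scheme}
    [IsIntegral X] [IsIntegral Y] (f : X ⟶ Spec (CommRingCat.of k)) [Smooth f] [QuasiCompact f]
    [Algebra k X.functionField]
    (hk : ∀ a : k, algebraMap k X.functionField a = toStalk f (genericPoint X) a)
    (hnot : ¬ HilbertProp f) {K0 : Type} [Field K0] [Algebra k K0] (hH : Hil k (RatFunc K0))
    (h : Y ⟶ Spec (CommRingCat.of K0))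
    [Algebra K0 Y.functionField]
    (hk0 : ∀ a : K0, algebraMap K0 Y.functionField a = toStalk h (genericPoint Y) a)
    (q : Y ⟶ X) (hqi : Function.Injective q) (hq : ∀ y, Function.Bijective (q.stalkMap y).hom)
    (hc : q ≫ f = h ≫ Spec.map (CommRingCat.ofHom (algebraMap k K0))) :
    ∃ (n : ℕ) (M : Fin n → Type) (_ : ∀ i, Field (M i)) (j : ∀ i, Y.functionField →+* M i),
      (∀ i, (j i).Finite ∧ ¬ Function.Surjective (j i)) ∧
      ∀ y : ℕ → Y, Function.Injective y → (∀ m, IsRatPt h (y m)) →
        ∃ m0 : ℕ, ∀ m ≥ m0, ∀ v : KVal K0 Y.functionField,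
          (∀ z, 0 ≤ v.ord z ↔ z ∈ stk Y (y m)) → ∃ i, ResLift (j i) v := by
  obtain ⟨N, M, hM, j, hj, hfin⟩ := finite_not_resLift_of_hil hH f hk hnot
  obtain ⟨e, he⟩ := exists_ff q hq
  have hconst : ∀ c : k, e (algebraMap k X.functionField c) =
      algebraMap K0 Y.functionField (algebraMap k K0 c) := by
    intro c
    have h1 : algebraMap k X.functionField c =
        algebraMap (X.presheaf.stalk (q (genericPoint Y))) X.functionField
          (toStalk f (q (genericPoint Y)) c) := by
      rw [hk, toStalk, toStalk, gf2_algebraMap]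
      change _ = (X.presheaf.germ ⊤ _ trivial ≫ X.presheaf.stalkSpecializes _) _
      rw [TopCat.Presheaf.germ_stalkSpecializes]
      rfl
    rw [h1, he, stalkMap_toStalk q f h hc, hk0]
    change (Y.presheaf.stalkSpecializes _) _ = _
    rw [TopCat.Presheaf.stalkSpecializes_refl]
    rfl
  refine ⟨N, M, hM, fun i => (j i).comp (e.symm : Y.functionField →+* X.functionField),
    fun i => ⟨?_, ?_⟩, fun y hinj hy => ?_⟩
  · exact (hj i).1.comp (RingHom.Finite.of_surjective _ e.symm.surjective)
  · intro hs
    apply (hj i).2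
    intro z
    obtain ⟨w, hw⟩ := hs z
    exact ⟨e.symm w, hw⟩
  · have hinj2 : Function.Injective fun m => q (y m) := hqi.comp hinj
    have hfin2 := hfin.preimage hinj2.injOn
    obtain ⟨m0, hm0⟩ := hfin2.bddAbove
    refine ⟨m0 + 1, fun m hm v hv => ?_⟩
    by_contra hcon
    push Not at hcon
    choose w hw1 hw2 using fun i => resLift_transport (k := k) e hconst (j i) v
    have hrat : IsPtOf f (RatFunc K0) (q (y m)) := by
      obtain ⟨h1, Φ, hΦ⟩ := hy m
      obtain ⟨ρ, hρ⟩ := exists_resEquiv q (y m) (hq (y m))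
      refine ⟨by rw [krullDim_eq q (y m) (hq (y m)), h1], ρ.trans Φ, fun c => ?_⟩
      change Φ (ρ (X.residue (q (y m)) (toStalk f (q (y m)) c))) = _
      rw [hρ, stalkMap_toStalk q f h hc, hΦ]
      exact algebraMap_ratFunc c
    -- one valuation on the function field of `X`
    obtain ⟨v0, hv0, -⟩ := resLift_transport (k := k) e hconst (RingHom.id X.functionField) v
    have h2 := hm0 (show m ∈ (fun m => q (y m)) ⁻¹' _ from ⟨hrat, v0, fun z => by
      rw [hv0, hv, stk_eq q e (y m) (he (y m)) (hq (y m))], fun i hi => by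
      apply hcon i
      apply hw2 i
      have h3 : w i = v0 := by
        have h4 : (w i).ord = v0.ord := funext fun z => by rw [hw1, hv0]
        cases hwi : w i
        cases hv : v0
        rw [hwi, hv] at h4
        simp only at h4
        subst h4
        rfl
      rw [h3]
      exact hi⟩)
    omega

end Pool.Agent.LibK3G
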