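import Pool.Agent.LibK3G.HL4
import Pool.Agent.LibK3G.CV6
import Pool.Agent.LibK3F.EMB

/-!
The function field of a variety over a finitely generated field.
-/

set_option autoImplicit false

open AlgebraicGeometry CategoryTheory CategoryTheory.Limits
open Pool.Agent.LibHP

namespace Pool.Agent.LibK3G

theorem countable_of_essFiniteType (k K : Type) [Field k] [Countable k] [Field K] [Algebra k K]
    [hess : Algebra.EssFiniteType k K] : Countable K := by
  obtain ⟨A, M, hA, hM⟩ := (Algebra.essFiniteType_iff_exists_subalgebra (R := k) (S := K)).1 hess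
  obtain ⟨n, φ, hφ⟩ := Algebra.FiniteType.iff_quotient_mvPolynomial''.1 hA
  have h1 : Countable (MvPolynomial (Fin n) k) := by
    rw [← Cardinal.mk_le_aleph0_iff]
    refine MvPolynomial.cardinalMk_le_max.trans ?_
    exact max_le (max_le (Cardinal.mk_le_aleph0_iff.2 inferInstance) Cardinal.mk_le_aleph0) le_rfl
  have h2 : Countable A := hφ.countable
  have h3 : Function.Surjective (fun p : A × M => IsLocalization.mk' K p.1 p.2) := by
    intro z
    obtain ⟨a, b, h⟩ := IsLocalization.exists_mk'_eq M z
    exact ⟨(a, b), h⟩
  exact h3.countable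

/-- The function field of a variety is finitely generated. -/
theorem essFiniteType_functionField {k : Type} [Field k] {S : Scheme.{0}} [IsIntegral S]
    (s : S ⟶ Spec (CommRingCat.of k)) [LocallyOfFiniteType s] [Algebra k S.functionField]
    (hk : ∀ a : k, algebraMap k S.functionField a = toStalk s (genericPoint S) a) :
    Algebra.EssFiniteType k S.functionField := by
  obtain ⟨V, hV, hgV, -⟩ := S.isBasis_affineOpens.exists_subset_of_mem_open
    (Set.mem_univ (genericPoint S)) isOpen_univ
  obtain ⟨V, hV, rfl⟩ := hV
  have hneV : Nonempty V := ⟨⟨_, hgV⟩⟩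
  have hfr := functionField_isFractionRing_of_isAffineOpen S V hV
  let _ : Algebra k Γ(S, V) := (toSec s V).toAlgebra
  have hft : Algebra.FiniteType k Γ(S, V) := by
    have h2 : (toSec s V).FiniteType := by
      refine RingHom.FiniteType.comp (g := (s.appLE ⊤ V le_top).hom)
        (s.finiteType_appLE (isAffineOpen_top _) hV le_top) ?_
      exact RingHom.FiniteType.of_surjective _
        ((ConcreteCategory.isIso_iff_bijective
          (Scheme.ΓSpecIso (CommRingCat.of k)).inv).mp inferInstance).2
    exact h2
  have htow : IsScalarTower k Γ(S, V) S.functionField := by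
    refine IsScalarTower.of_algebraMap_eq fun c => ?_
    rw [hk]
    have h3 : s.appLE ⊤ V le_top ≫ S.presheaf.germ V (genericPoint S) hgV =
        s.appTop ≫ S.presheaf.germ ⊤ (genericPoint S) trivial := by
      rw [Scheme.Hom.appLE, Category.assoc, TopCat.Presheaf.germ_res]
      rfl
    exact (congrArg (fun q => q ((Scheme.ΓSpecIso (CommRingCat.of k)).inv c)) h3).symm
  have h1 : Algebra.EssFiniteType Γ(S, V) S.functionField :=
    Algebra.EssFiniteType.of_isLocalization _ (nonZeroDivisors Γ(S, V))
  exact Algebra.EssFiniteType.comp k Γ(S, V) S.functionField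

end Pool.Agent.LibK3G
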