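import Pool.Agent.LibK3G.MN1
import Pool.Agent.LibK3P.FINS

section

/-!
THEOREM K3F++: families of surfaces over a base with the Hilbert property.
-/

set_option autoImplicit false

open AlgebraicGeometry CategoryTheory CategoryTheory.Limits
open Pool.Agent.LibHP Pool.Agent.LibK3 Pool.Agent.LibK3M Pool.Agent.LibK3P Pool.Agent.LibK3F

namespace Pool.Agent.LibK3G

/-- The final step over a general field `K0` which is the function field of a base with the Hilbert
property over `k`. -/
theorem main_of_hil {k K0 : Type} [Field k] [CharZero k] [Field K0] [CharZero K0] [Algebra k K0]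
    [Countable K0] (hspec : HasSpec K0) (hH : Hil k K0) {X Y : Scheme.{0}} [IsIntegral X]
    [IsIntegral Y] (f : X ⟶ Spec (CommRingCat.of k)) [Smooth f] [QuasiCompact f] (q : Y ⟶ X)
    (hqi : Function.Injective q) (hq : ∀ y, Function.Bijective (q.stalkMap y).hom)
    (h : Y ⟶ Spec (CommRingCat.of K0)) [Smooth h] [IsSeparated h] [QuasiCompact h]
    (hqf : q ≫ f = h ≫ Spec.map (CommRingCat.ofHom (algebraMap k K0)))
    [Algebra K0 Y.functionField]
    (hk0 : ∀ a : K0, algebraMap K0 Y.functionField a = toStalk h (genericPoint Y) a)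
    {ι : Type} [Finite ι] {c : ι → Y.functionField} (hc : IsProjEmb h c)
    (hdim : Algebra.trdeg K0 Y.functionField = 2) (g : Y ≅ Y) (hg : g.hom ≫ h = h) (x₀ : Y)
    (hx₀ : IsRatPt h x₀)
    (hgr : ∃ μ a : ℝ, 1 < μ ∧ 0 < a ∧ ∀ m : ℕ, ∃ d : ℕ,
      HasDeg (k := K0) c ((fun y : Y => g.hom y)^[m] x₀) d ∧ a * μ ^ m ≤ d)
    (U : Y.Opens) [Nonempty U] (hU : GeomSimplyConnected (U.ι ≫ h) ∨ (x₀ ∈ U ∧ CurveGenerates U x₀))
    (horb : ∀ b ∈ U, ringKrullDim (Y.presheaf.stalk b) = 1 →
      {y : Y | ∃ s : Y ≅ Y, s.hom ≫ h = h ∧ s.hom b = y}.Infinite) :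
    HilbertProp f := by
  by_contra hnot
  let _ : Algebra K0 ℂ := (Classical.choice (exists_embedding_complex K0)).toAlgebra
  let _ : Algebra k X.functionField := (toStalk f (genericPoint X)).toAlgebra
  obtain ⟨μ, a, hμ, ha, hd⟩ := hgr
  choose d hd1 hd2 using hd
  have hgs : g.symm.hom ≫ h = h := by rw [Iso.symm_hom, Iso.inv_comp_eq, hg]
  have hB : Bridged (k := K0) c g.symm (fun m => (fun y : Y => g.hom y)^[m] x₀) :=
    bridge_main0 h hk0 hc hdim g.symm hgs _ (fun m => Function.iterate_succ_apply' _ m x₀) hx₀ d hd1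
      hμ ha hd2
  obtain ⟨g', hg', hB', hper⟩ := bridge_pp hk0 hc hgs
    (fun m => Function.iterate_succ_apply' _ m x₀) hB U horb
  obtain ⟨n, M, hM, j, hj, hfin⟩ := exists_resLift_of_hil f (fun _ => rfl) hnot
    (hil_ratFunc k K0 hspec hH) h hk0 q hqi hq hqf
  have hx' : ∀ m, (fun y : Y => g'.inv y)^[m + 1] x₀ = g'.inv ((fun y : Y => g'.inv y)^[m] x₀) :=
    fun m => Function.iterate_succ_apply' _ m x₀
  obtain ⟨m0, hm0⟩ := hfin (fun m => (fun y : Y => g'.inv y)^[m] x₀)
    (Bridged.injective (f := h) hx' hB') (isRatPt_seq h g' hg' _ hx₀ hx')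
  exact Bridged.false_of hk0 hc hdim hB' U hU hper M j hj ⟨m0, hm0⟩

/-- The constants of a stalk. -/
theorem fromSpecStalk_comp {k : Type} [Field k] {S : Scheme.{0}}
    (s : S ⟶ Spec (CommRingCat.of k)) (z : S) :
    S.fromSpecStalk z ≫ s = Spec.map (CommRingCat.ofHom (toStalk s z)) := by
  have h1 : s = S.toSpecΓ ≫ Spec.map s.appTop ≫
      Spec.map (Scheme.ΓSpecIso (CommRingCat.of k)).inv := by
    have h2 := Scheme.toSpecΓ_naturality s
    rw [← SpecMap_ΓSpecIso_hom] at h2
    rw [← Category.assoc, ← h2, Category.assoc, ← Spec.map_comp, Iso.inv_hom_id, Spec.map_id,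
      Category.comp_id]
  have h3 : CommRingCat.ofHom (toStalk s z) = (Scheme.ΓSpecIso (CommRingCat.of k)).inv ≫
      s.appTop ≫ S.presheaf.germ ⊤ z trivial := rfl
  rw [h3, Spec.map_comp, Spec.map_comp, ← Scheme.fromSpecStalk_toSpecΓ, Category.assoc,
    Category.assoc]
  exact congrArg (fun q => S.fromSpecStalk z ≫ q) h1

/-- **THEOREM K3F++.** -/
theorem main_family {k : Type} [Field k] [CharZero k] [Algebra.EssFiniteType ℚ k]
    {S X Y : Scheme.{0}} [IsIntegral S] [IsIntegral X] [IsIntegral Y]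
    (s : S ⟶ Spec (CommRingCat.of k)) [LocallyOfFiniteType s]
    (hn : ∀ z : S, IsIntegrallyClosed (S.presheaf.stalk z)) (hS : HilbertProp s)
    (f : X ⟶ Spec (CommRingCat.of k)) [Smooth f] [QuasiCompact f] (p : X ⟶ S) (hp : p ≫ s = f)
    (q : Y ⟶ X) (h : Y ⟶ Spec (CommRingCat.of S.functionField))
    (hpb : IsPullback q h p (S.fromSpecStalk (genericPoint S)))
    [Smooth h] [IsSeparated h] [QuasiCompact h] [Algebra S.functionField Y.functionField]
    (hk0 : ∀ a : S.functionField,
      algebraMap S.functionField Y.functionField a = toStalk h (genericPoint Y) a)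
    {ι : Type} [Finite ι] {c : ι → Y.functionField} (hc : IsProjEmb h c)
    (hdim : Algebra.trdeg S.functionField Y.functionField = 2)
    (g : Y ≅ Y) (hg : g.hom ≫ h = h) (x₀ : Y) (hx₀ : IsRatPt h x₀)
    (hgr : ∃ μ a : ℝ, 1 < μ ∧ 0 < a ∧ ∀ m : ℕ, ∃ d : ℕ,
      HasDeg (k := S.functionField) c ((fun y : Y => g.hom y)^[m] x₀) d ∧ a * μ ^ m ≤ d)
    (U : Y.Opens) [Nonempty U] (hU : GeomSimplyConnected (U.ι ≫ h) ∨ (x₀ ∈ U ∧ CurveGenerates U x₀))
    (horb : ∀ b ∈ U, ringKrullDim (Y.presheaf.stalk b) = 1 →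
      {y : Y | ∃ s : Y ≅ Y, s.hom ≫ h = h ∧ s.hom b = y}.Infinite) :
    HilbertProp f := by
  let _ : Algebra k S.functionField := (toStalk s (genericPoint S)).toAlgebra
  have hks : ∀ a : k, algebraMap k S.functionField a = toStalk s (genericPoint S) a := fun _ => rfl
  have hess : Algebra.EssFiniteType k S.functionField := essFiniteType_functionField s hks
  have hch : CharZero S.functionField :=
    charZero_of_injective_algebraMap (algebraMap k S.functionField).injective
  have hct1 : Countable k := countable_of_essFiniteType ℚ k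
  have hct : Countable S.functionField := countable_of_essFiniteType k S.functionField
  have hspec : HasSpec S.functionField := hasSpec_fg k S.functionField (hasSpec_of_fg k)
  have hqf : q ≫ f = h ≫ Spec.map (CommRingCat.ofHom (algebraMap k S.functionField)) := by
    rw [← hp, ← Category.assoc, hpb.w, Category.assoc, fromSpecStalk_comp]
  exact main_of_hil hspec (hil_of_hilbertProp s hks hn hS) f q
    (injective_fst p q (genericPoint S) h hpb) (stalkMap_bijective p q (genericPoint S) h hpb) h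
    hqf hk0 hc hdim g hg x₀ hx₀ hgr U hU horb

end Pool.Agent.LibK3G

end

section

/-!
THEOREM K3F++: the final form.
-/

set_option autoImplicit false

open AlgebraicGeometry CategoryTheory CategoryTheory.Limits
open Pool.Agent.LibHP Pool.Agent.LibK3 Pool.Agent.LibK3M Pool.Agent.LibK3P Pool.Agent.LibK3F

namespace Pool.Agent.LibK3G

/-- `Y` is a smooth projective surface over the field `K` with an automorphism `g` and a rational
curve `x₀`, over `K`, such that the degrees of the curves `g^m x₀` grow exponentially, and there is a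
non empty open set `U` in `Y` which has no nontrivial connected finite etale cover over the algebraic
closure of `K`, or which contains `x₀` and has no nontrivial integral finite etale cover with a section
over `x₀`, such that every codimension one point of `U` has an infinite orbit under the group
of the automorphisms of `Y` over `K`. -/
def DynSurface {K : Type} [Field K] {Y : Scheme} [IsIntegral Y]
    (h : Y ⟶ Spec (CommRingCat.of K)) : Prop :=
  letI : Algebra K Y.functionField := (toStalk h (genericPoint Y)).toAlgebra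
  Smooth h ∧ IsSeparated h ∧ QuasiCompact h ∧ Algebra.trdeg K Y.functionField = 2 ∧
    ∃ (ι : Type) (_ : Finite ι) (c : ι → Y.functionField) (g : Y ≅ Y) (x₀ : Y) (U : Y.Opens),
      IsProjEmb h c ∧ g.hom ≫ h = h ∧ IsRatPt h x₀ ∧
      (∃ μ a : ℝ, 1 < μ ∧ 0 < a ∧ ∀ m : ℕ, ∃ d : ℕ,
        HasDeg (k := K) c ((fun y : Y => g.hom y)^[m] x₀) d ∧ a * μ ^ m ≤ d) ∧
      Nonempty U ∧ (GeomSimplyConnected (U.ι ≫ h) ∨ (x₀ ∈ U ∧ CurveGenerates U x₀)) ∧
      ∀ b ∈ U, ringKrullDim (Y.presheaf.stalk b) = 1 →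
        {y : Y | ∃ s : Y ≅ Y, s.hom ≫ h = h ∧ s.hom b = y}.Infinite

/-- Surfaces over a finitely generated field. -/
theorem main_surface {K : Type} [Field K] [CharZero K] [Algebra.EssFiniteType ℚ K]
    {Y : Scheme.{0}} [IsIntegral Y] (h : Y ⟶ Spec (CommRingCat.of K)) (hD : DynSurface h) :
    HilbertProp h := by
  obtain ⟨h1, h2, h3, h4, ι, hι, c, g, x₀, U, h5, h6, h7, h8, h9, h10, h11⟩ := hD
  let _ : Algebra K Y.functionField := (toStalk h (genericPoint Y)).toAlgebra
  have hct : Countable K := countable_of_essFiniteType ℚ K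
  refine main_of_hil (k := K) (K0 := K) (hasSpec_of_fg K) (hil_self K) h (𝟙 Y)
    (fun a b hab => hab) (fun y => ?_) h ?_ (fun _ => rfl) h5 h4 g h6 x₀ h7 h8 U h10 h11
  · exact (ConcreteCategory.isIso_iff_bijective ((𝟙 Y : Y ⟶ Y).stalkMap y)).1 inferInstance
  · have h12 : CommRingCat.ofHom (algebraMap K K) = 𝟙 (CommRingCat.of K) := rfl
    rw [h12, Spec.map_id, Category.id_comp, Category.comp_id]

/-- Families over a base with the Hilbert property. -/
theorem main_dyn {k : Type} [Field k] [CharZero k] [Algebra.EssFiniteType ℚ k]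
    {S X Y : Scheme.{0}} [IsIntegral S] [IsIntegral X] [IsIntegral Y]
    (s : S ⟶ Spec (CommRingCat.of k)) [LocallyOfFiniteType s]
    (hn : ∀ z : S, IsIntegrallyClosed (S.presheaf.stalk z)) (hS : HilbertProp s)
    (f : X ⟶ Spec (CommRingCat.of k)) [Smooth f] [QuasiCompact f] (p : X ⟶ S) (hp : p ≫ s = f)
    (q : Y ⟶ X) (h : Y ⟶ Spec (CommRingCat.of S.functionField))
    (hpb : IsPullback q h p (S.fromSpecStalk (genericPoint S))) (hD : DynSurface h) :
    HilbertProp f := by
  obtain ⟨h1, h2, h3, h4, ι, hι, c, g, x₀, U, h5, h6, h7, h8, h9, h10, h11⟩ := hD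
  let _ : Algebra S.functionField Y.functionField := (toStalk h (genericPoint Y)).toAlgebra
  exact main_family s hn hS f p hp q h hpb (fun _ => rfl) h5 h4 g h6 x₀ h7 h8 U h10 h11

end Pool.Agent.LibK3G

end
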