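import Pool.Agent.LibK3G.MN3

/-!
THEOREM K3F++: the public form of the hypotheses.
-/

set_option autoImplicit false

open AlgebraicGeometry CategoryTheory CategoryTheory.Limits
open Pool.Agent.LibHP Pool.Agent.LibK3 Pool.Agent.LibK3M Pool.Agent.LibK3P Pool.Agent.LibK3F

namespace Pool.Agent.LibK3G

section

variable {k : Type} [Field k] [CharZero k] {X : Scheme} [IsIntegral X]
  (f : X ⟶ Spec (CommRingCat.of k)) [Algebra k X.functionField]

omit [CharZero k] [Algebra k X.functionField] in
private theorem PUB_toStalk (x : X) (a : k) :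
    algebraMap (X.presheaf.stalk x) X.functionField (toStalk f x a) =
      toStalk f (genericPoint X) a := by
  have h := TopCat.Presheaf.germ_stalkSpecializes X.presheaf (U := ⊤) (y := x) (x := genericPoint X)
    trivial ((genericPoint_spec X).specializes trivial)
  have h2 : algebraMap (X.presheaf.stalk x) X.functionField (toStalk f x a) =
      (((Scheme.ΓSpecIso (CommRingCat.of k)).inv ≫ f.appTop ≫
        X.presheaf.germ ⊤ x trivial) ≫ X.presheaf.stalkSpecializes
          ((genericPoint_spec X).specializes trivial)).hom a := rfl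
  rw [h2, Category.assoc, Category.assoc, h]
  rfl

/-- The residue map of the valuation of a rational curve given by a coordinate of the curve. -/
theorem exists_res_phi (hk : ∀ a : k, algebraMap k X.functionField a =
    toStalk f (genericPoint X) a) (x : X) (φ : X.residueField x ≃+* RatFunc k)
    (hφ : ∀ c : k, φ (X.residue x (toStalk f x c)) = RatFunc.C c) (v : KVal k X.functionField)
    (hv : ∀ z, 0 ≤ v.ord z ↔ z ∈ stk X x) :
    ∃ r : v.ring →ₐ[k] RatFunc k, IsResMap v r ∧
      ∀ (z : v.ring) (s : X.presheaf.stalk x),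
        algebraMap (X.presheaf.stalk x) X.functionField s = (z : X.functionField) →
          r z = φ (X.residue x s) := by
  have hinj : Function.Injective (algebraMap (X.presheaf.stalk x) X.functionField) :=
    IsFractionRing.injective (X.presheaf.stalk x) X.functionField
  have hS : ∀ z : v.ring, ∃ s : X.presheaf.stalk x,
      algebraMap (X.presheaf.stalk x) X.functionField s = (z : X.functionField) := by
    intro z
    exact (hv z).1 z.2
  choose S hS using hS
  have hmem : ∀ s : X.presheaf.stalk x,
      0 ≤ v.ord (algebraMap (X.presheaf.stalk x) X.functionField s) := fun s => (hv _).2 ⟨s, rfl⟩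
  let ρ : X.presheaf.stalk x →+* RatFunc k := φ.toRingHom.comp (X.residue x).hom
  have hρ : ∀ s, ρ s = φ (X.residue x s) := fun s => rfl
  have hSeq : ∀ (z : v.ring) (s : X.presheaf.stalk x),
      algebraMap (X.presheaf.stalk x) X.functionField s = (z : X.functionField) → S z = s := by
    intro z s h
    apply hinj
    rw [hS, h]
  let r : v.ring →ₐ[k] RatFunc k :=
    { toFun := fun z => ρ (S z)
      map_one' := by
        rw [hSeq 1 1 (by rw [map_one]; rfl), map_one]
      map_mul' := by
        intro a b
        rw [hSeq (a * b) (S a * S b) (by rw [map_mul, hS, hS]; rfl), map_mul]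
      map_zero' := by
        rw [hSeq 0 0 (by rw [map_zero]; rfl), map_zero]
      map_add' := by
        intro a b
        rw [hSeq (a + b) (S a + S b) (by rw [map_add, hS, hS]; rfl), map_add]
      commutes' := by
        intro a
        rw [hSeq (algebraMap k v.ring a) (toStalk f x a)
          (by rw [PUB_toStalk, ← hk]; rfl), hρ, hφ]
        exact (RatFunc.algebraMap_eq_C (K := k) ▸ rfl) }
  have hr : ∀ z, r z = ρ (S z) := fun z => rfl
  refine ⟨r, ⟨?_, ?_⟩, fun z s hs => by rw [hr, hSeq z s hs, hρ]⟩
  · intro y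
    obtain ⟨s, hs⟩ := X.residue_surjective x (φ.symm y)
    refine ⟨⟨algebraMap (X.presheaf.stalk x) X.functionField s, hmem s⟩, ?_⟩
    rw [hr, hSeq _ s rfl, hρ, hs, RingEquiv.apply_symm_apply]
  · intro z
    have h1 : r z = 0 ↔ S z ∈ IsLocalRing.maximalIdeal (X.presheaf.stalk x) := by
      rw [hr, hρ, map_eq_zero_iff φ φ.injective]
      exact IsLocalRing.residue_eq_zero_iff (S z)
    rw [h1, IsLocalRing.mem_maximalIdeal, mem_nonunits_iff]
    constructor
    · intro h
      by_contra hcon
      push Not at hcon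
      obtain ⟨hz0, hz1⟩ := hcon
      have hz : v.ord (z : X.functionField) = 0 := le_antisymm hz1 z.2
      have hinv : 0 ≤ v.ord (z : X.functionField)⁻¹ := by
        rw [v.ord_inv, hz, neg_zero]
      obtain ⟨s', hs'⟩ := (hv _).1 hinv
      apply h
      refine IsUnit.of_mul_eq_one s' ?_
      apply hinj
      rw [map_mul, hS, hs', map_one, mul_inv_cancel₀ hz0]
    · rintro h hu
      obtain ⟨u, hu⟩ := hu
      have h2 : algebraMap (X.presheaf.stalk x) X.functionField ((u⁻¹ : (X.presheaf.stalk x)ˣ) :
          X.presheaf.stalk x) * (z : X.functionField) = 1 := by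
        rw [← hS z, ← map_mul, ← hu, Units.inv_mul, map_one]
      have hz0 : (z : X.functionField) ≠ 0 := by
        intro h0
        rw [h0, mul_zero] at h2
        exact zero_ne_one h2
      have hz1 : 0 < v.ord (z : X.functionField) := by
        rcases h with h | h
        · exact absurd h hz0
        · exact h
      have h3 := hmem ((u⁻¹ : (X.presheaf.stalk x)ˣ) : X.presheaf.stalk x)
      rw [eq_inv_of_mul_eq_one_left h2, v.ord_inv] at h3
      omega


end

/-- `C` is the generic point of a rational curve over `K` in `Y`, and `d` is the degree of this curve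
with respect to the homogeneous coordinates `c`: the local ring of `Y` at `C` has dimension one, its
residue field is the field `K(t)`, and the restrictions of the homogeneous coordinates to the curve
are, up to a common factor, polynomials in `t` without common factor, with maximal degree `d`. -/
def CurveDeg {K : Type} [Field K] {Y : Scheme} [IsIntegral Y] (h : Y ⟶ Spec (CommRingCat.of K))
    {ι : Type} (c : ι → Y.functionField) (C : Y) (d : ℕ) : Prop :=
  ringKrullDim (Y.presheaf.stalk C) = 1 ∧
    ∃ φ : Y.residueField C ≃+* RatFunc K,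
      (∀ a : K, φ (Y.residue C (toStalk h C a)) = RatFunc.C a) ∧
      ∃ (z : Y.functionField) (b : ι → Y.presheaf.stalk C) (p : ι → Polynomial K),
        (∀ i, algebraMap (Y.presheaf.stalk C) Y.functionField (b i) = c i * z) ∧
        (∀ i, φ (Y.residue C (b i)) = algebraMap (Polynomial K) (RatFunc K) (p i)) ∧
        (∀ r : Polynomial K, (∀ i, r ∣ p i) → IsUnit r) ∧
        (∀ i, (p i).natDegree ≤ d) ∧ ∃ i, (p i).natDegree = d

theorem CurveDeg.isRatPt {K : Type} [Field K] {Y : Scheme} [IsIntegral Y]
    {h : Y ⟶ Spec (CommRingCat.of K)} {ι : Type} {c : ι → Y.functionField} {C : Y} {d : ℕ}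
    (H : CurveDeg h c C d) : IsRatPt h C := by
  obtain ⟨h1, φ, hφ, -⟩ := H
  exact ⟨h1, φ, hφ⟩

theorem CurveDeg.hasDeg {K : Type} [Field K] [CharZero K] {Y : Scheme} [IsIntegral Y]
    {h : Y ⟶ Spec (CommRingCat.of K)} [Smooth h] [Algebra K Y.functionField]
    (hk : ∀ a : K, algebraMap K Y.functionField a = toStalk h (genericPoint Y) a)
    {ι : Type} [Finite ι] {c : ι → Y.functionField} (hc : IsProjEmb h c) {C : Y} {d : ℕ}
    (H : CurveDeg h c C d) : HasDeg (k := K) c C d := by
  obtain ⟨h1, φ, hφ, z, b, p, hb, hp, hcop, hle, i₀, hi₀⟩ := H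
  obtain ⟨v, hv, -⟩ := exists_kval h hk hc C h1
  obtain ⟨r, hr, hrφ⟩ := exists_res_phi h hk C φ hφ v hv
  have hz : ∀ i, c i * z ∈ v.ring := fun i => (hv _).2 ⟨b i, hb i⟩
  have hrp : ∀ i, r ⟨c i * z, hz i⟩ = algebraMap (Polynomial K) (RatFunc K) (p i) := fun i => by
    rw [hrφ ⟨c i * z, hz i⟩ (b i) (hb i), hp]
  -- some polynomial is not zero
  obtain ⟨j, hj⟩ : ∃ j, p j ≠ 0 := by
    by_contra hcon
    push Not at hcon
    exact Polynomial.not_isUnit_X (hcop Polynomial.X fun i => by
      rw [hcon i]
      exact dvd_zero _)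
  refine ⟨v, r, hv, hr, z, hz, ⟨j, ?_⟩, 1, p, one_ne_zero, fun i => by rw [one_mul]; exact hrp i,
    hcop, hle, ?_⟩
  · rw [hrp]
    exact RatFunc.algebraMap_ne_zero hj
  · rcases Nat.eq_zero_or_pos d with hd | hd
    · exact ⟨j, hj, le_antisymm (hle j) (by omega)⟩
    · refine ⟨i₀, ?_, hi₀⟩
      rintro h0
      rw [h0, Polynomial.natDegree_zero] at hi₀
      omega

/-- `Y` is a smooth projective surface over the field `K`, with an automorphism `g` and a rational
curve `C` over `K` such that the degrees of the curves `g^m C` grow exponentially, and with a non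
empty open set `U` such that every codimension one point of `U` has infinitely many images under the
automorphisms of `Y` over `K`, and such that either `U` has no nontrivial connected finite etale cover
over the algebraic closure of `K`, or `C` is in `U` and every integral finite etale cover of `U` with a
section over the generic point of `C` is an isomorphism. -/
def EntropySurface {K : Type} [Field K] {Y : Scheme} [IsIntegral Y]
    (h : Y ⟶ Spec (CommRingCat.of K)) : Prop :=
  letI : Algebra K Y.functionField := (toStalk h (genericPoint Y)).toAlgebra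
  Smooth h ∧ IsSeparated h ∧ QuasiCompact h ∧ Algebra.trdeg K Y.functionField = 2 ∧
    ∃ (ι : Type) (_ : Finite ι) (c : ι → Y.functionField) (g : Y ≅ Y) (C : Y) (U : Y.Opens)
      (μ a : ℝ), IsProjEmb h c ∧ g.hom ≫ h = h ∧ 1 < μ ∧ 0 < a ∧
      (∀ m : ℕ, ∃ d : ℕ, CurveDeg h c ((fun y : Y => g.hom y)^[m] C) d ∧ a * μ ^ m ≤ d) ∧
      Nonempty U ∧ (GeomSimplyConnected (U.ι ≫ h) ∨ (C ∈ U ∧ CurveGenerates U C)) ∧
      ∀ b ∈ U, ringKrullDim (Y.presheaf.stalk b) = 1 →
        {y : Y | ∃ s : Y ≅ Y, s.hom ≫ h = h ∧ s.hom b = y}.Infinite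

theorem EntropySurface.dynSurface {K : Type} [Field K] [CharZero K] {Y : Scheme} [IsIntegral Y]
    {h : Y ⟶ Spec (CommRingCat.of K)} (H : EntropySurface h) : DynSurface h := by
  obtain ⟨h1, h2, h3, h4, ι, hι, c, g, C, U, μ, a, h5, h6, hμ, ha, h8, h9, h10, h11⟩ := H
  let _ : Algebra K Y.functionField := (toStalk h (genericPoint Y)).toAlgebra
  obtain ⟨d0, hd0, -⟩ := h8 0
  refine ⟨h1, h2, h3, h4, ι, hι, c, g, C, U, h5, h6, hd0.isRatPt, ⟨μ, a, hμ, ha, fun m => ?_⟩, h9,
    h10, h11⟩
  obtain ⟨d, hd, hd'⟩ := h8 m
  exact ⟨d, hd.hasDeg (fun _ => rfl) h5, hd'⟩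

end Pool.Agent.LibK3G
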