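import Pool.Agent.LibK3G.WH4
import Pool.Agent.LibK3G.HL2
import Pool.Agent.LibHP.F2

/-!
Rational varieties over a finitely generated field have the Hilbert property.
-/

set_option autoImplicit false

open AlgebraicGeometry CategoryTheory CategoryTheory.Limits
open Pool.Agent.LibHP Pool.Agent.LibK3

namespace Pool.Agent.LibK3G

/-- The Hilbert property of the function field implies the Hilbert property of a normal model. -/
theorem hilbertProp_of_hil {k : Type} [Field k] [CharZero k] {Z : Scheme.{0}} [IsIntegral Z]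
    (z : Z ⟶ Spec (CommRingCat.of k)) [LocallyOfFiniteType z]
    (hn : ∀ x : Z, IsIntegrallyClosed (Z.presheaf.stalk x)) [Algebra k Z.functionField]
    (hk : ∀ a : k, algebraMap k Z.functionField a = toStalk z (genericPoint Z) a)
    (hH : Hil k Z.functionField) : HilbertProp z := by
  by_contra h
  unfold HilbertProp at h
  push Not at h
  obtain ⟨m, Y, π, hY, hfin, hsurj, hiso, hnd⟩ := h
  rw [dense_iff_inter_open] at hnd
  push Not at hnd
  obtain ⟨U, hUo, ⟨x, hxU⟩, hUS⟩ := hnd
  obtain ⟨W, hW, hxW, hWU⟩ := Z.isBasis_affineOpens.exists_subset_of_mem_open hxU hUo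
  obtain ⟨W, hW, rfl⟩ := hW
  have hgW : genericPoint Z ∈ W := genericPoint_mem W x hxW
  have hneW : Nonempty W := ⟨⟨_, hgW⟩⟩
  have hχ : ∀ χ : Γ(Z, W) →+* k, (∀ c, χ (toSec z W c) = c) →
      ∃ i, ∃ τ : Γ(Y i, π i ⁻¹ᵁ W) →+* k, τ.comp ((π i).app W).hom = χ := by
    intro χ hχ
    by_contra hcon
    push Not at hcon
    have h2 : (Spec.map (CommRingCat.ofHom χ) ≫ hW.fromSpec :
        Spec (CommRingCat.of k) ⟶ Z) (IsLocalRing.closedPoint k) ∈ U ∩
        {x : Z | ∃ s : Spec (CommRingCat.of k) ⟶ Z, s ≫ z = 𝟙 _ ∧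
      x ∈ Set.range s.base ∧
      ∀ i (t : Spec (CommRingCat.of k) ⟶ Y i), t ≫ π i ≠ s} := by
      refine ⟨?_, ?_⟩
      · apply hWU
        have h4 := preimage_eq_top W hW χ
        have h5 : (IsLocalRing.closedPoint k) ∈
          (Spec.map (CommRingCat.ofHom χ) ≫ hW.fromSpec :
            Spec (CommRingCat.of k) ⟶ Z) ⁻¹ᵁ W := by
          rw [h4]; trivial
        exact h5
      · refine ⟨_, point_comp z W hW χ hχ, ⟨_, rfl⟩, ?_⟩
        intro i t ht
        have := hfin i
        obtain ⟨τ, hτ⟩ := exists_lift_of_point (π i) W hW χ t ht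
        exact hcon i τ hτ
    rw [hUS] at h2
    exact h2
  have hnorm : ∀ x : Z, ∃ V : Z.Opens, IsAffineOpen V ∧ x ∈ V ∧ IsIntegrallyClosed Γ(Z, V) := by
    intro x
    obtain ⟨V, hV, hxV, -⟩ := Z.isBasis_affineOpens.exists_subset_of_mem_open
      (Set.mem_univ x) isOpen_univ
    obtain ⟨V, hV, rfl⟩ := hV
    exact ⟨V, hV, hxV, isIntegrallyClosed_sections hn V hV (genericPoint_mem V x hxV)⟩
  let _ : Algebra k Γ(Z, W) := (toSec z W).toAlgebra
  have hft : Algebra.FiniteType k Γ(Z, W) := by
    have h2 : (toSec z W).FiniteType := by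
      refine RingHom.FiniteType.comp (g := (z.appLE ⊤ W le_top).hom)
        (z.finiteType_appLE (isAffineOpen_top _) hW le_top) ?_
      exact RingHom.FiniteType.of_surjective _
        ((ConcreteCategory.isIso_iff_bijective
          (Scheme.ΓSpecIso (CommRingCat.of k)).inv).mp inferInstance).2
    exact h2
  have hfr := functionField_isFractionRing_of_isAffineOpen Z W hW
  let φA : Γ(Z, W) →ₐ[k] Z.functionField :=
    { algebraMap Γ(Z, W) Z.functionField with
      commutes' := by
        intro c
        rw [hk]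
        change Z.presheaf.germ W (genericPoint Z) hgW (toSec z W c) = _
        have h3 : z.appLE ⊤ W le_top ≫ Z.presheaf.germ W (genericPoint Z) hgW =
            z.appTop ≫ Z.presheaf.germ ⊤ (genericPoint Z) trivial := by
          rw [Scheme.Hom.appLE, Category.assoc, TopCat.Presheaf.germ_res]
          rfl
        exact congrArg (fun q => q ((Scheme.ΓSpecIso (CommRingCat.of k)).inv c)) h3 }
  have hfc : ∀ i, ((π i).app W).hom.Finite := fun i => by
    have := hfin i
    exact IsFinite.finite_app (π i) W hW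
  have hinf : Infinite k := inferInstance
  obtain ⟨i, ψ, hψ⟩ := exists_lift_hom_of_hil hH Γ(Z, W) φA
    (fun i => Γ(Y i, π i ⁻¹ᵁ W)) (fun i => ((π i).app W).hom) hfc
    (fun χ => hχ (χ : Γ(Z, W) →+* k) (fun c => χ.commutes c))
  have hYi := hY i
  have hfi := hfin i
  have hsi := hsurj i
  have h2 : genericPoint (Y i) ∈ π i ⁻¹ᵁ W := genericPoint_mem_preimage (π i) W hgW
  have hneY : Nonempty (π i ⁻¹ᵁ W : (Y i).Opens) := ⟨⟨_, h2⟩⟩
  have hfrY := functionField_isFractionRing_of_isAffineOpen (Y i) (π i ⁻¹ᵁ W) (hW.preimage (π i))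
  obtain ⟨Ψ, hΨ⟩ := exists_extension_frac (A := Γ(Z, W)) (B := Γ(Y i, π i ⁻¹ᵁ W))
    ((π i).app W).hom (hfc i)
    (kap (π i)) (fun a => kap_germ (π i) W hgW h2 a) (RingHom.id Z.functionField) ψ (by
      intro a
      exact congrArg (fun q : Γ(Z, W) →+* Z.functionField => q a) hψ)
  refine hiso i (isIso_of_kap (π i) hnorm fun y => ⟨Ψ y, Ψ.injective ?_⟩)
  exact congrArg (fun q : Z.functionField →+* Z.functionField => q (Ψ y)) hΨ

/-- Transport of the Hilbert property along an isomorphism over `k`. -/
theorem Hil.of_equiv {k κ κ' : Type} [Field k] [Field κ] [Field κ'] [Algebra k κ] [Algebra k κ']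
    (e : κ ≃ₐ[k] κ') (h : Hil k κ) : Hil k κ' := by
  intro A _ _ _ F m P hP hr
  refine h A (e.symm.toAlgHom.comp F) m P hP fun i r hir => hr i (e r) ?_
  have h1 : ((P i).map (F : A →+* κ')) =
      ((P i).map ((e.symm.toAlgHom.comp F : A →ₐ[k] κ) : A →+* κ)).map (e : κ →+* κ') := by
    rw [Polynomial.map_map]
    congr 1
    ext a
    exact (e.apply_symm_apply (F a)).symm
  rw [h1]
  exact hir.map

/-- Rational function fields over a finitely generated field have the Hilbert property. -/
theorem hil_fractionRing (k : Type) [Field k] [CharZero k] [Algebra.EssFiniteType ℚ k] (n : ℕ) :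
    Hil k (FractionRing (MvPolynomial (Fin n) k)) := by
  induction n with
  | zero =>
    have hb : Function.Bijective (algebraMap k (FractionRing (MvPolynomial (Fin 0) k))) := by
      refine ⟨(algebraMap k (FractionRing (MvPolynomial (Fin 0) k))).injective, fun y => ?_⟩
      obtain ⟨a, b, hb, rfl⟩ := IsFractionRing.div_surjective (A := MvPolynomial (Fin 0) k) y
      have h1 : ∀ a : MvPolynomial (Fin 0) k, ∃ c : k, MvPolynomial.C c = a := fun a =>
        MvPolynomial.C_surjective (Fin 0) a
      obtain ⟨a, rfl⟩ := h1 a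
      obtain ⟨b, rfl⟩ := h1 b
      refine ⟨a / b, ?_⟩
      rw [map_div₀]
      rfl
    exact Hil.of_equiv (AlgEquiv.ofBijective (Algebra.ofId k _) hb) (hil_self k)
  | succ n ih =>
    let _ : Algebra k (RatFunc (FractionRing (MvPolynomial (Fin n) k))) := inferInstance
    have hc : CharZero (FractionRing (MvPolynomial (Fin n) k)) :=
      charZero_of_injective_algebraMap
        (algebraMap k (FractionRing (MvPolynomial (Fin n) k))).injective
    have hs : HasSpec (FractionRing (MvPolynomial (Fin n) k)) := by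
      have : Algebra.EssFiniteType k (FractionRing (MvPolynomial (Fin n) k)) :=
        Algebra.EssFiniteType.comp k (MvPolynomial (Fin n) k) _
      exact hasSpec_fg k _ (hasSpec_of_fg k)
    obtain ⟨E⟩ := exists_algEquiv_ratFunc k n
    exact Hil.of_equiv E (hil_ratFunc k _ hs ih)

/-- Rational varieties over a finitely generated field have the Hilbert property. -/
theorem hilbertProp_of_rational {k : Type} [Field k] [CharZero k] [Algebra.EssFiniteType ℚ k]
    {Z : Scheme.{0}} [IsIntegral Z] (z : Z ⟶ Spec (CommRingCat.of k)) [LocallyOfFiniteType z]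
    (hn : ∀ x : Z, IsIntegrallyClosed (Z.presheaf.stalk x)) (n : ℕ)
    (e : Z.functionField ≃+* FractionRing (MvPolynomial (Fin n) k))
    (he : ∀ c : k, e (toStalk z (genericPoint Z) c) = algebraMap k _ c) : HilbertProp z := by
  let _ : Algebra k Z.functionField := (toStalk z (genericPoint Z)).toAlgebra
  refine hilbertProp_of_hil z hn (fun _ => rfl) ?_
  let e' : FractionRing (MvPolynomial (Fin n) k) ≃ₐ[k] Z.functionField :=
    AlgEquiv.ofRingEquiv (f := e.symm) fun c => by
      rw [RingEquiv.symm_apply_eq]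
      exact (he c).symm
  exact Hil.of_equiv e' (hil_fractionRing k n)

end Pool.Agent.LibK3G
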