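import Pool.Agent.LibK3G.CV6

/-!
The weak Hilbert property (Corvaja, Demeio, Javanpykar, Lombardo, Zannier) and specializations.
-/

set_option autoImplicit false

open AlgebraicGeometry CategoryTheory CategoryTheory.Limits Polynomial
open Pool.Agent.LibHP

namespace Pool.Agent.LibK3G

/-- The weak Hilbert property: the points outside the images of the rational points of finitely many
ramified normal covers are dense. -/
def WeakHilbertProp {k : Type} [Field k] {X : Scheme} (f : X ⟶ Spec (CommRingCat.of k)) : Prop :=
  ∀ (n : ℕ) (Y : Fin n → Scheme) (π : ∀ i, Y i ⟶ X),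
    (∀ i, AlgebraicGeometry.IsIntegral (Y i)) →
    (∀ i, ∀ y : Y i, IsIntegrallyClosed ((Y i).presheaf.stalk y)) →
    (∀ i, AlgebraicGeometry.IsFinite (π i)) →
    (∀ i, AlgebraicGeometry.Surjective (π i)) →
    (∀ i, ¬ AlgebraicGeometry.Etale (π i)) →
    Dense {x : X | ∃ s : Spec (CommRingCat.of k) ⟶ X, s ≫ f = 𝟙 _ ∧
      x ∈ Set.range s.base ∧
      ∀ i (t : Spec (CommRingCat.of k) ⟶ Y i), t ≫ π i ≠ s}

section

variable {S : Scheme.{0}} [IsIntegral S] [IsLocallyNoetherian S] [CharZero S.functionField]
  (hn : ∀ U : S.Opens, IsAffineOpen U → genericPoint S ∈ U → IsIntegrallyClosed Γ(S, U))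
  (M : Type) [Field M] [Algebra S.functionField M] [FiniteDimensional S.functionField M]

include hn

/-- The normalization in `M`. -/
theorem finite_normalization (U : S.Opens) (hU : IsAffineOpen U) (hg : genericPoint S ∈ U) :
    ((genPt (S := S) M).fromNormalization.app U).hom.Finite := by
  let _ := ((genPt (S := S) M).app U).hom.toAlgebra
  have := hn U hU hg
  have hne : Nonempty U := ⟨⟨_, hg⟩⟩
  have hfr := functionField_isFractionRing_of_isAffineOpen S U hU
  have hnoeth : IsNoetherianRing Γ(S, U) := IsLocallyNoetherian.component_noetherian ⟨U, hU⟩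
  have h1 : Module.Finite Γ(S, U) (integralClosure Γ(S, U)
      Γ(Spec (CommRingCat.of M), genPt (S := S) M ⁻¹ᵁ U)) :=
    finite_integralClosure (K := S.functionField) (M := M)
      (genIso M U hg).commRingCatIsoToRingEquiv (fun a => genPt_app M U hg a)
  rw [(genPt (S := S) M).fromNormalization_app hU]
  refine RingHom.Finite.comp (g := ((genPt (S := S) M).normalizationObjIso hU).inv.hom)
    (f := algebraMap _ _) ?_ ?_
  · exact RingHom.Finite.of_surjective _ ((ConcreteCategory.isIso_iff_bijective _).1
      inferInstance).2
  · exact h1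

theorem isFinite_normalization : IsFinite (genPt (S := S) M).fromNormalization := by
  refine { finite_app := fun U hU => ?_ }
  by_cases hg : genericPoint S ∈ U
  · exact finite_normalization hn M U hU hg
  · have hU0 : U = ⊥ := by
      ext x
      refine ⟨fun hx => hg ?_, fun hx => hx.elim⟩
      exact ((genericPoint_spec S).mem_open_set_iff U.2).2 ⟨x, trivial, hx⟩
    subst hU0
    have : Subsingleton Γ((genPt (S := S) M).normalization,
        (genPt (S := S) M).fromNormalization ⁻¹ᵁ ⊥) :=
      inferInstanceAs (Subsingleton Γ((genPt (S := S) M).normalization, ⊥))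
    exact RingHom.Finite.of_surjective _ fun y => ⟨0, Subsingleton.elim _ _⟩

omit [IsLocallyNoetherian S] [CharZero S.functionField] [FiniteDimensional S.functionField M] in
omit hn in
theorem surjective_normalization : Surjective (genPt (S := S) M).fromNormalization := by
  have hcl : IsClosed (Set.range (genPt (S := S) M).fromNormalization) :=
    (genPt (S := S) M).fromNormalization.isClosedMap.isClosed_range
  have hgen : genericPoint S ∈ Set.range (genPt (S := S) M).fromNormalization := by
    refine ⟨(genPt (S := S) M).toNormalization (IsLocalRing.closedPoint M), ?_⟩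
    rw [← Scheme.Hom.comp_apply, Scheme.Hom.toNormalization_fromNormalization]
    change S.fromSpecStalk (genericPoint S)
      ((Spec.map (CommRingCat.ofHom (algebraMap S.functionField M))) _) = _
    have h1 : (Spec.map (CommRingCat.ofHom (algebraMap S.functionField M)))
        (IsLocalRing.closedPoint M) = IsLocalRing.closedPoint S.functionField :=
      Subsingleton.elim _ _
    rw [h1, Scheme.fromSpecStalk_closedPoint]
  refine ⟨fun x => ?_⟩
  have h2 : (Set.univ : Set S) ⊆ Set.range (genPt (S := S) M).fromNormalization := by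
    rw [← (genericPoint_spec S), IsClosed.closure_subset_iff hcl, Set.singleton_subset_iff]
    exact hgen
  exact h2 trivial

omit [IsLocallyNoetherian S] [CharZero S.functionField] [FiniteDimensional S.functionField M] in
omit hn in
theorem exists_sections (U : S.Opens) (hU : IsAffineOpen U) (hg : genericPoint S ∈ U) :
    ∃ e : Γ((genPt (S := S) M).normalization, (genPt (S := S) M).fromNormalization ⁻¹ᵁ U) →+* M,
      Function.Injective e ∧
      (∀ a, e ((genPt (S := S) M).fromNormalization.app U a) = algebraMap S.functionField M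
        (S.presheaf.germ U (genericPoint S) hg a)) ∧
      ∀ z : M, ((algebraMap S.functionField M).comp
        (S.presheaf.germ U (genericPoint S) hg).hom).IsIntegralElem z ↔ z ∈ Set.range e := by
  let _ := ((genPt (S := S) M).app U).hom.toAlgebra
  let N := ((genPt (S := S) M).normalizationObjIso hU).commRingCatIsoToRingEquiv
  let G : Γ(Spec (CommRingCat.of M), genPt (S := S) M ⁻¹ᵁ U) ≃+* M :=
    (genIso M U hg).commRingCatIsoToRingEquiv
  have hG : G.toRingHom.comp (algebraMap Γ(S, U) _) = (algebraMap S.functionField M).comp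
      (S.presheaf.germ U (genericPoint S) hg).hom := by
    ext a
    exact genPt_app M U hg a
  refine ⟨G.toRingHom.comp ((algebraMap (integralClosure Γ(S, U)
    Γ(Spec (CommRingCat.of M), genPt (S := S) M ⁻¹ᵁ U)) _).comp N.toRingHom), ?_, ?_, ?_⟩
  · exact G.injective.comp (Subtype.val_injective.comp N.injective)
  · intro a
    have h1 : N ((genPt (S := S) M).fromNormalization.app U a) = algebraMap _ _ a := by
      rw [(genPt (S := S) M).fromNormalization_app hU]
      exact N.apply_symm_apply _
    change G (algebraMap _ _ (N ((genPt (S := S) M).fromNormalization.app U a))) = _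
    rw [h1]
    exact genPt_app M U hg a
  · intro z
    constructor
    · rintro ⟨p, hp, hpz⟩
      have h1 : IsIntegral Γ(S, U) (G.symm z) := by
        refine ⟨p, hp, ?_⟩
        apply G.injective
        rw [map_zero]
        change G.toRingHom _ = 0
        rw [Polynomial.hom_eval₂, hG, ← hpz]
        congr 1
        exact G.apply_symm_apply z
      refine ⟨N.symm ⟨G.symm z, h1⟩, ?_⟩
      change G (algebraMap _ _ (N (N.symm ⟨G.symm z, h1⟩))) = z
      rw [N.apply_symm_apply]
      exact G.apply_symm_apply z
    · rintro ⟨b, rfl⟩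
      obtain ⟨p, hp, hpz⟩ := (N b).2
      refine ⟨p, hp, ?_⟩
      have h2 := congrArg G.toRingHom hpz
      rw [Polynomial.hom_eval₂, hG, map_zero] at h2
      exact h2

omit [IsLocallyNoetherian S] [CharZero S.functionField] in
omit hn in
/-- The normalization is normal. -/
theorem isIntegrallyClosed_normalization (y : (genPt (S := S) M).normalization) :
    IsIntegrallyClosed ((genPt (S := S) M).normalization.presheaf.stalk y) := by
  obtain ⟨U, hU, hyU, -⟩ := S.isBasis_affineOpens.exists_subset_of_mem_open
    (Set.mem_univ ((genPt (S := S) M).fromNormalization y)) isOpen_univ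
  obtain ⟨U, hU, rfl⟩ := hU
  have hg : genericPoint S ∈ U := genericPoint_mem U _ hyU
  have hyV : y ∈ (genPt (S := S) M).fromNormalization ⁻¹ᵁ U := hyU
  have hV : IsAffineOpen ((genPt (S := S) M).fromNormalization ⁻¹ᵁ U) := hU.preimage _
  have hne : Nonempty U := ⟨⟨_, hg⟩⟩
  have hneV : Nonempty ((genPt (S := S) M).fromNormalization ⁻¹ᵁ U : _) := ⟨⟨y, hyV⟩⟩
  have hfr := functionField_isFractionRing_of_isAffineOpen S U hU
  obtain ⟨e, he1, he2, he3⟩ := exists_sections M U hU hg
  let _ : Algebra Γ(S, U) M := ((algebraMap S.functionField M).comp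
    (S.presheaf.germ U (genericPoint S) hg).hom).toAlgebra
  have htow : IsScalarTower Γ(S, U) S.functionField M := IsScalarTower.of_algebraMap_eq
    fun _ => rfl
  have hcl : IsIntegrallyClosed (integralClosure Γ(S, U) M) :=
    integralClosure.isIntegrallyClosedOfFiniteExtension S.functionField
  let E : Γ((genPt (S := S) M).normalization, (genPt (S := S) M).fromNormalization ⁻¹ᵁ U) ≃+*
      integralClosure Γ(S, U) M :=
    RingEquiv.ofBijective (e.codRestrict (integralClosure Γ(S, U) M).toSubring
      (fun b => (he3 (e b)).2 ⟨b, rfl⟩)) ⟨fun a b hab => he1 (congrArg Subtype.val hab), fun z => by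
        obtain ⟨b, hb⟩ := (he3 z.1).1 z.2
        exact ⟨b, Subtype.ext hb⟩⟩
  have hcl2 : IsIntegrallyClosed
      Γ((genPt (S := S) M).normalization, (genPt (S := S) M).fromNormalization ⁻¹ᵁ U) :=
    hcl.of_equiv E.symm
  let _ := TopCat.Presheaf.algebra_section_stalk (genPt (S := S) M).normalization.presheaf
    (⟨y, hyV⟩ : ((genPt (S := S) M).fromNormalization ⁻¹ᵁ U : _))
  have hloc := hV.isLocalization_stalk ⟨y, hyV⟩
  exact isIntegrallyClosed_of_isLocalization _ (hV.primeIdealOf ⟨y, hyV⟩).asIdeal.primeCompl
    (Ideal.primeCompl_le_nonZeroDivisors _)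

end

end Pool.Agent.LibK3G
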