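import Pool.Agent.LibK3G.WH1

/-!
The weak Hilbert property in the language of the function field.
-/

set_option autoImplicit false

open AlgebraicGeometry CategoryTheory CategoryTheory.Limits Polynomial
open Pool.Agent.LibHP

namespace Pool.Agent.LibK3G

/-- `WHil k κ Q`: finitely many monic polynomials over a finitely generated `k`-algebra with a map to
`κ`, none of whose irreducible factors over `κ` gives an extension of `κ` with the property `Q`, have
a common specialization at a `k`-point without roots in `k`. -/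
def WHil (k κ : Type) [Field k] [Field κ] [Algebra k κ]
    (Q : ∀ (N : Type) [Field N] [Algebra κ N], Prop) : Prop :=
  ∀ (A : Type) [CommRing A] [Algebra k A] [Algebra.FiniteType k A] (F : A →ₐ[k] κ) (m : ℕ)
    (P : Fin m → A[X]), (∀ i, (P i).Monic) →
    (∀ i, ∀ (g : κ[X]) [Fact (Irreducible g)], g.Monic → g ∣ (P i).map (F : A →+* κ) →
      ¬ Q (AdjoinRoot g)) →
    ∃ φ : A →ₐ[k] k, ∀ i, ∀ x : k, ¬ ((P i).map (φ : A →+* k)).IsRoot x

/-- The extension `N` of the function field of `S` is unramified over `S`: the normalization of `S`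
in `N` is etale over `S`. -/
def UnramOver (S : Scheme.{0}) [IsIntegral S] (N : Type) [Field N] [Algebra S.functionField N] :
    Prop :=
  AlgebraicGeometry.Etale (genPt (S := S) N).fromNormalization

/-- The field `k` is algebraically closed in `N`, for `c : k →+* N`. -/
def NoNewConst {k N : Type} [Field k] [Field N] (c : k →+* N) : Prop :=
  ∀ (α : N) (p : k[X]), p ≠ 0 → p.eval₂ c α = 0 → ∃ a : k, c a = α

theorem NoNewConst.of_equiv {k N N' : Type} [Field k] [Field N] [Field N'] {c : k →+* N}
    (h : NoNewConst c) (e : N ≃+* N') {c' : k →+* N'} (hc : ∀ a, c' a = e (c a)) :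
    NoNewConst c' := by
  intro α p hp hα
  have h1 : c' = (e : N →+* N').comp c := RingHom.ext hc
  obtain ⟨a, ha⟩ := h (e.symm α) p hp (by
    apply e.injective
    rw [map_zero]
    have h2 := Polynomial.hom_eval₂ p c (e : N →+* N') (e.symm α)
    change e (p.eval₂ c (e.symm α)) = _ at h2
    rw [h2, ← h1]
    change p.eval₂ c' (e (e.symm α)) = 0
    rw [e.apply_symm_apply, hα])
  exact ⟨a, by rw [hc, ha, e.apply_symm_apply]⟩

/-- A normal cover with new constants has no rational points. -/
theorem noNewConst_of_hom {k R B N : Type} [Field k] [CommRing R] [CommRing B] [Field N]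
    (c : k →+* R) (α : R →+* B) (E : B →+* N) (hE : Function.Injective E)
    (hint : ∀ z : N, (E.comp α).IsIntegralElem z → z ∈ Set.range E) (χ : R →+* k)
    (hχ : ∀ a, χ (c a) = a) (τ : B →+* k) (hτ : τ.comp α = χ) :
    NoNewConst ((E.comp α).comp c) := by
  intro z p hp hz
  let _ : Algebra k N := ((E.comp α).comp c).toAlgebra
  have hzi : IsIntegral k z := by
    rw [← isAlgebraic_iff_isIntegral]
    exact ⟨p, hp, hz⟩
  obtain ⟨b, hb⟩ := hint z ⟨(minpoly k z).map c, (minpoly.monic hzi).map _, by
    rw [eval₂_map]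
    exact minpoly.aeval k z⟩
  have h1 : (minpoly k z).eval₂ (α.comp c) b = 0 := by
    apply hE
    rw [map_zero, Polynomial.hom_eval₂, hb]
    exact minpoly.aeval k z
  have h2 : (minpoly k z).IsRoot (τ b) := by
    have h3 := congrArg τ h1
    rw [map_zero, Polynomial.hom_eval₂] at h3
    have h4 : τ.comp (α.comp c) = RingHom.id k := by
      rw [← RingHom.comp_assoc, hτ]
      exact RingHom.ext hχ
    rw [h4, eval₂_id] at h3
    exact h3
  refine ⟨τ b, ?_⟩
  exact minpoly.root hzi h2

/-- A rational point of the affine piece of the normalization of `S` in `N` over `U` shows that there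
are no new constants in `N`. -/
theorem noNewConst_of_section {k : Type} [Field k] {S : Scheme.{0}} [IsIntegral S]
    (s : S ⟶ Spec (CommRingCat.of k)) [Algebra k S.functionField]
    (hk : ∀ a : k, algebraMap k S.functionField a = toStalk s (genericPoint S) a)
    (N : Type) [Field N] [Algebra S.functionField N] [FiniteDimensional S.functionField N]
    (U : S.Opens) (hU : IsAffineOpen U) (hg : genericPoint S ∈ U) (χ : Γ(S, U) →+* k)
    (hχ : ∀ a, χ (toSec s U a) = a)
    (τ : Γ((genPt (S := S) N).normalization, (genPt (S := S) N).fromNormalization ⁻¹ᵁ U) →+* k)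
    (hτ : τ.comp ((genPt (S := S) N).fromNormalization.app U).hom = χ) :
    NoNewConst ((algebraMap S.functionField N).comp (algebraMap k S.functionField)) := by
  obtain ⟨E, hE1, hE2, hE3⟩ := exists_sections N U hU hg
  have hEα : E.comp ((genPt (S := S) N).fromNormalization.app U).hom =
      (algebraMap S.functionField N).comp (S.presheaf.germ U (genericPoint S) hg).hom :=
    RingHom.ext hE2
  have h4 := noNewConst_of_hom (toSec s U) ((genPt (S := S) N).fromNormalization.app U).hom E hE1
    (fun z hz => (hE3 z).1 (by rw [← hEα]; exact hz)) χ hχ τ hτ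
  have h5 : (S.presheaf.germ U (genericPoint S) hg).hom.comp (toSec s U) =
      algebraMap k S.functionField := by
    ext c
    rw [hk]
    have h3 : s.appLE ⊤ U le_top ≫ S.presheaf.germ U (genericPoint S) hg =
        s.appTop ≫ S.presheaf.germ ⊤ (genericPoint S) trivial := by
      rw [Scheme.Hom.appLE, Category.assoc, TopCat.Presheaf.germ_res]
      rfl
    exact congrArg (fun q => q ((Scheme.ΓSpecIso (CommRingCat.of k)).inv c)) h3
  rw [hEα, RingHom.comp_assoc, h5] at h4
  exact h4

/-- A rational point of the affine piece of a cover of `S` over `U` gives a section of the cover. -/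
theorem exists_section_of_hom {k : Type} [Field k] {S W : Scheme.{0}} (w : W ⟶ S) [IsAffineHom w]
    (U : S.Opens) (hU : IsAffineOpen U) (χ : Γ(S, U) →+* k) (τ : Γ(W, w ⁻¹ᵁ U) →+* k)
    (hτ : τ.comp (w.app U).hom = χ) (σ : Spec (CommRingCat.of k) ⟶ S)
    (hσ : σ = Spec.map (CommRingCat.ofHom χ) ≫ hU.fromSpec) :
    ∃ ρ : Spec (CommRingCat.of k) ⟶ W, ρ ≫ w = σ := by
  refine ⟨Spec.map (CommRingCat.ofHom τ) ≫ (hU.preimage w).fromSpec, ?_⟩
  have h3 := IsAffineOpen.SpecMap_appLE_fromSpec w hU (hU.preimage w) le_rfl
  rw [Category.assoc, ← h3, ← Category.assoc, ← Spec.map_comp, hσ, ← hτ]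
  rw [Scheme.Hom.appLE_eq_app]
  rfl

theorem whil_of_weakHilbertProp {k : Type} [Field k] [CharZero k] {S : Scheme.{0}} [IsIntegral S]
    (s : S ⟶ Spec (CommRingCat.of k)) [LocallyOfFiniteType s] [Algebra k S.functionField]
    (hk : ∀ a : k, algebraMap k S.functionField a = toStalk s (genericPoint S) a)
    (hn : ∀ x : S, IsIntegrallyClosed (S.presheaf.stalk x)) (h : WeakHilbertProp s)
    (Q : ∀ (N : Type) [Field N] [Algebra S.functionField N], Prop)
    (hQ : ∀ (N : Type) [Field N] [Algebra S.functionField N], UnramOver S N →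
      NoNewConst ((algebraMap S.functionField N).comp (algebraMap k S.functionField)) → Q N) :
    WHil k S.functionField Q := by
  classical
  intro A _ _ _ F m P hP hram
  have hnoeth : IsLocallyNoetherian S := LocallyOfFiniteType.isLocallyNoetherian s
  have hcz : CharZero S.functionField :=
    charZero_of_injective_algebraMap (algebraMap k S.functionField).injective
  obtain ⟨U, hU, hg, G, hG, hGk⟩ := exists_factor_open s hk A F
  have hne : Nonempty U := ⟨⟨_, hg⟩⟩
  have hfr := functionField_isFractionRing_of_isAffineOpen S U hU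
  have hcl := isIntegrallyClosed_sections hn U hU hg
  have hn' : ∀ U : S.Opens, IsAffineOpen U → genericPoint S ∈ U → IsIntegrallyClosed Γ(S, U) :=
    fun V hV hgV => isIntegrallyClosed_sections hn V hV hgV
  have hG' : (algebraMap Γ(S, U) S.functionField).comp G = (F : A →+* S.functionField) :=
    RingHom.ext hG
  -- the product of the polynomials
  set R : Γ(S, U)[X] := ∏ i, (P i).map G with hR
  have hRm : R.Monic := monic_prod_of_monic _ _ fun i _ => (hP i).map _
  obtain ⟨n, g, e, hgm, hgi, hgd, hprod⟩ := exists_factors (K := S.functionField) R hRm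
  have hfact : ∀ i, Fact (Irreducible ((g i).map (algebraMap Γ(S, U) S.functionField))) :=
    fun i => ⟨hgi i⟩
  have hfd : ∀ i, FiniteDimensional S.functionField
      (AdjoinRoot ((g i).map (algebraMap Γ(S, U) S.functionField))) :=
    fun i => ((hgm i).map _).finite_adjoinRoot
  have hgr : ∀ i, AlgebraicGeometry.Etale (genPt (S := S)
      (AdjoinRoot ((g i).map (algebraMap Γ(S, U) S.functionField)))).fromNormalization →
      ¬ NoNewConst ((algebraMap S.functionField (AdjoinRoot ((g i).map (algebraMap Γ(S, U)
        S.functionField)))).comp (algebraMap k S.functionField)) := by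
    intro i het hnc
    have h1 := hgd i
    rw [hR, Polynomial.map_prod] at h1
    obtain ⟨j, -, hj⟩ := ((hgi i).prime.dvd_finsetProd_iff _).1 h1
    rw [Polynomial.map_map, hG'] at hj
    exact hram j _ ((hgm i).map _) hj (hQ _ het hnc)
  have hlift : ∀ i, ∃ d : Γ(S, U), d ≠ 0 ∧ ∀ (χ : Γ(S, U) →+* k), χ d ≠ 0 → ∀ x : k,
      ((g i).map χ).IsRoot x → ∃ τ : Γ((genPt (S := S) (AdjoinRoot ((g i).map (algebraMap Γ(S, U)
        S.functionField)))).normalization, (genPt (S := S) (AdjoinRoot ((g i).map (algebraMap
          Γ(S, U) S.functionField)))).fromNormalization ⁻¹ᵁ U) →+* k, τ.comp ((genPt (S := S)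
            (AdjoinRoot ((g i).map (algebraMap Γ(S, U)
              S.functionField)))).fromNormalization.app U).hom = χ := by
    intro i
    obtain ⟨E, hE1, hE2, -⟩ := exists_sections
      (AdjoinRoot ((g i).map (algebraMap Γ(S, U) S.functionField))) U hU hg
    obtain ⟨d, hd, hd'⟩ := exists_lift_of_root (g i) (hgm i) (hgi i) _
      (finite_normalization hn' (AdjoinRoot ((g i).map (algebraMap Γ(S, U) S.functionField)))
        U hU hg) E hE2
    exact ⟨d, hd, fun χ hχ x hx => hd' k χ hχ x hx⟩
  choose d hd hlift using hlift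
  -- the ramified covers
  let J := {i : Fin n // ¬ AlgebraicGeometry.Etale (genPt (S := S)
      (AdjoinRoot ((g i).map (algebraMap Γ(S, U) S.functionField)))).fromNormalization}
  let eJ : Fin (Fintype.card J) ≃ J := (Fintype.equivFin J).symm
  have hdense := h (Fintype.card J) (fun i => (genPt (S := S) (AdjoinRoot ((g (eJ i)).map
    (algebraMap Γ(S, U) S.functionField)))).normalization) (fun i => (genPt (S := S) (AdjoinRoot
      ((g (eJ i)).map (algebraMap Γ(S, U) S.functionField)))).fromNormalization)
      (fun i => inferInstance) (fun i y => isIntegrallyClosed_normalization _ y)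
      (fun i => isFinite_normalization hn' _) (fun i => surjective_normalization _)
      (fun i => (eJ i).2)
  have hD0 : (∏ i, d i) ≠ 0 := Finset.prod_ne_zero_iff.2 fun i _ => hd i
  have hgD : genericPoint S ∈ S.basicOpen (∏ i, d i) := by
    rw [S.mem_basicOpen _ (genericPoint S) hg]
    refine IsUnit.mk0 _ fun h3 => hD0 ?_
    apply germ_injective_of_isIntegral S _ hg
    rw [h3, map_zero]
  obtain ⟨x, hxD, σ, hσ, ⟨y, hy⟩, hno⟩ := hdense.inter_open_nonempty _
    (S.basicOpen (∏ i, d i)).isOpen ⟨_, hgD⟩
  have hno' : ∀ i : J, ∀ ρ : Spec (CommRingCat.of k) ⟶ (genPt (S := S) (AdjoinRoot ((g i).map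
      (algebraMap Γ(S, U) S.functionField)))).normalization, ρ ≫ (genPt (S := S) (AdjoinRoot
        ((g i).map (algebraMap Γ(S, U) S.functionField)))).fromNormalization ≠ σ := by
    intro i
    obtain ⟨j', hj'⟩ := eJ.surjective i
    rw [← hj']
    exact hno j'
  have hy0 : y = IsLocalRing.closedPoint k := Subsingleton.elim _ _
  have hσx : σ (IsLocalRing.closedPoint k) = x := by
    rw [← hy0]
    exact hy
  obtain ⟨χ, hχ, hσχ, hχd⟩ := exists_hom_of_section s U hU σ hσ (by
    rw [hσx]
    exact S.basicOpen_le _ hxD)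
  have hχ0 : ∀ i, χ (d i) ≠ 0 := by
    intro i h0
    apply hχd (∏ i, d i) (by rw [hσx]; exact hxD)
    rw [map_prod]
    exact Finset.prod_eq_zero (Finset.mem_univ i) h0
  refine ⟨{ χ.comp G with commutes' := fun c => ?_ }, fun i x hx => ?_⟩
  · change χ (G (algebraMap k A c)) = c
    rw [hGk, hχ]
  · have h1 : ((P i).map (χ.comp G)).IsRoot x := hx
    have h2 : (R.map χ).IsRoot x := by
      rw [hR, Polynomial.map_prod, IsRoot.def, eval_prod]
      refine Finset.prod_eq_zero (Finset.mem_univ i) ?_
      rw [Polynomial.map_map]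
      exact h1
    rw [hprod, Polynomial.map_prod, IsRoot.def, eval_prod, Finset.prod_eq_zero_iff] at h2
    obtain ⟨j, -, hj⟩ := h2
    rw [Polynomial.map_pow, eval_pow] at hj
    have hj' : ((g j).map χ).IsRoot x := (pow_eq_zero_iff (by
      intro h0
      rw [h0, pow_zero] at hj
      exact one_ne_zero hj)).1 hj
    obtain ⟨τ, hτ⟩ := hlift j χ (hχ0 j) x hj'
    by_cases het : AlgebraicGeometry.Etale (genPt (S := S)
      (AdjoinRoot ((g j).map (algebraMap Γ(S, U) S.functionField)))).fromNormalization
    · exact hgr j het (noNewConst_of_section s hk _ U hU hg χ hχ τ hτ)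
    · have hfin := isFinite_normalization hn' (AdjoinRoot ((g j).map (algebraMap Γ(S, U)
        S.functionField)))
      obtain ⟨ρ, hρ⟩ := exists_section_of_hom _ U hU χ τ hτ σ hσχ
      exact hno' ⟨j, het⟩ ρ hρ

end Pool.Agent.LibK3G
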