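import Pool.Agent.LibK3F.HN1
import Pool.Agent.LibK3G.WH2

/-!
The weak Hilbert property: lifts of homomorphisms to the function field.
-/

set_option autoImplicit false

open Polynomial TensorProduct
open scoped IntermediateField
open Pool.Agent.LibHP Pool.Agent.LibK3F

namespace Pool.Agent.LibK3G

/-- After a specialization an element is a root of the specialization of its minimal polynomial. -/
theorem certificate {k κ A B : Type} [Field k] [Field κ] [Algebra k κ] [CommRing A]
    [Algebra k A] [CommRing B] (φ : A →ₐ[k] κ) (α : A →+* B) (hα : α.Finite) (b : B) :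
    letI : Algebra A B := α.toAlgebra
    letI : Algebra A κ := (φ : A →+* κ).toAlgebra
    ∃ T : Finset κ,
      ∀ C : Subalgebra k κ, (∀ a, φ a ∈ C) → (∀ t ∈ T, t ∈ C) →
        ∀ μ' : C[X], μ'.map (algebraMap C κ) = minpoly κ ((1 : κ) ⊗ₜ[A] b) →
          ∀ (χ : C →+* k) (τ : B →+* k),
          (∀ a (c : C), (c : κ) = φ a → τ (α a) = χ c) → (μ'.map χ).IsRoot (τ b) := by
  classical
  let _ : Algebra A B := α.toAlgebra
  let _ : Algebra A κ := (φ : A →+* κ).toAlgebra
  have hfin : Module.Finite A B := hα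
  have hfin2 : Module.Finite κ (κ ⊗[A] B) := inferInstance
  set θ : κ ⊗[A] B := (1 : κ) ⊗ₜ[A] b with hθ
  set μ : κ[X] := minpoly κ θ with hμ
  -- the certificate
  obtain ⟨n, s, hs⟩ := Module.Finite.exists_fin (R := A) (M := B)
  let mm : Fin (μ.natDegree + 1) ⊕ Fin n → B := Sum.elim (fun l => b ^ (l : ℕ)) s
  let nn : Fin (μ.natDegree + 1) ⊕ Fin n → κ := Sum.elim (fun l => μ.coeff l) 0
  have hspan : Submodule.span A (Set.range mm) = ⊤ := by
    rw [eq_top_iff, ← hs]
    apply Submodule.span_mono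
    rintro _ ⟨i, rfl⟩
    exact ⟨Sum.inr i, rfl⟩
  have hsum : ∑ i, mm i ⊗ₜ[A] nn i = 0 := by
    have h1 : ∑ l : Fin (μ.natDegree + 1), (μ.coeff l) ⊗ₜ[A] (b ^ (l : ℕ)) = (0 : κ ⊗[A] B) := by
      have h2 := minpoly.aeval κ θ
      rw [← hμ, aeval_eq_sum_range, ← Fin.sum_univ_eq_sum_range
        (fun l => μ.coeff l • θ ^ l)] at h2
      rw [← h2]
      refine Finset.sum_congr rfl fun l _ => ?_
      rw [hθ, Algebra.TensorProduct.tmul_pow, one_pow, TensorProduct.smul_tmul', smul_eq_mul,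
        mul_one]
    have h2 := congrArg (TensorProduct.comm A κ B) h1
    rw [map_sum, map_zero] at h2
    rw [Fintype.sum_sum_type]
    have h3 : ∑ i : Fin n, mm (Sum.inr i) ⊗ₜ[A] nn (Sum.inr i) = 0 :=
      Finset.sum_eq_zero fun i _ => TensorProduct.tmul_zero _ _
    rw [h3, add_zero]
    exact h2
  obtain ⟨J, a, y, h1, h2⟩ := TensorProduct.vanishesTrivially_of_sum_tmul_eq_zero A hspan hsum
  refine ⟨Finset.univ.image y, ?_⟩
  intro C hC hT μ' hμ' χ τ hχ
  have hy : ∀ j, y j ∈ C := fun j => hT _ (Finset.mem_image_of_mem _ (Finset.mem_univ j))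
  have hdeg : μ'.natDegree = μ.natDegree := by
    rw [← hμ', Polynomial.natDegree_map_eq_of_injective Subtype.val_injective]
  have hinj : Function.Injective (algebraMap C κ) := Subtype.val_injective
  -- the value of `nn i`
  have h3 : ∀ i, ∃ c : C, (c : κ) = nn i ∧
      χ c = ∑ j, τ (α (a i j)) * χ ⟨y j, hy j⟩ := by
    intro i
    refine ⟨∑ j, ⟨φ (a i j), hC _⟩ * ⟨y j, hy j⟩, ?_, ?_⟩
    · rw [h1 i, AddSubmonoidClass.coe_finsetSum]
      refine Finset.sum_congr rfl fun j _ => ?_
      rw [Algebra.smul_def]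
      rfl
    · rw [map_sum]
      refine Finset.sum_congr rfl fun j _ => ?_
      rw [map_mul, hχ (a i j) ⟨φ (a i j), hC _⟩ rfl]
  choose c hc1 hc2 using h3
  have hcl : ∀ l : Fin (μ.natDegree + 1), c (Sum.inl l) = μ'.coeff l := by
    intro l
    apply hinj
    change ((c (Sum.inl l) : C) : κ) = _
    rw [hc1, ← Polynomial.coeff_map, hμ']
    rfl
  have hcr : ∀ l : Fin n, c (Sum.inr l) = 0 := by
    intro l
    apply hinj
    change ((c (Sum.inr l) : C) : κ) = _
    rw [hc1, map_zero]
    rfl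
  rw [IsRoot.def, eval_map, eval₂_eq_sum_range, hdeg, ← Fin.sum_univ_eq_sum_range
    (fun l => χ (μ'.coeff l) * τ b ^ l)]
  have h4 : ∑ i, χ (c i) * τ (mm i) = 0 := by
    have h5 : ∀ i, χ (c i) * τ (mm i) = ∑ j, χ ⟨y j, hy j⟩ * τ (a i j • mm i) := by
      intro i
      rw [hc2, Finset.sum_mul]
      refine Finset.sum_congr rfl fun j _ => ?_
      rw [Algebra.smul_def, map_mul]
      change τ (α (a i j)) * χ ⟨y j, hy j⟩ * τ (mm i) =
        χ ⟨y j, hy j⟩ * (τ (α (a i j)) * τ (mm i))
      ring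
    rw [Finset.sum_congr rfl fun i _ => h5 i, Finset.sum_comm]
    refine Finset.sum_eq_zero fun j _ => ?_
    rw [← Finset.mul_sum, ← map_sum, h2 j, map_zero, mul_zero]
  rw [Fintype.sum_sum_type] at h4
  have h5 : ∑ i : Fin n, χ (c (Sum.inr i)) * τ (mm (Sum.inr i)) = 0 :=
    Finset.sum_eq_zero fun i _ => by rw [hcr, map_zero, zero_mul]
  rw [h5, add_zero] at h4
  rw [← h4]
  refine Finset.sum_congr rfl fun l _ => ?_
  rw [hcl, ← map_pow]
  rfl

/-- If no extension of `φ : A → κ` to the finite `A`-algebra `B` with values in a finite extension of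
`κ` has the property `Q` then there are an element `b` of `B` and a monic polynomial `μ` over `κ`, none
of whose irreducible factors gives an extension with the property `Q`, with `μ(b) = 0` after every
specialization. -/
theorem exists_elt_prim {k κ A B : Type} [Field k] [Infinite k] [Field κ] [CharZero κ]
    [Algebra k κ] [CommRing A] [Algebra k A] [CommRing B] (φ : A →ₐ[k] κ) (α : A →+* B)
    (hα : α.Finite) (Q : ∀ (N : Type) [Field N] [Algebra κ N], Prop)
    (hQ : ∀ (N N' : Type) [Field N] [Algebra κ N] [Field N'] [Algebra κ N'],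
      (N ≃ₐ[κ] N') → Q N → Q N')
    (hno : ∀ (N : Type) [Field N] [Algebra κ N] (ψ : B →+* N), Module.Finite κ N →
      ψ.comp α = (algebraMap κ N).comp (φ : A →+* κ) → ¬ Q N) :
    ∃ (b : B) (μ : κ[X]), μ.Monic ∧
      (∀ (g : κ[X]) [Fact (Irreducible g)], g.Monic → g ∣ μ → ¬ Q (AdjoinRoot g)) ∧
      ∃ T : Finset κ,
      ∀ C : Subalgebra k κ, (∀ a, φ a ∈ C) → (∀ t ∈ T, t ∈ C) →
        ∀ μ' : C[X], μ'.map (algebraMap C κ) = μ → ∀ (χ : C →+* k) (τ : B →+* k),
          (∀ a (c : C), (c : κ) = φ a → τ (α a) = χ c) → (μ'.map χ).IsRoot (τ b) := by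
  classical
  let _ : Algebra A B := α.toAlgebra
  let _ : Algebra A κ := (φ : A →+* κ).toAlgebra
  have hfin : Module.Finite A B := hα
  let _ : Algebra k B := (α.comp (algebraMap k A)).toAlgebra
  have hfin2 : Module.Finite κ (κ ⊗[A] B) := inferInstance
  have hart : IsArtinianRing (κ ⊗[A] B) := IsArtinianRing.of_finite κ (κ ⊗[A] B)
  have hfm : Finite (MaximalSpectrum (κ ⊗[A] B)) := inferInstance
  let _ : ∀ m : MaximalSpectrum (κ ⊗[A] B), Field ((κ ⊗[A] B) ⧸ m.asIdeal) := fun m =>
    haveI := m.isMaximal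
    Ideal.Quotient.field m.asIdeal
  have hfd : ∀ m : MaximalSpectrum (κ ⊗[A] B), Module.Finite κ ((κ ⊗[A] B) ⧸ m.asIdeal) :=
    fun m => inferInstance
  have hsep : ∀ m : MaximalSpectrum (κ ⊗[A] B),
      Finite (IntermediateField κ ((κ ⊗[A] B) ⧸ m.asIdeal)) := by
    intro m
    obtain ⟨a, ha⟩ := Field.exists_primitive_element κ ((κ ⊗[A] B) ⧸ m.asIdeal)
    exact Field.finite_intermediateField_of_exists_primitive_element κ _ ⟨a, ha⟩
  -- the map of `B` to the residue field
  let r : ∀ m : MaximalSpectrum (κ ⊗[A] B), B →+* (κ ⊗[A] B) ⧸ m.asIdeal := fun m =>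
    (Ideal.Quotient.mk m.asIdeal).comp
      (Algebra.TensorProduct.includeRight (R := A) (A := κ) (B := B) : B →+* κ ⊗[A] B)
  have hr : ∀ m b, r m b = Ideal.Quotient.mk m.asIdeal ((1 : κ) ⊗ₜ[A] b) := fun m b => rfl
  have hrα : ∀ m a, r m (α a) = algebraMap κ ((κ ⊗[A] B) ⧸ m.asIdeal) (φ a) := by
    intro m a
    have h1 : (Algebra.TensorProduct.includeRight (R := A) (A := κ) (B := B)) (α a) =
        algebraMap κ (κ ⊗[A] B) (φ a) := by
      have h2 : α a = algebraMap A B a := rfl
      rw [h2, AlgHom.commutes]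
      rfl
    change Ideal.Quotient.mk m.asIdeal
      ((Algebra.TensorProduct.includeRight (R := A) (A := κ) (B := B)) (α a)) = _
    rw [h1]
    rfl
  have hQm : ∀ m : MaximalSpectrum (κ ⊗[A] B), ¬ Q ((κ ⊗[A] B) ⧸ m.asIdeal) := by
    intro m
    refine hno _ (r m) (hfd m) ?_
    ext a
    exact hrα m a
  -- the elements with value in a proper subfield
  let V : (Σ m : MaximalSpectrum (κ ⊗[A] B), {E : IntermediateField κ ((κ ⊗[A] B) ⧸ m.asIdeal) //
      E ≠ ⊤}) → Submodule k B := fun p =>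
    { carrier := {b | r p.1 b ∈ p.2.1}
      zero_mem' := by
        change r p.1 0 ∈ p.2.1
        rw [map_zero]
        exact zero_mem _
      add_mem' := by
        intro x y hx hy
        change r p.1 (x + y) ∈ p.2.1
        rw [map_add]
        exact add_mem hx hy
      smul_mem' := by
        intro c x hx
        change r p.1 (c • x) ∈ p.2.1
        have h1 : c • x = α (algebraMap k A c) * x := by
          rw [Algebra.smul_def]
          rfl
        rw [h1, map_mul, hrα]
        exact mul_mem (p.2.1.algebraMap_mem _) hx }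
  have hV : ∀ p, V p ≠ ⊤ := by
    rintro ⟨m, E, hE⟩ h0
    apply hE
    rw [eq_top_iff]
    rintro y -
    obtain ⟨z, rfl⟩ := Ideal.Quotient.mk_surjective y
    induction z using TensorProduct.induction_on with
    | zero => rw [map_zero]; exact zero_mem _
    | tmul c b =>
      have hb : r m b ∈ E := by
        have : b ∈ V ⟨m, E, hE⟩ := h0 ▸ Submodule.mem_top
        exact this
      have h1 : c ⊗ₜ[A] b = algebraMap κ (κ ⊗[A] B) c * ((1 : κ) ⊗ₜ[A] b) := by
        rw [Algebra.TensorProduct.algebraMap_apply, Algebra.TensorProduct.tmul_mul_tmul, one_mul,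
          mul_one]
        rfl
      rw [h1, map_mul]
      exact mul_mem (E.algebraMap_mem c) hb
    | add x y hx hy =>
      rw [map_add]
      exact add_mem hx hy
  obtain ⟨b, hb⟩ : ∃ b : B, ∀ p, b ∉ V p := by
    by_contra hcon
    push Not at hcon
    obtain ⟨m, hm⟩ := Subspace.exists_eq_top_of_iUnion_eq_univ (p := V)
      (Set.eq_univ_of_forall fun b => Set.mem_iUnion.2 (hcon b))
    exact hV m hm
  have hprim : ∀ m, κ⟮r m b⟯ = ⊤ := by
    intro m
    by_contra hcon
    exact hb ⟨m, _, hcon⟩ (IntermediateField.mem_adjoin_simple_self κ (r m b))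
  set θ : κ ⊗[A] B := (1 : κ) ⊗ₜ[A] b with hθ
  have hint : IsIntegral κ θ := Algebra.IsIntegral.isIntegral θ
  refine ⟨b, minpoly κ θ, minpoly.monic hint, ?_, certificate φ α hα b⟩
  intro g hg hgm hgd hQg
  obtain ⟨q, hq⟩ := hgd
  have hgirr := hg.out
  have hq0 : q ≠ 0 := by
    rintro rfl
    rw [mul_zero] at hq
    exact (minpoly.monic hint).ne_zero hq
  have h1 : aeval θ g * aeval θ q = 0 := by
    rw [← map_mul, ← hq, minpoly.aeval]
  have h2 : aeval θ q ≠ 0 := by
    intro h3
    have h4 := Polynomial.natDegree_le_natDegree (minpoly.degree_le_of_ne_zero κ θ hq0 h3)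
    rw [hq, Polynomial.natDegree_mul hgirr.ne_zero hq0] at h4
    have h5 := hgirr.natDegree_pos
    omega
  have h3 : ¬ IsUnit (aeval θ g) := by
    intro hu
    exact h2 (hu.mul_right_eq_zero.1 h1)
  obtain ⟨I, hI, hθI⟩ := exists_max_ideal_of_mem_nonunits h3
  let m : MaximalSpectrum (κ ⊗[A] B) := ⟨I, hI⟩
  have h4 : aeval (r m b) g = 0 := by
    have h5 : r m b = Ideal.Quotient.mkₐ κ I θ := rfl
    rw [h5, aeval_algHom_apply]
    exact Ideal.Quotient.eq_zero_iff_mem.2 hθI
  have h5 : minpoly κ (r m b) = g := (minpoly.eq_of_irreducible_of_monic hgirr h4 hgm).symm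
  have hintm : IsIntegral κ (r m b) := Algebra.IsIntegral.isIntegral _
  apply hQm m
  subst h5
  exact hQ _ _ (((IntermediateField.adjoinRootEquivAdjoin κ hintm).trans
    (IntermediateField.equivOfEq (hprim m))).trans IntermediateField.topEquiv) hQg

end Pool.Agent.LibK3G
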