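import Pool.Agent.LibK3G.WH3
import Pool.Agent.LibK3G.HL3

/-!
The weak Hilbert property: if the Hilbert property of `X` fails, then every homomorphism from the
function field of `X` to the function field of a variety with the weak Hilbert property lifts to one of
finitely many extensions after an unramified extension.
-/

set_option autoImplicit false

open AlgebraicGeometry CategoryTheory Polynomial TensorProduct
open Pool.Agent.LibHP Pool.Agent.LibK3

namespace Pool.Agent.LibK3G

/-- Lifting a homomorphism from lifts of the rational points. -/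
theorem exists_lift_hom_of_whil {k κ : Type} [Field k] [Infinite k] [Field κ] [CharZero κ]
    [Algebra k κ] (Q : ∀ (N : Type) [Field N] [Algebra κ N], Prop)
    (hQ : ∀ (N N' : Type) [Field N] [Algebra κ N] [Field N'] [Algebra κ N'],
      (N ≃ₐ[κ] N') → Q N → Q N')
    (hH : WHil k κ Q) (A : Type) [CommRing A] [Algebra k A] [Algebra.FiniteType k A]
    (φ : A →ₐ[k] κ) {n : ℕ} (B : Fin n → Type)
    [∀ i, CommRing (B i)] (α : ∀ i, A →+* B i) (hα : ∀ i, (α i).Finite)
    (h : ∀ χ : A →ₐ[k] k, ∃ i, ∃ τ : B i →+* k, τ.comp (α i) = (χ : A →+* k)) :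
    ∃ i, ∃ (N : Type) (_ : Field N) (_ : Algebra κ N), Module.Finite κ N ∧ Q N ∧
      ∃ ψ : B i →+* N, ψ.comp (α i) = (algebraMap κ N).comp (φ : A →+* κ) := by
  classical
  by_contra hcon
  push Not at hcon
  have h1 := fun i => exists_elt_prim φ (α i) (hα i) Q hQ
    (fun N _ _ ψ hN hψ hQN => hcon i N inferInstance inferInstance hN hQN ψ hψ)
  choose b μ hμm hμr T hT using h1
  obtain ⟨S, hS⟩ := Algebra.FiniteType.out (R := k) (A := A)
  -- the finitely generated subalgebra
  let G : Finset κ :=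
    S.image φ ∪ Finset.univ.biUnion fun i => T i ∪ (μ i).coeffs
  let C : Subalgebra k κ := Algebra.adjoin k (G : Set _)
  have hGC : ∀ g ∈ G, g ∈ C := fun g hg => Algebra.subset_adjoin hg
  have hφC : ∀ a, φ a ∈ C := by
    intro a
    have h2 : a ∈ Algebra.adjoin k (S : Set A) := by rw [hS]; trivial
    have h3 : Algebra.adjoin k (S : Set A) ≤ C.comap φ := by
      apply Algebra.adjoin_le
      intro s hs
      exact hGC _ (Finset.mem_union_left _ (Finset.mem_image_of_mem _ hs))
    exact h3 h2
  have hTC : ∀ i, ∀ t ∈ T i, t ∈ C := fun i t ht =>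
    hGC _ (Finset.mem_union_right _ (Finset.mem_biUnion.2 ⟨i, Finset.mem_univ i,
      Finset.mem_union_left _ ht⟩))
  have hμC : ∀ i, ∀ l, (μ i).coeff l ∈ C := by
    intro i l
    by_cases hl : (μ i).coeff l = 0
    · rw [hl]
      exact C.zero_mem
    · exact hGC _ (Finset.mem_union_right _ (Finset.mem_biUnion.2 ⟨i, Finset.mem_univ i,
        Finset.mem_union_right _ (Polynomial.coeff_mem_coeffs hl)⟩))
  have hCft : Algebra.FiniteType k C :=
    Subalgebra.fg_iff_finiteType C |>.1 ⟨G, rfl⟩
  have h2 : ∀ i, ∃ μ' : C[X], μ'.map (algebraMap C _) = μ i ∧ μ'.Monic := by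
    intro i
    have h3 : μ i ∈ Polynomial.lifts (algebraMap C κ) := by
      rw [Polynomial.lifts_iff_coeff_lifts]
      intro l
      exact ⟨⟨_, hμC i l⟩, rfl⟩
    obtain ⟨q, hq, -, hqm⟩ := Polynomial.lifts_and_natDegree_eq_and_monic h3 (hμm i)
    exact ⟨q, hq, hqm⟩
  choose μ' hμ' hμ'm using h2
  obtain ⟨χ, hχ⟩ := hH C C.val n μ' hμ'm (by
    intro i g hg hgm hgd
    have h3 : (μ' i).map (C.val : C →+* κ) = μ i := hμ' i
    rw [h3] at hgd
    exact hμr i g hgm hgd)
  obtain ⟨i, τ, hτ⟩ := h (χ.comp (φ.codRestrict C hφC))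
  refine hχ i (τ (b i)) (hT i C hφC (hTC i) (μ' i) (hμ' i) (χ : C →+* k) τ ?_)
  intro a c hc
  have h3 : τ (α i a) = χ (φ.codRestrict C hφC a) := congrArg (fun q : A →+* k => q a) hτ
  rw [h3]
  change χ _ = χ c
  congr 1
  exact Subtype.ext hc.symm



/-- Extension of an injective homomorphism to the fields of fractions of an integral extension. -/
theorem exists_extension_frac {A B K M L : Type} [CommRing A] [IsDomain A] [CommRing B] [IsDomain B]
    [Field K] [Algebra A K] [IsFractionRing A K] [Field M] [Algebra B M] [IsFractionRing B M]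
    [Field L] (α : A →+* B) (hα : α.Finite) (j : K →+* M)
    (hj : ∀ a, j (algebraMap A K a) = algebraMap B M (α a)) (φ : K →+* L) (ψ : B →+* L)
    (h : ∀ a, ψ (α a) = φ (algebraMap A K a)) : ∃ Ψ : M →+* L, Ψ.comp j = φ := by
  let _ : Algebra A B := α.toAlgebra
  have hint : Algebra.IsIntegral A B := ⟨hα.to_isIntegral⟩
  have hφA : Function.Injective fun a : A => φ (algebraMap A K a) :=
    φ.injective.comp (IsFractionRing.injective A K)
  have hker : (RingHom.ker ψ).comap (algebraMap A B) = ⊥ := by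
    rw [eq_bot_iff]
    intro a ha
    have h1 : ψ (α a) = 0 := ha
    rw [h] at h1
    have h2 : a = 0 := hφA (by simpa using h1)
    exact h2
  have hψ : Function.Injective ψ := by
    rw [RingHom.injective_iff_ker_eq_bot]
    have hprime : (RingHom.ker ψ).IsPrime := RingHom.ker_isPrime ψ
    exact Ideal.eq_bot_of_comap_eq_bot hker
  refine ⟨IsFractionRing.lift hψ, ?_⟩
  refine IsFractionRing.ringHom_ext (A := A) ?_
  intro a
  change IsFractionRing.lift hψ (j (algebraMap A K a)) = φ (algebraMap A K a)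
  rw [hj, IsFractionRing.lift_algebraMap, h]

private theorem WH4_toSec_germ {k : Type} [Field k] {X : Scheme.{0}}
    (f : X ⟶ Spec (CommRingCat.of k)) (W : X.Opens) (x : X) (hx : x ∈ W) (c : k) :
    X.presheaf.germ W x hx (toSec f W c) = toStalk f x c := by
  have h3 : f.appLE ⊤ W le_top ≫ X.presheaf.germ W x hx =
      f.appTop ≫ X.presheaf.germ ⊤ x trivial := by
    rw [Scheme.Hom.appLE, Category.assoc, TopCat.Presheaf.germ_res]
    rfl
  exact congrArg (fun q => q ((Scheme.ΓSpecIso (CommRingCat.of k)).inv c)) h3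

private theorem WH4_ft {k : Type} [Field k] {X : Scheme.{0}} (f : X ⟶ Spec (CommRingCat.of k))
    [Smooth f] (W : X.Opens) (hW : IsAffineOpen W) : (toSec f W).FiniteType := by
  refine RingHom.FiniteType.comp (g := (f.appLE ⊤ W le_top).hom)
    (f.finiteType_appLE (isAffineOpen_top _) hW le_top) ?_
  exact RingHom.FiniteType.of_surjective _
    ((ConcreteCategory.isIso_iff_bijective
      (Scheme.ΓSpecIso (CommRingCat.of k)).inv).mp inferInstance).2

theorem exists_ext_of_not_hilbertProp {k : Type} [Field k] [CharZero k] {X : Scheme.{0}}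
    [IsIntegral X] (f : X ⟶ Spec (CommRingCat.of k)) [Smooth f] (h : ¬ HilbertProp f) :
    ∃ (n : ℕ) (M : Fin n → Type) (_ : ∀ i, Field (M i)) (j : ∀ i, X.functionField →+* M i),
      (∀ i, (j i).Finite ∧ ¬ Function.Surjective (j i)) ∧
      ∀ (L : Type) [Field L] [CharZero L] [Algebra k L]
        (Q : ∀ (N : Type) [Field N] [Algebra L N], Prop),
        (∀ (N N' : Type) [Field N] [Algebra L N] [Field N'] [Algebra L N'],
          (N ≃ₐ[L] N') → Q N → Q N') → WHil k L Q →
        ∀ φ : X.functionField →+* L,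
        (∀ c : k, φ (toStalk f (genericPoint X) c) = algebraMap k L c) →
        ∃ i, ∃ (N : Type) (_ : Field N) (_ : Algebra L N), Module.Finite L N ∧ Q N ∧
          ∃ ψ : M i →+* N, ψ.comp (j i) = (algebraMap L N).comp φ := by
  obtain ⟨n, Y, π, hY, hfin, hsurj, W, hW, hgW, hf, hs, hn, hχ⟩ := exists_good_open f h
  refine ⟨n, fun i => (Y i).functionField, fun i => inferInstance, fun i => kap (π i),
    fun i => ⟨hf i, hs i⟩, ?_⟩
  intro L _ _ _ Q hQ hH φ hφ
  have hneW : Nonempty W := ⟨⟨_, hgW⟩⟩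
  let _ : Algebra k Γ(X, W) := (toSec f W).toAlgebra
  have hft : Algebra.FiniteType k Γ(X, W) := WH4_ft f W hW
  have hfr := functionField_isFractionRing_of_isAffineOpen X W hW
  let φ0 : Γ(X, W) →+* L := φ.comp (algebraMap Γ(X, W) X.functionField)
  let φA : Γ(X, W) →ₐ[k] L :=
    { φ0 with
      commutes' := by
        intro c
        change φ (X.presheaf.germ W (genericPoint X) hgW (toSec f W c)) = _
        rw [WH4_toSec_germ, hφ] }
  have hfc : ∀ i, ((π i).app W).hom.Finite := fun i => IsFinite.finite_app (π i) W hW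
  obtain ⟨i, N, i1, i2, hN, hQN, ψ, hψ⟩ := exists_lift_hom_of_whil Q hQ hH Γ(X, W) φA
    (fun i => Γ(Y i, π i ⁻¹ᵁ W)) (fun i => ((π i).app W).hom) hfc
    (fun χ => hχ (χ : Γ(X, W) →+* k) (fun c => χ.commutes c))
  refine ⟨i, N, i1, i2, hN, hQN, ?_⟩
  have h2 : genericPoint (Y i) ∈ π i ⁻¹ᵁ W := genericPoint_mem_preimage (π i) W hgW
  have hneY : Nonempty (π i ⁻¹ᵁ W : (Y i).Opens) := ⟨⟨_, h2⟩⟩
  have hfrY := functionField_isFractionRing_of_isAffineOpen (Y i) (π i ⁻¹ᵁ W) (hW.preimage (π i))
  refine exists_extension_frac (A := Γ(X, W)) (B := Γ(Y i, π i ⁻¹ᵁ W)) ((π i).app W).hom (hfc i)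
    (kap (π i)) (fun a => kap_germ (π i) W hgW h2 a) ((algebraMap L N).comp φ) ψ ?_
  intro a
  exact congrArg (fun q : Γ(X, W) →+* N => q a) hψ

/-- If `X` does not have the Hilbert property over `k` then there are finitely many nontrivial finite
extensions of its function field such that, for every normal variety `Z` over `k` with the weak Hilbert
property and every homomorphism over `k` from the function field of `X` to the one of `Z`, one of them
lifts to an extension of the function field of `Z` which is unramified over `Z` and has no new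
constants. -/
theorem exists_unram_of_not_hilbertProp {k : Type} [Field k] [CharZero k] {X : Scheme.{0}}
    [IsIntegral X] (f : X ⟶ Spec (CommRingCat.of k)) [Smooth f] (h : ¬ HilbertProp f) :
    ∃ (n : ℕ) (M : Fin n → Type) (_ : ∀ i, Field (M i)) (j : ∀ i, X.functionField →+* M i),
      (∀ i, (j i).Finite ∧ ¬ Function.Surjective (j i)) ∧
      ∀ (Z : Scheme.{0}) [IsIntegral Z] (z : Z ⟶ Spec (CommRingCat.of k)) [LocallyOfFiniteType z],
        (∀ x : Z, IsIntegrallyClosed (Z.presheaf.stalk x)) → WeakHilbertProp z →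
        ∀ φ : X.functionField →+* Z.functionField,
        (∀ c : k, φ (toStalk f (genericPoint X) c) = toStalk z (genericPoint Z) c) →
        ∃ i, ∃ (N : Type) (_ : Field N) (_ : Algebra Z.functionField N),
          Module.Finite Z.functionField N ∧ UnramOver Z N ∧
          (∀ α : N, (∃ p : k[X], p ≠ 0 ∧ p.eval₂ ((algebraMap Z.functionField N).comp
            (toStalk z (genericPoint Z))) α = 0) →
              ∃ c : k, algebraMap Z.functionField N (toStalk z (genericPoint Z) c) = α) ∧
          ∃ ψ : M i →+* N, ψ.comp (j i) = (algebraMap Z.functionField N).comp φ := by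
  obtain ⟨n, M, hM, j, hj, H⟩ := exists_ext_of_not_hilbertProp f h
  refine ⟨n, M, hM, j, hj, ?_⟩
  intro Z _ z _ hn hw φ hφ
  let _ : Algebra k Z.functionField := (toStalk z (genericPoint Z)).toAlgebra
  have hcz : CharZero Z.functionField :=
    charZero_of_injective_algebraMap (algebraMap k Z.functionField).injective
  obtain ⟨i, N, i1, i2, hN, ⟨N', i3, i4, ⟨e⟩, hU, hC⟩, ψ, hψ⟩ := H Z.functionField
    (fun N _ _ => ∃ (N' : Type) (_ : Field N') (_ : Algebra Z.functionField N'),
      Nonempty (N ≃ₐ[Z.functionField] N') ∧ UnramOver Z N' ∧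
        NoNewConst ((algebraMap Z.functionField N').comp (toStalk z (genericPoint Z))))
    (by
      rintro N N' _ _ _ _ e ⟨N'', i3, i4, ⟨e'⟩, hU, hC⟩
      exact ⟨N'', i3, i4, ⟨e.symm.trans e'⟩, hU, hC⟩)
    (whil_of_weakHilbertProp z (fun _ => rfl) hn hw _
      (fun N _ _ hU hC => ⟨N, inferInstance, inferInstance, ⟨AlgEquiv.refl⟩, hU, hC⟩)) φ hφ
  refine ⟨i, N', i3, i4, Module.Finite.equiv e.toLinearEquiv, hU, ?_, (e : N →+* N').comp ψ, ?_⟩
  · rintro α ⟨p, hp, hα⟩
    exact hC α p hp hα
  · rw [RingHom.comp_assoc, hψ, ← RingHom.comp_assoc]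
    congr 1
    ext x
    exact e.commutes x

end Pool.Agent.LibK3G
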