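import Pool.Agent.LibK3G.WH2

/-!
A normal scheme is its own normalization: the trivial extension of the function field is unramified.
-/

set_option autoImplicit false

open AlgebraicGeometry CategoryTheory CategoryTheory.Limits
open Pool.Agent.LibHP

namespace Pool.Agent.LibK3G

/-- An affine morphism which is bijective on sections over the affine opens is an isomorphism. -/
theorem isIso_of_bijective_app {X Y : Scheme.{0}} (f : X ⟶ Y) [IsAffineHom f]
    (h : ∀ U : Y.Opens, IsAffineOpen U → Function.Bijective (f.app U).hom) : IsIso f := by
  refine (IsZariskiLocalAtTarget.iff_of_iSup_eq_top (P := .isomorphisms _)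
    (fun U : Y.affineOpens => (U : Y.Opens)) (iSup_affineOpens_eq_top Y)).2 fun U => ?_
  change IsIso (f ∣_ (U : Y.Opens))
  rw [isIso_morphismRestrict_iff_isIso_app f U.2]
  exact (ConcreteCategory.isIso_iff_bijective _).2 (h U U.2)

/-- The normalization of a normal scheme in its function field is the scheme itself. -/
theorem isIso_normalization_self {S : Scheme.{0}} [IsIntegral S]
    (hn : ∀ x : S, IsIntegrallyClosed (S.presheaf.stalk x)) :
    IsIso (genPt (S := S) S.functionField).fromNormalization := by
  refine isIso_of_bijective_app _ fun U hU => ?_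
  by_cases hg : genericPoint S ∈ U
  · have hne : Nonempty U := ⟨⟨_, hg⟩⟩
    have hfr := functionField_isFractionRing_of_isAffineOpen S U hU
    have hcl := isIntegrallyClosed_sections hn U hU hg
    obtain ⟨E, hE1, hE2, hE3⟩ := exists_sections S.functionField U hU hg
    have hE2' : ∀ a : Γ(S, U), E ((genPt (S := S) S.functionField).fromNormalization.app U a) =
        algebraMap Γ(S, U) S.functionField a := hE2
    refine ⟨fun a b hab => ?_, fun w => ?_⟩
    · apply IsFractionRing.injective Γ(S, U) S.functionField
      rw [← hE2', ← hE2']
      exact congrArg E hab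
    · have h1 : IsIntegral Γ(S, U) (E w) := (hE3 (E w)).2 ⟨w, rfl⟩
      obtain ⟨a, ha⟩ := IsIntegrallyClosed.isIntegral_iff.1 h1
      exact ⟨a, hE1 ((hE2' a).trans ha)⟩
  · have hU0 : U = ⊥ := by
      ext x
      refine ⟨fun hx => hg ?_, fun hx => hx.elim⟩
      exact ((genericPoint_spec S).mem_open_set_iff U.2).2 ⟨x, trivial, hx⟩
    subst hU0
    have h1 : Subsingleton Γ((genPt (S := S) S.functionField).normalization,
        (genPt (S := S) S.functionField).fromNormalization ⁻¹ᵁ ⊥) :=
      inferInstanceAs (Subsingleton Γ((genPt (S := S) S.functionField).normalization, ⊥))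
    have h2 : Subsingleton Γ(S, ⊥) := inferInstance
    exact ⟨fun a b _ => Subsingleton.elim _ _, fun w => ⟨0, Subsingleton.elim _ _⟩⟩

/-- The trivial extension of the function field of a normal scheme is unramified. -/
theorem unramOver_self {S : Scheme.{0}} [IsIntegral S]
    (hn : ∀ x : S, IsIntegrallyClosed (S.presheaf.stalk x)) : UnramOver S S.functionField := by
  have h := isIso_normalization_self hn
  change AlgebraicGeometry.Etale (genPt (S := S) S.functionField).fromNormalization
  infer_instance

end Pool.Agent.LibK3G
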